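import Pool.Agent.W_c2305b_h68.Geo
import Pool.Agent.W_c2305b_h35.Turn2
import Pool.Agent.W_c2305b_h35.CellFrame
import Pool.Agent.W_c2305b_h35.Acc
import Pool.Agent.W_c2305b_h52.Num
import Pool.Agent.W_c2305ba_h79.NearAbs

/-!
# MP_c2305b_co, bounded eccentricity: special cells and the number property
-/

open MeasureTheory Set Module W82

namespace C2305bFat

open C2305b (Pl)
open C2305b.TL (cr)

/-- The number property. -/
theorem hnum (B : ℕ) : ∃ e3 : ℝ, 0 < e3 ∧ C2305bA.NumProp B e3 := by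
  obtain ⟨ε, hε, -, h⟩ := C2305bAF.number_lemma B
  refine ⟨ε, hε, fun φ => ?_⟩
  obtain ⟨φ0, -, h2⟩ := h φ
  refine ⟨φ0, fun d z hd hz => h2 d z ?_ hz⟩
  have : ((|d| : ℤ) : ℝ) ≤ ((B : ℤ) : ℝ) := by exact_mod_cast hd
  rw [Int.cast_abs] at this
  exact_mod_cast this

/-- Special cells: the owner of a side of large turning. -/
def SpC {ι : Type} [Fintype ι] {D K : Set Pl} {P : ι → Set Pl} (h : Vio D P K) (T : Pl → Pl)
    (own : Pl × Pl → ι) (e1 : ℝ) (i : ι) : Prop :=
  ∃ s ∈ h.til.sides h.hull, own s = i ∧ e1 < turn T s.1 s.2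

open Classical in
/-- There are few special cells. -/
theorem spM {e1 : ℝ} (he : 0 < e1) : ∃ M : ℕ, ∀ (K : Set Pl) (ι : Type) [Fintype ι]
    (D : Set Pl) (P : ι → Set Pl) (h : Vio D P K) (T : Pl → Pl), Frame D P T →
    ∀ own : Pl × Pl → ι, (Finset.univ.filter fun i => SpC h T own e1 i).card ≤ M := by
  obtain ⟨M, hM⟩ := few_sides he
  refine ⟨M, fun K ι _ D P h T hT own => ?_⟩
  have h1 := hM K ι D P h T hT
  have hsub : (Finset.univ.filter fun i => SpC h T own e1 i) ⊆
      ((h.til.sides h.hull).filter (fun s => e1 < turn T s.1 s.2)).image own := by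
    intro i hi
    obtain ⟨s, hs, ho, ht⟩ := (Finset.mem_filter.1 hi).2
    exact Finset.mem_image.2 ⟨s, Finset.mem_filter.2 ⟨hs, ht⟩, ho⟩
  calc (Finset.univ.filter fun i => SpC h T own e1 i).card
      ≤ (((h.til.sides h.hull).filter (fun s => e1 < turn T s.1 s.2)).image own).card := by
        exact Finset.card_le_card hsub
    _ ≤ ((h.til.sides h.hull).filter (fun s => e1 < turn T s.1 s.2)).card :=
        Finset.card_image_le
    _ ≤ M := h1

/-- The sides of a cell which is not special have small turning. -/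
theorem not_spC {ι : Type} [Fintype ι] {D K : Set Pl} {P : ι → Set Pl} {h : Vio D P K}
    {T : Pl → Pl} {own : Pl × Pl → ι} {e1 : ℝ} {i : ι} (hi : ¬ SpC h T own e1 i)
    {s : Pl × Pl} (hs : s ∈ h.til.sides h.hull) (ho : own s = i) : turn T s.1 s.2 ≤ e1 := by
  by_contra hcon
  exact hi ⟨s, hs, ho, not_le.1 hcon⟩

/-- The owner of a side is unique. -/
theorem own_unique {ι : Type} [Fintype ι] {D : Set Pl} {P : ι → Set Pl} (h : Tiling D P)
    {s : Pl × Pl} (hs : Side D P s.1 s.2) {i j : ι} (hi : segment ℝ s.1 s.2 ⊆ P i)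
    (hj : segment ℝ s.1 s.2 ⊆ P j) (hci : cap D s.1 s.2 ⊆ P i) (hcj : cap D s.1 s.2 ⊆ P j) :
    i = j := by
  by_contra hij
  have : Nonempty ι := ⟨i⟩
  obtain ⟨z0, hz0⟩ := h.int_nonempty
  set p := s.1 with hp
  set q := s.2 with hq
  have hpq : p ≠ q := hs.2.2.1.symm
  set m : Pl := (1 / 2 : ℝ) • p + (1 / 2 : ℝ) • q with hm
  have hmo : m ∈ openSegment ℝ p q := ⟨1 / 2, 1 / 2, by norm_num, by norm_num, by norm_num, rfl⟩
  have hms : m ∈ segment ℝ p q := openSegment_subset_segment ℝ _ _ hmo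
  have hmD : m ∈ D := h.sub i (hi hms)
  -- the point `m` is not in the frontier of `D`
  have hmint : m ∈ interior D := by
    by_contra hcon
    refine hs.2.2.2.2 m ?_ hmo
    exact ⟨⟨i, j, hij, hi hms, hj hms⟩, subset_closure hmD, hcon⟩
  -- hence the cap has interior points near `m`
  have hw : q - p ≠ 0 := sub_ne_zero.2 hs.2.2.1
  obtain ⟨x, hx1, hx2⟩ : ∃ x, x ∈ interior D ∧ cr (q - p) (x - p) < 0 := by
    have hnhds : interior D ∈ nhds m := isOpen_interior.mem_nhds hmint
    obtain ⟨ε, hε, hball⟩ := Metric.mem_nhds_iff.1 hnhds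
    set n : Pl := !₂[(q - p) 1, -(q - p) 0] with hn
    have hnn : 0 < ‖n‖ + 1 := by positivity
    refine ⟨m + (ε / (‖n‖ + 1)) • n, hball ?_, ?_⟩
    · rw [Metric.mem_ball, dist_eq_norm, add_sub_cancel_left, norm_smul,
        Real.norm_of_nonneg (by positivity), div_mul_eq_mul_div, div_lt_iff₀ hnn]
      nlinarith [norm_nonneg n]
    · have e1 : cr (q - p) (m + (ε / (‖n‖ + 1)) • n - p) =
          -((ε / (‖n‖ + 1)) * ((q - p) 0 ^ 2 + (q - p) 1 ^ 2)) := by
        have n0 : n 0 = (q - p) 1 := rfl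
        have n1 : n 1 = -(q - p) 0 := rfl
        rw [hm]
        unfold cr
        simp only [PiLp.add_apply, PiLp.sub_apply, PiLp.smul_apply, smul_eq_mul, n0, n1]
        ring
      rw [e1]
      have h2 : 0 < (q - p) 0 ^ 2 + (q - p) 1 ^ 2 := by
        have h3 : (q - p) 0 ≠ 0 ∨ (q - p) 1 ≠ 0 := by
          by_contra hcon
          push Not at hcon
          exact hw (C2305b.ext2 hcon.1 hcon.2)
        rcases h3 with h3 | h3
        · positivity
        · positivity
      have h3 : 0 < ε / (‖n‖ + 1) := by positivity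
      nlinarith [mul_pos h3 h2]
  -- a neighbourhood of `x` lies in both cells
  have hopen : IsOpen (interior D ∩ {z : Pl | cr (q - p) (z - p) < 0}) := by
    refine isOpen_interior.inter ?_
    have hc : Continuous fun z : Pl => cr (q - p) (z - p) := by
      unfold cr
      fun_prop
    exact isOpen_lt hc continuous_const
  have hsub : ∀ k, cap D p q ⊆ P k → x ∈ interior (P k) := by
    intro k hk
    refine interior_maximal ?_ hopen ⟨hx1, hx2⟩
    rintro z ⟨hz1, hz2⟩
    exact hk ⟨interior_subset hz1, hz2⟩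
  exact Set.disjoint_left.1 (h.disj i j hij) (hsub i hci) (hsub j hcj)

/-- Big cells which are not special have a nondegenerate hull of corners. -/
theorem nondeg_of {α e1 μ0 : ℝ} {ι : Type} [Fintype ι] {D K : Set Pl} {P : ι → Set Pl}
    (h : Vio D P K) (hK : IsCompact K) (hball : Metric.closedBall 0 1 ⊆ K)
    (hKα : K ⊆ Metric.closedBall 0 α) {T : Pl → Pl} (hT : Frame D P T)
    (he0 : 0 ≤ e1) (he1 : e1 ≤ 1) (he : 8 * α ^ 2 * e1 < 2) (hμ : μ0 ≤ 1)
    (own : Pl × Pl → ι)
    (hown : ∀ s ∈ h.til.sides h.hull, segment ℝ s.1 s.2 ⊆ P (own s) ∧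
      cap D s.1 s.2 ⊆ P (own s)) {i : ι} (hm : miss K P i ≤ μ0) (hsp : ¬ SpC h T own e1 i) :
    (interior (convexHull ℝ (S P i))).Nonempty := by
  have hvol : 3 ≤ (volume K).toReal := by
    have h1 : (volume (Metric.closedBall (0 : Pl) 1)).toReal ≤ (volume K).toReal :=
      ENNReal.toReal_mono hK.measure_lt_top.ne (measure_mono hball)
    rw [EuclideanSpace.volume_closedBall_fin_two, ENNReal.toReal_mul, ENNReal.toReal_pow,
      ENNReal.toReal_ofReal zero_le_one, ENNReal.toReal_ofReal Real.pi_pos.le] at h1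
    linarith [Real.pi_gt_three]
  refine geo (a0 := 2) h hKα hT he0 he1 he own hown ?_ ?_
  · unfold miss at hm
    linarith
  · intro s hs ho
    exact not_spC hsp hs ho

end C2305bFat
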