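import Pool.Agent.W82_c2305b.Rigid
import Pool.Agent.W_c2305b_h79.Two

/-!
MP_c2305b_co: the two level rigidity in the form `RigAt`.
-/

namespace W82

open C2305b.Rig (Am Off Pos Conv6 ar6 InBody Rigid3 Rigid3T rigid3T_of_rigid3)

/-- Monotonicity in the two thresholds. -/
theorem RigAt.mono {K0 : Set V} {T6 ν ε a b co so η κ η' κ' : ℝ}
    (h : RigAt K0 T6 ν ε a b co so η κ) (hη : η' ≤ η) (hκ : κ ≤ κ') :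
    RigAt K0 T6 ν ε a b co so η' κ' := by
  intro t c s o q hu hc hb ha h0 h5 i j
  exact le_trans (h t c s o q hu hc hb (fun i => by have := ha i; linarith) h0 h5 i j) hκ

/-- **Two levels, one offset.** -/
theorem rigid_two {K0 : Set V} {T6 : ℝ} (h : C2305b.Rig.Rigid3 K0 T6) :
    ∃ R : ℝ, 0 ≤ R ∧ ∀ κ1 : ℝ, 0 < κ1 → ∃ η1 : ℝ, 0 < η1 ∧ ∀ κ2 : ℝ, 0 < κ2 →
      ∃ η2 : ℝ, 0 < η2 ∧ ∃ ν0 : ℝ, 0 < ν0 ∧ ∃ ε0 : ℝ, 0 < ε0 ∧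
      ∀ ν : ℝ, 0 < ν → ν ≤ ν0 → ∀ ε : ℝ, 0 ≤ ε → ε ≤ ε0 → ∀ a b : ℝ, a ^ 2 + b ^ 2 = 1 →
      ∃ co so : ℝ, co ^ 2 + ν * so ^ 2 = 1 ∧ 0 < co ∧ |so| ≤ R ∧
        RigAt K0 T6 ν ε a b co so η1 κ1 ∧ RigAt K0 T6 ν ε a b co so η2 κ2 := by
  obtain ⟨R, hR, h⟩ := rigid3T_of_rigid3 h
  refine ⟨R, hR, fun κ1 hκ1 => ?_⟩
  obtain ⟨η1, hη1, h⟩ := h κ1 hκ1
  refine ⟨η1, hη1, fun κ2 hκ2 => ?_⟩
  obtain ⟨η2, hη2, ν0, hν0, ε0, hε0, h⟩ := h κ2 hκ2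
  refine ⟨η2, hη2, ν0, hν0, ε0, hε0, fun ν hν hνle ε hε hεle a b hab => ?_⟩
  obtain ⟨co, so, hu, hco, hso, H⟩ := h ν hν hνle ε hε hεle a b hab
  refine ⟨co, so, hu, hco, hso, ?_, ?_⟩
  · intro t c s o q hu hc hb ha h0 h5
    exact (H t c s o q hu hc hb h0 h5).1 ha
  · intro t c s o q hu hc hb ha h0 h5
    exact (H t c s o q hu hc hb h0 h5).2 ha

end W82
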