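import Pool.Agent.W_c2305b_h68.Lab2

/-!
# Unique maximal hexagon: `UniqHex K0 H t6` implies `RigidLim K0 t6` and `StrictMax K0 t6`
-/

namespace C2305bH68.Lab

open C2305b.Rig

theorem pl_ext {u v : Pl} (h0 : u 0 = v 0) (h1 : u 1 = v 1) : u = v := by
  ext k
  fin_cases k
  · exact h0
  · exact h1

theorem eq_zero_of_neg {v : Pl} (h : v = -v) : v = 0 := by
  have h0 := congrArg (fun v : Pl => v 0) h
  have h1 := congrArg (fun v : Pl => v 1) h
  simp only [PiLp.neg_apply] at h0 h1
  refine pl_ext ?_ ?_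
  · simp; linarith
  · simp; linarith

theorem am_zero (ν c s : ℝ) (v : Pl) : (Am ν c s v) 0 = c * v 0 - ν * s * v 1 := by simp [Am]
theorem am_one (ν c s : ℝ) (v : Pl) : (Am ν c s v) 1 = s * v 0 + c * v 1 := by simp [Am]

theorem jt_zero (t : Bool) (v : Pl) : (Jt t v) 0 = v 0 := by cases t <;> simp [Jt]
theorem jt_one (t : Bool) (v : Pl) : (Jt t v) 1 = tau t * v 1 := by cases t <;> simp [Jt, tau]

theorem jt_jt (t : Bool) (v : Pl) : Jt t (Jt t v) = v := by
  cases t
  · rfl
  · exact pl_ext (by simp [Jt]) (by simp [Jt])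

theorem rot_inv {a b : ℝ} (h : a ^ 2 + b ^ 2 = 1) (v : Pl) : Am 1 a b (Am 1 a (-b) v) = v := by
  refine pl_ext ?_ ?_
  · rw [am_zero, am_zero, am_one]; linear_combination (v 0) * h
  · rw [am_one, am_zero, am_one]; linear_combination (v 1) * h

theorem cr_rot {a b : ℝ} (h : a ^ 2 + b ^ 2 = 1) (u v : Pl) :
    cr (Am 1 a b u) (Am 1 a b v) = cr u v := by
  unfold cr
  rw [am_zero, am_one, am_zero, am_one]
  linear_combination (u 0 * v 1 - u 1 * v 0) * h

theorem cr_rot' {a b : ℝ} (h : a ^ 2 + b ^ 2 = 1) (u v : Pl) :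
    cr (Am 1 a (-b) u) (Am 1 a (-b) v) = cr u v := by
  apply cr_rot
  rw [neg_sq]; exact h

theorem am_sub (ν c s : ℝ) (u v : Pl) : Am ν c s (u - v) = Am ν c s u - Am ν c s v := by
  refine pl_ext ?_ ?_
  · rw [am_zero]; simp [am_zero]; ring
  · rw [am_one]; simp [am_one]; ring

theorem jt_sub (t : Bool) (u v : Pl) : Jt t (u - v) = Jt t u - Jt t v := by
  refine pl_ext ?_ ?_
  · rw [jt_zero]; simp [jt_zero]
  · rw [jt_one]; simp [jt_one]; ring

theorem cr_jt (u v : Pl) : cr (Jt true u) (Jt true v) = - cr u v := by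
  unfold cr
  rw [jt_zero, jt_one, jt_zero, jt_one]
  simp only [tau]
  simp
  ring

theorem cr_neg_neg (u v : Pl) : cr (-u) (-v) = cr u v := by
  unfold cr; simp

/-- invariance of `Conv6` and `ar6` under maps which preserve `cr` of differences -/
theorem conv6_of {p q : Fin 6 → Pl} (hq : Conv6 q)
    (h : ∀ i j k, cr (p j - p i) (p k - p i) = cr (q j - q i) (q k - q i)) : Conv6 p := by
  intro i j k hij hjk
  rw [h]
  exact hq i j k hij hjk

section Hex

variable {K0 : Set Pl} {H : Fin 6 → Pl} {t6 : ℝ} (U : UniqHex K0 H t6)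

include U

theorem edge_ne (k : Fin 6) : edge H k ≠ 0 := by
  intro h0
  have h1 := U.strict k
  rw [h0] at h1
  simp [cr] at h1

/-- central symmetry of the maximal sextuple -/
theorem sym3 : ∀ k, H (k + 3) = - H k := by
  obtain ⟨j, hj⟩ := U.uniq (fun k => - H k)
    (conv6_of U.conv fun i j k => by
      have e1 : (-H j - -H i) = -(H j - H i) := by abel
      have e2 : (-H k - -H i) = -(H k - H i) := by abel
      rw [e1, e2, cr_neg_neg])
    (fun k => U.sym _ (U.mem k))
    (by
      rw [← U.area]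
      unfold ar6
      congr 1
      exact Finset.sum_congr rfl fun k _ => cr_neg_neg _ _)
  have hj' : ∀ k, H (k + j) = - H k := fun k => (hj k).symm
  have e0 := edge_ne U 0
  have s0 := U.strict 0
  fin_cases j
  · exfalso
    apply e0
    have h0 : H 0 = - H 0 := hj' 0
    have h1 : H 1 = - H 1 := hj' 1
    have z0 : H 0 = 0 := eq_zero_of_neg h0
    have z1 : H 1 = 0 := eq_zero_of_neg h1
    change H 1 - H 0 = 0
    rw [z0, z1, sub_zero]
  · exfalso
    have h0 : H 1 = - H 0 := hj' 0
    have h1 : H 2 = - H 1 := hj' 1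
    have s0' : 0 < cr (H 1 - H 0) (H 2 - H 1) := s0
    rw [h1, h0] at s0'
    unfold cr at s0'
    simp at s0'
    linarith
  · exfalso
    have h0 : H 2 = - H 0 := hj' 0
    have h2 : H 4 = - H 2 := hj' 2
    have h4 : H 0 = - H 4 := hj' 4
    have h1 : H 3 = - H 1 := hj' 1
    have h3 : H 5 = - H 3 := hj' 3
    have h5 : H 1 = - H 5 := hj' 5
    have z0 : H 0 = 0 := by
      rw [h2, h0] at h4
      exact eq_zero_of_neg (by simpa using h4)
    have z1 : H 1 = 0 := by
      rw [h3, h1] at h5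
      exact eq_zero_of_neg (by simpa using h5)
    apply e0
    change H 1 - H 0 = 0
    rw [z0, z1, sub_zero]
  · exact hj'
  · exfalso
    have h0 : H 4 = - H 0 := hj' 0
    have h4 : H 2 = - H 4 := hj' 4
    have h2 : H 0 = - H 2 := hj' 2
    have h1 : H 5 = - H 1 := hj' 1
    have h5 : H 3 = - H 5 := hj' 5
    have h3 : H 1 = - H 3 := hj' 3
    have z0 : H 0 = 0 := by
      rw [h4, h0] at h2
      exact eq_zero_of_neg (by simpa using h2)
    have z1 : H 1 = 0 := by
      rw [h5, h1] at h3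
      exact eq_zero_of_neg (by simpa using h3)
    apply e0
    change H 1 - H 0 = 0
    rw [z0, z1, sub_zero]
  · exfalso
    have h0 : H 0 = - H 1 := hj' 1
    have h1 : H 1 = - H 2 := hj' 2
    have s0' : 0 < cr (H 1 - H 0) (H 2 - H 1) := s0
    rw [h0, h1] at s0'
    unfold cr at s0'
    simp at s0'
    linarith

theorem edge3 (k : Fin 6) : edge H (k + 3) = - edge H k := by
  unfold edge
  have h1 : H (k + 3 + 1) = - H (k + 1) := by
    rw [add_right_comm k 3 1]; exact sym3 U (k + 1)
  rw [h1, sym3 U k]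
  abel

/-- the three vectors -/
noncomputable def gv (H : Fin 6 → Pl) (a b : ℝ) : Fin 3 → Pl :=
  ![Am 1 a b (edge H 0), Am 1 a b (edge H 2), Am 1 a b (edge H 4)]

theorem cr_edges : 0 < cr (edge H 0) (edge H 1) ∧ 0 < cr (edge H 1) (edge H 2) ∧
    0 < cr (edge H 0) (edge H 2) := by
  refine ⟨U.strict 0, U.strict 1, ?_⟩
  have h1 : 0 < cr (edge H 2) (edge H 3) := U.strict 2
  have h2 : edge H 3 = - edge H 0 := edge3 U 0
  rw [h2] at h1
  unfold cr at h1 ⊢
  simp at h1
  linarith

/-- lower bound for the cross products -/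
noncomputable def dl (H : Fin 6 → Pl) : ℝ :=
  min (cr (edge H 0) (edge H 1)) (min (cr (edge H 1) (edge H 2)) (cr (edge H 0) (edge H 2)))

theorem dl_pos : 0 < dl H := by
  obtain ⟨h1, h2, h3⟩ := cr_edges U
  exact lt_min h1 (lt_min h2 h3)

theorem dl_le {a b : ℝ} (hab : a ^ 2 + b ^ 2 = 1) (m : Fin 3) :
    dl H ≤ cr (gv H a b m) (gv H a b (m + 1)) := by
  have e4 : edge H 4 = - edge H 1 := edge3 U 1
  fin_cases m
  · change dl H ≤ cr (Am 1 a b (edge H 0)) (Am 1 a b (edge H 2))
    rw [cr_rot hab]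
    exact (min_le_right _ _).trans (min_le_right _ _)
  · change dl H ≤ cr (Am 1 a b (edge H 2)) (Am 1 a b (edge H 4))
    rw [cr_rot hab, e4]
    have : cr (edge H 2) (-edge H 1) = cr (edge H 1) (edge H 2) := by unfold cr; simp; ring
    rw [this]
    exact (min_le_right _ _).trans (min_le_left _ _)
  · change dl H ≤ cr (Am 1 a b (edge H 4)) (Am 1 a b (edge H 0))
    rw [cr_rot hab, e4]
    have : cr (-edge H 1) (edge H 0) = cr (edge H 0) (edge H 1) := by unfold cr; simp; ring
    rw [this]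
    exact min_le_left _ _

/-- not all three abscissae are equal up to sign -/
theorem not_all {a b : ℝ} (hab : a ^ 2 + b ^ 2 = 1) :
    ¬ (|gv H a b 0 0| = |gv H a b 1 0| ∧ |gv H a b 1 0| = |gv H a b 2 0|) := by
  rintro ⟨h1, h2⟩
  -- three consecutive edges with equal abscissa are impossible
  have key : ∀ k : Fin 6, (Am 1 a b (edge H k)) 0 = (Am 1 a b (edge H (k + 1))) 0 →
      (Am 1 a b (edge H (k + 1))) 0 = (Am 1 a b (edge H (k + 2))) 0 → False := by
    intro k q1 q2
    apply U.nce k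
    rw [← cr_rot hab, am_sub, am_sub]
    unfold cr
    simp only [PiLp.sub_apply]
    rw [← q2, ← q1]
    ring
  have e3 : edge H 3 = - edge H 0 := edge3 U 0
  have e4 : edge H 4 = - edge H 1 := edge3 U 1
  have e5 : edge H 5 = - edge H 2 := edge3 U 2
  have am_neg : ∀ v : Pl, (Am 1 a b (-v)) 0 = - (Am 1 a b v) 0 := by
    intro v; rw [am_zero, am_zero]; simp; ring
  have g0 : gv H a b 0 0 = (Am 1 a b (edge H 0)) 0 := rfl
  have g1 : gv H a b 1 0 = (Am 1 a b (edge H 2)) 0 := rfl
  have g2 : gv H a b 2 0 = - (Am 1 a b (edge H 1)) 0 := by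
    change (Am 1 a b (edge H 4)) 0 = _
    rw [e4, am_neg]
  set X0 := (Am 1 a b (edge H 0)) 0 with hX0
  set X1 := (Am 1 a b (edge H 1)) 0 with hX1
  set X2 := (Am 1 a b (edge H 2)) 0 with hX2
  have x3 : (Am 1 a b (edge H 3)) 0 = - X0 := by rw [e3, am_neg]
  have x4 : (Am 1 a b (edge H 4)) 0 = - X1 := by rw [e4, am_neg]
  have x5 : (Am 1 a b (edge H 5)) 0 = - X2 := by rw [e5, am_neg]
  rw [g0, g1] at h1
  rw [g1, g2, abs_neg] at h2
  -- the relation
  have hcr : 0 < cr (gv H a b 0) (gv H a b 1) := (dl_pos U).trans_le (dl_le U hab 0)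
  have hcr1 : 0 < cr (gv H a b 1) (gv H a b 2) := (dl_pos U).trans_le (dl_le U hab 1)
  have hcr2 : 0 < cr (gv H a b 2) (gv H a b 0) := (dl_pos U).trans_le (dl_le U hab 2)
  have hrel : cr (gv H a b 1) (gv H a b 2) * gv H a b 0 0
      + cr (gv H a b 2) (gv H a b 0) * gv H a b 1 0
      + cr (gv H a b 0) (gv H a b 1) * gv H a b 2 0 = 0 := by
    unfold cr; ring
  have hne : X0 ≠ 0 := by
    intro h0
    rw [h0, abs_zero] at h1
    have : X2 = 0 := abs_eq_zero.1 h1.symm
    unfold cr at hcr
    rw [g0, g1, h0, this] at hcr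
    simp at hcr
  rw [g0, g1, g2] at hrel
  rcases abs_eq_abs.1 h1 with p1 | p1 <;> rcases abs_eq_abs.1 h2 with p2 | p2
  · -- X0 = X2 = X1
    exact key 0 (by change X0 = X1; linarith) (by change X1 = X2; linarith)
  · -- X0 = X2 = -X1 : all of the same sign, contradicts the relation
    exfalso
    have q : (cr (gv H a b 1) (gv H a b 2) + cr (gv H a b 2) (gv H a b 0)
      + cr (gv H a b 0) (gv H a b 1)) * X0 = 0 := by
      rw [← p1] at hrel p2
      have : X1 = - X0 := by linarith
      rw [this] at hrel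
      linarith
    rcases mul_eq_zero.1 q with q1 | q1
    · linarith
    · exact hne q1
  · -- X0 = -X2, X2 = X1: edges 1, 2, 3
    refine key 1 ?_ ?_
    · change X1 = X2; linarith
    · change X2 = (Am 1 a b (edge H 3)) 0
      rw [x3]; linarith
  · -- X0 = -X2, X2 = -X1: X1 = X0; edges 5, 0, 1
    refine key 5 ?_ ?_
    · change (Am 1 a b (edge H 5)) 0 = X0
      rw [x5]; linarith
    · change X0 = X1; linarith

/-- even and odd edges in terms of `gv` -/
theorem edge_even {a b : ℝ} (j : Fin 6) :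
    ∃ (e : Bool) (m : Fin 3), Am 1 a b (edge H j) = sgR e • gv H a b m ∧
      Am 1 a b (edge H (j + 2)) = sgR e • gv H a b (m + 1) := by
  have am_neg : ∀ v : Pl, Am 1 a b (-v) = - Am 1 a b v := by
    intro v
    refine pl_ext ?_ ?_
    · simp [am_zero]; ring
    · simp [am_one]; ring
  have hneg : ∀ k : Fin 6, Am 1 a b (edge H (k + 3)) = - Am 1 a b (edge H k) := by
    intro k; rw [edge3 U k, am_neg]
  have st : sgR true = -1 := by simp [sgR, sg]
  have sf : sgR false = 1 := by simp [sgR, sg]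
  fin_cases j
  · exact ⟨false, 0, by rw [sf, one_smul]; rfl, by rw [sf, one_smul]; rfl⟩
  · refine ⟨true, 2, ?_, ?_⟩
    · rw [st, neg_one_smul]; exact (neg_eq_iff_eq_neg.2 (hneg 1)).symm.trans (by rfl)
    · rw [st, neg_one_smul]; exact hneg 0
  · exact ⟨false, 1, by rw [sf, one_smul]; rfl, by rw [sf, one_smul]; rfl⟩
  · refine ⟨true, 0, ?_, ?_⟩
    · rw [st, neg_one_smul]; exact hneg 0
    · rw [st, neg_one_smul]; exact hneg 2
  · exact ⟨false, 2, by rw [sf, one_smul]; rfl, by rw [sf, one_smul]; rfl⟩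
  · refine ⟨true, 1, ?_, ?_⟩
    · rw [st, neg_one_smul]; exact hneg 2
    · rw [st, neg_one_smul]; exact hneg 4

/-- a maximal sextuple in the local body is a corner cell -/
theorem cell_of {a b : ℝ} (hab : a ^ 2 + b ^ 2 = 1) (t : Bool) (q : Fin 6 → Pl)
    (hq : Conv6 q) (hin : ∀ k, InBody K0 a b t (q k)) (har : ar6 q = t6) :
    ∃ eb m, Cell (gv H a b) t eb m (q 1 - q 0) (q 5 - q 0) := by
  cases t
  · -- direct copy
    obtain ⟨j, hj⟩ := U.uniq (fun k => Am 1 a (-b) (q k))
      (conv6_of hq fun i j k => by rw [← am_sub, ← am_sub, cr_rot' hab])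
      (fun k => hin k)
      (by
        rw [← har]
        unfold ar6
        congr 1
        exact Finset.sum_congr rfl fun k _ => cr_rot' hab _ _)
    have hq' : ∀ k, q k = Am 1 a b (H (k + j)) := by
      intro k
      rw [← hj k]
      exact (rot_inv hab (q k)).symm
    obtain ⟨e, m, h1, h2⟩ := edge_even U (a := a) (b := b) j
    have hu : q 1 - q 0 = sgR e • gv H a b m := by
      rw [← h1, hq' 1, hq' 0, ← am_sub]
      unfold edge
      rw [zero_add, add_comm 1 j]
    have hw : q 5 - q 0 = sgR e • gv H a b (m + 1) := by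
      rw [← h2, hq' 5, hq' 0, ← am_sub]
      congr 1
      have h3 := edge3 U (j + 5)
      have h4 : j + 5 + 3 = j + 2 := by
        have : (5 : Fin 6) + 3 = 2 := by decide
        rw [add_assoc, this]
      rw [h4] at h3
      rw [h3]
      unfold edge
      have h5 : j + 5 + 1 = j := by
        have : (5 : Fin 6) + 1 = 0 := by decide
        rw [add_assoc, this, add_zero]
      rw [h5, zero_add, add_comm 5 j]
      abel
    refine ⟨e, m, ?_, ?_, ?_, ?_⟩
    · rw [hu]; simp [cu]
    · rw [hu]; simp [cu, tau]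
    · rw [hw]; simp [cw]
    · rw [hw]; simp [cw, tau]
  · -- mirrored copy
    let r : Fin 6 → Pl := fun k => Am 1 a (-b) (Jt true (q (-k)))
    have hr : ∀ i j k, cr (r j - r i) (r k - r i) = - cr (q (-j) - q (-i)) (q (-k) - q (-i)) := by
      intro i j k
      simp only [r]
      rw [← am_sub, ← am_sub, cr_rot' hab, ← jt_sub, ← jt_sub, cr_jt]
    have hconv : Conv6 r := by
      intro i j k hij hjk
      rw [hr]
      -- orientation of the reversed triple
      have cyc1 : ∀ A B C : Pl, - cr (B - A) (C - A) = cr (B - C) (A - C) := by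
        intro A B C; unfold cr; simp; ring
      have cyc2 : ∀ A B C : Pl, - cr (B - A) (C - A) = cr (C - A) (B - A) := by
        intro A B C; unfold cr; ring
      by_cases hi : i = 0
      · subst hi
        rw [cyc2]
        have h1 : (-0 : Fin 6) = 0 := rfl
        rw [h1]
        apply hq
        · revert hjk; revert k; revert hij; revert j; decide
        · revert hjk; revert k; revert hij; revert j; decide
      · rw [cyc1]
        apply hq
        · revert hjk; revert k; revert hij; revert j; revert hi; revert i; decide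
        · revert hjk; revert k; revert hij; revert j; revert hi; revert i; decide
    have harea : ar6 r = t6 := by
      rw [← har]
      unfold ar6
      congr 1
      have h1 : ∀ k, cr (r k) (r (k + 1)) = - cr (q (-k)) (q (-(k + 1))) := by
        intro k
        simp only [r]
        rw [cr_rot' hab, cr_jt]
      simp only [h1]
      rw [Fin.sum_univ_six, Fin.sum_univ_six]
      have n0 : (-0 : Fin 6) = 0 := rfl
      have n1 : (-(0 + 1) : Fin 6) = 5 := by decide
      have n2 : (-1 : Fin 6) = 5 := by decide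
      have n3 : (-(1 + 1) : Fin 6) = 4 := by decide
      have n4 : (-2 : Fin 6) = 4 := by decide
      have n5 : (-(2 + 1) : Fin 6) = 3 := by decide
      have n6 : (-3 : Fin 6) = 3 := by decide
      have n7 : (-(3 + 1) : Fin 6) = 2 := by decide
      have n8 : (-4 : Fin 6) = 2 := by decide
      have n9 : (-(4 + 1) : Fin 6) = 1 := by decide
      have n10 : (-5 : Fin 6) = 1 := by decide
      have n11 : (-(5 + 1) : Fin 6) = 0 := by decide
      rw [n0, n1, n2, n3, n4, n5, n6, n7, n8, n9, n10, n11]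
      have m1 : (0 + 1 : Fin 6) = 1 := rfl
      have m2 : (1 + 1 : Fin 6) = 2 := rfl
      have m3 : (2 + 1 : Fin 6) = 3 := rfl
      have m4 : (3 + 1 : Fin 6) = 4 := rfl
      have m5 : (4 + 1 : Fin 6) = 5 := rfl
      have m6 : (5 + 1 : Fin 6) = 0 := rfl
      rw [m1, m2, m3, m4, m5, m6]
      unfold cr
      ring
    obtain ⟨j, hj⟩ := U.uniq r hconv (fun k => hin (-k)) harea
    have hq' : ∀ k, q k = Jt true (Am 1 a b (H (-k + j))) := by
      intro k
      rw [← hj (-k)]
      simp only [r]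
      rw [neg_neg, rot_inv hab, jt_jt]
    obtain ⟨e, m, h1, h2⟩ := edge_even U (a := a) (b := b) j
    have hw : q 5 - q 0 = Jt true (sgR e • gv H a b m) := by
      rw [← h1, hq' 5, hq' 0, ← jt_sub, ← am_sub]
      unfold edge
      have n1 : (-5 : Fin 6) = 1 := by decide
      have n0 : (-0 : Fin 6) = 0 := rfl
      rw [n1, n0, zero_add, add_comm 1 j]
    have hu : q 1 - q 0 = Jt true (sgR e • gv H a b (m + 1)) := by
      rw [← h2, hq' 1, hq' 0, ← jt_sub, ← am_sub]
      congr 2
      have h3 := edge3 U (j + 5)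
      have h4 : j + 5 + 3 = j + 2 := by
        have : (5 : Fin 6) + 3 = 2 := by decide
        rw [add_assoc, this]
      rw [h4] at h3
      rw [h3]
      unfold edge
      have h5 : j + 5 + 1 = j := by
        have : (5 : Fin 6) + 1 = 0 := by decide
        rw [add_assoc, this, add_zero]
      have n1 : (-1 : Fin 6) = 5 := by decide
      have n0 : (-0 : Fin 6) = 0 := rfl
      rw [h5, n1, n0, zero_add, add_comm 5 j]
      abel
    refine ⟨e, m, ?_, ?_, ?_, ?_⟩
    · rw [hu, jt_zero]; simp [cu]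
    · rw [hu, jt_one]; simp [cu, tau]
    · rw [hw, jt_zero]; simp [cw]
    · rw [hw, jt_one]; simp [cw, tau]

end Hex

theorem strictMax_of_uniq {K0 : Set Pl} {H : Fin 6 → Pl} {t6 : ℝ} (U : UniqHex K0 H t6) :
    StrictMax K0 t6 := by
  intro a b t q hab hq hin har
  obtain ⟨eb, m, hc⟩ := cell_of U hab t q hq hin har
  rw [hc.cr_eq]
  exact (dl_pos U).trans_le (dl_le U hab m)

theorem rigidLim_of_uniq {K0 : Set Pl} {H : Fin 6 → Pl} {t6 : ℝ} (U : UniqHex K0 H t6) :
    RigidLim K0 t6 := by
  -- bound for the coordinates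
  let M : ℝ := (|edge H 0 0| + |edge H 0 1|) + (|edge H 2 0| + |edge H 2 1|)
    + (|edge H 4 0| + |edge H 4 1|)
  have hM : ∀ a b : ℝ, a ^ 2 + b ^ 2 = 1 → ∀ m, |gv H a b m 1| ≤ M := by
    intro a b hab m
    have ha : |a| ≤ 1 := abs_le_one_iff_mul_self_le_one.2 (by nlinarith [sq_nonneg b])
    have hb : |b| ≤ 1 := abs_le_one_iff_mul_self_le_one.2 (by nlinarith [sq_nonneg a])
    have h1 : ∀ v : Pl, |(Am 1 a b v) 1| ≤ |v 0| + |v 1| := by
      intro v
      rw [am_one]
      calc |b * v 0 + a * v 1| ≤ |b * v 0| + |a * v 1| := abs_add_le _ _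
        _ = |b| * |v 0| + |a| * |v 1| := by rw [abs_mul, abs_mul]
        _ ≤ |v 0| + |v 1| := by
          have := abs_nonneg (v 0)
          have := abs_nonneg (v 1)
          nlinarith
    have n0 := abs_nonneg (edge H 0 0)
    have n1 := abs_nonneg (edge H 0 1)
    have n2 := abs_nonneg (edge H 2 0)
    have n3 := abs_nonneg (edge H 2 1)
    have n4 := abs_nonneg (edge H 4 0)
    have n5 := abs_nonneg (edge H 4 1)
    fin_cases m
    · have := h1 (edge H 0)
      change |(Am 1 a b (edge H 0)) 1| ≤ M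
      simp only [M]; linarith
    · have := h1 (edge H 2)
      change |(Am 1 a b (edge H 2)) 1| ≤ M
      simp only [M]; linarith
    · have := h1 (edge H 4)
      change |(Am 1 a b (edge H 4)) 1| ≤ M
      simp only [M]; linarith
  have hδ := dl_pos U
  refine ⟨4 * M ^ 2 / dl H, by positivity, ?_⟩
  intro a b hab
  refine ⟨sig (gv H a b), abs_sig_le hδ (hM a b hab) (dl_le U hab), ?_⟩
  intro t e q hq hin har hs
  exact labels (fun m => hδ.trans_le (dl_le U hab m)) (not_all U hab) t e
    (fun i => q i 1 - q i 0) (fun i => q i 5 - q i 0)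
    (fun i => cell_of U hab (t i) (q i) (hq i) (hin i) (har i)) hs

end C2305bH68.Lab
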