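import Pool.Agent.W_c2305b_h68.Ord

/-!
# The shoelace formula

For corners `S` (at least three), `volume (convexHull S) = (1/2) sum_k cr (q k) (q (k+1))` in
counterclockwise order. Final statement: `exists_cyclic`.
-/

open MeasureTheory Set C2305b.TL

namespace C2305bH68.Ord

open C2305bH68.Tri

open Classical in
/-- the sides of the hull of `S` -/
noncomputable def edg (S : Finset V) : Finset (V × V) :=
  (S ×ˢ S).filter fun p => Nx S p.1 p.2

theorem mem_edg {S : Finset V} {p : V × V} : p ∈ edg S ↔ Nx S p.1 p.2 := by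
  classical
  unfold edg
  rw [Finset.mem_filter, Finset.mem_product]
  exact ⟨fun h => h.2, fun h => ⟨⟨h.1, h.2.1⟩, h⟩⟩

section Step

variable {S : Finset V} (h : Corners S) (h4 : 4 ≤ S.card) {a b c : V} (hab : Nx S a b)
  (hbc : Nx S b c)

include h h4 hab hbc

theorem step_ne : c ≠ a := by
  rintro rfl
  exact nx_no_two h (by omega) hab hbc

theorem step_pos : 0 < cr (b - a) (c - a) :=
  hab.pos h hbc.2.1 (step_ne h h4 hab hbc) hbc.2.2.1

theorem step_tri_subset : convexHull ℝ {a, b, c} ⊆ convexHull ℝ (S : Set V) := by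
  apply convexHull_mono
  rintro x hx
  simp only [mem_insert_iff, mem_singleton_iff] at hx
  rcases hx with rfl | rfl | rfl
  · exact hab.1
  · exact hab.2.1
  · exact hbc.2.1

theorem cr_flip (x : V) : cr (a - c) (x - c) = - cr (c - a) (x - a) := by
  simp [cr]; ring

theorem step_side {x : V} (hx : x ∈ S.erase b) : 0 ≤ cr (c - a) (x - a) := by
  have hxb : x ≠ b := (Finset.mem_erase.1 hx).1
  have hxS : x ∈ S := (Finset.mem_erase.1 hx).2
  by_contra hcon
  push Not at hcon
  have hxa : x ≠ a := by
    rintro rfl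
    rw [sub_self, cr_zero_right] at hcon
    exact lt_irrefl _ hcon
  have hxc : x ≠ c := by
    rintro rfl
    rw [cr_self] at hcon
    exact lt_irrefl _ hcon
  have hx1 : x ∈ convexHull ℝ {a, b, c} := by
    rw [mem_tri_iff (step_pos h h4 hab hbc)]
    refine ⟨(hab.pos h hxS hxa hxb).le, (hbc.pos h hxS hxb hxc).le, ?_⟩
    rw [cr_flip h h4 hab hbc]
    linarith
  apply h x hxS
  refine convexHull_mono ?_ hx1
  intro y hy
  simp only [mem_insert_iff, mem_singleton_iff] at hy
  rcases hy with rfl | rfl | rfl
  · exact ⟨hab.1, by simpa using hxa.symm⟩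
  · exact ⟨hab.2.1, by simpa using hxb.symm⟩
  · exact ⟨hbc.2.1, by simpa using hxc.symm⟩

theorem step_hull_side {x : V} (hx : x ∈ convexHull ℝ ((S.erase b : Finset V) : Set V)) :
    0 ≤ cr (c - a) (x - a) := by
  have : convexHull ℝ ((S.erase b : Finset V) : Set V) ⊆ {x | 0 ≤ cr (c - a) (x - a)} :=
    convexHull_min (fun y hy => step_side h h4 hab hbc hy) (Tiling.convex_cr _ _)
  exact this hx

theorem step_nx : Nx (S.erase b) a c :=
  ⟨Finset.mem_erase.2 ⟨hab.2.2.1.symm, hab.1⟩, Finset.mem_erase.2 ⟨hbc.2.2.1, hbc.2.1⟩,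
    step_ne h h4 hab hbc, fun _ hx => step_hull_side h h4 hab hbc hx⟩

theorem step_corners : Corners (S.erase b) := h.mono (Finset.erase_subset _ _)

theorem step_card : 3 ≤ (S.erase b).card := by
  rw [Finset.card_erase_of_mem hab.2.1]; omega

theorem step_other {v w : V} (hva : v ≠ a) (hvb : v ≠ b) (hvw : Nx S v w) :
    Nx (S.erase b) v w := by
  have hwb : w ≠ b := by
    rintro rfl
    exact hva (nx_prev_unique h (by omega) hab hvw)
  refine ⟨Finset.mem_erase.2 ⟨hvb, hvw.1⟩, Finset.mem_erase.2 ⟨hwb, hvw.2.1⟩, hvw.2.2.1, ?_⟩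
  intro x hx
  refine hvw.2.2.2 x (convexHull_mono ?_ hx)
  exact_mod_cast Finset.erase_subset b S

theorem step_other' {v w : V} (hva : v ≠ a) (hvw : Nx (S.erase b) v w) : Nx S v w := by
  have hv := Finset.mem_erase.1 hvw.1
  obtain ⟨w', hw'⟩ := exists_nx h (by omega) hv.2
  have h5 := step_other h h4 hab hbc hva hv.1 hw'
  have h6 := nx_unique (step_corners h h4 hab hbc) (step_card h h4 hab hbc) h5 hvw
  rw [h6]
  exact hw'

theorem step_union : convexHull ℝ (S : Set V) =
    convexHull ℝ ((S.erase b : Finset V) : Set V) ∪ convexHull ℝ {a, b, c} := by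
  apply Subset.antisymm
  · intro x hx
    rcases le_total 0 (cr (c - a) (x - a)) with h5 | h5
    · left
      rw [hull_eq (step_corners h h4 hab hbc) (step_card h h4 hab hbc)]
      intro v w hvw
      by_cases hva : v = a
      · subst hva
        have h6 := nx_unique (step_corners h h4 hab hbc) (step_card h h4 hab hbc)
          (step_nx h h4 hab hbc) hvw
        rw [h6]
        exact h5
      · exact (step_other' h h4 hab hbc hva hvw).2.2.2 x hx
    · right
      rw [mem_tri_iff (step_pos h h4 hab hbc)]
      refine ⟨hab.2.2.2 x hx, hbc.2.2.2 x hx, ?_⟩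
      rw [cr_flip h h4 hab hbc]
      linarith
  · refine union_subset (convexHull_mono ?_) (step_tri_subset h h4 hab hbc)
    exact_mod_cast Finset.erase_subset b S

theorem step_inter : volume (convexHull ℝ ((S.erase b : Finset V) : Set V) ∩
    convexHull ℝ {a, b, c}) = 0 := by
  refine measure_mono_null ?_ (null_line (sub_ne_zero.2 (step_ne h h4 hab hbc)) a)
  rintro x ⟨hx1, hx2⟩
  have h5 := step_hull_side h h4 hab hbc hx1
  rw [mem_tri_iff (step_pos h h4 hab hbc)] at hx2
  have h6 := hx2.2.2
  rw [cr_flip h h4 hab hbc] at h6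
  change cr (c - a) (x - a) = 0
  linarith

theorem step_volume : (volume (convexHull ℝ (S : Set V))).toReal =
    (volume (convexHull ℝ ((S.erase b : Finset V) : Set V))).toReal
      + cr (b - a) (c - a) / 2 := by
  have hfin : ({a, b, c} : Set V).Finite := by simp
  have hm : MeasurableSet (convexHull ℝ ({a, b, c} : Set V)) :=
    (Set.Finite.isCompact_convexHull (𝕜 := ℝ) hfin).isClosed.measurableSet
  have h5 := measure_union_add_inter (μ := (volume : Measure V))
    (convexHull ℝ ((S.erase b : Finset V) : Set V)) hm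
  rw [← step_union h h4 hab hbc, step_inter h h4 hab hbc, add_zero] at h5
  have h6 : volume (convexHull ℝ ((S.erase b : Finset V) : Set V)) ≠ ⊤ :=
    ((Set.Finite.isCompact_convexHull (𝕜 := ℝ)
      (S.erase b).finite_toSet).measure_lt_top).ne
  rw [h5, volume_tri (step_pos h h4 hab hbc), ENNReal.toReal_add h6 ENNReal.ofReal_ne_top,
    ENNReal.toReal_ofReal (by have := step_pos h h4 hab hbc; linarith)]

theorem step_edg : ∑ p ∈ edg S, cr p.1 p.2 =
    (∑ p ∈ edg (S.erase b), cr p.1 p.2) + cr (b - a) (c - a) := by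
  classical
  have hne1 : ((a, b) : V × V) ∉ insert ((b, c) : V × V) ((edg (S.erase b)).erase (a, c)) := by
    simp only [Finset.mem_insert, Finset.mem_erase, Prod.mk.injEq, mem_edg, not_or]
    refine ⟨fun hh => hab.2.2.1 hh.1.symm, fun hh => ?_⟩
    exact (Finset.mem_erase.1 hh.2.2.1).1 rfl
  have hne2 : ((b, c) : V × V) ∉ (edg (S.erase b)).erase (a, c) := by
    simp only [Finset.mem_erase, mem_edg]
    intro hh
    exact (Finset.mem_erase.1 hh.2.1).1 rfl
  have hEq : edg S = insert ((a, b) : V × V) (insert ((b, c) : V × V)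
      ((edg (S.erase b)).erase (a, c))) := by
    ext p
    simp only [Finset.mem_insert, Finset.mem_erase, mem_edg]
    constructor
    · intro hp
      by_cases hpa : p.1 = a
      · left
        have h5 : Nx S a p.2 := by rw [← hpa]; exact hp
        have h6 := nx_unique h (by omega) hab h5
        exact Prod.ext hpa h6
      · by_cases hpb : p.1 = b
        · right; left
          have h5 : Nx S b p.2 := by rw [← hpb]; exact hp
          exact Prod.ext hpb (nx_unique h (by omega) hbc h5)
        · right; right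
          refine ⟨fun hh => hpa (by rw [hh]), step_other h h4 hab hbc hpa hpb hp⟩
    · rintro (rfl | rfl | ⟨hp1, hp2⟩)
      · exact hab
      · exact hbc
      · have hpa : p.1 ≠ a := by
          intro hh
          apply hp1
          have h5 : Nx (S.erase b) a p.2 := by rw [← hh]; exact hp2
          exact Prod.ext hh (nx_unique (step_corners h h4 hab hbc) (step_card h h4 hab hbc)
            (step_nx h h4 hab hbc) h5)
        exact step_other' h h4 hab hbc hpa hp2
  rw [hEq, Finset.sum_insert hne1, Finset.sum_insert hne2]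
  have hac : ((a, c) : V × V) ∈ edg (S.erase b) := mem_edg.2 (step_nx h h4 hab hbc)
  rw [← Finset.sum_erase_add _ _ hac]
  simp only
  have : cr a b + cr b c = cr a c + cr (b - a) (c - a) := by simp [cr]; ring
  linarith

end Step

/-- SHOELACE FORMULA. -/
theorem shoelace : ∀ (n : ℕ) (S : Finset V), S.card = n + 3 → Corners S →
    (volume (convexHull ℝ (S : Set V))).toReal = (∑ p ∈ edg S, cr p.1 p.2) / 2 := by
  intro n
  induction n with
  | zero =>
    intro S hS h
    have h3 : 3 ≤ S.card := by omega
    obtain ⟨p, hp⟩ : S.Nonempty := Finset.card_pos.1 (by omega)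
    obtain ⟨b, hab⟩ := exists_nx h h3 hp
    obtain ⟨c, hbc⟩ := exists_nx h h3 hab.2.1
    obtain ⟨a', hca⟩ := exists_nx h h3 hbc.2.1
    have hcp : c ≠ p := by
      rintro rfl
      exact nx_no_two h h3 hab hbc
    have hSe : S = {p, b, c} := by
      symm
      apply Finset.eq_of_subset_of_card_le
      · intro x hx
        simp only [Finset.mem_insert, Finset.mem_singleton] at hx
        rcases hx with rfl | rfl | rfl
        · exact hp
        · exact hab.2.1
        · exact hbc.2.1
      · rw [Finset.card_eq_three.2 ⟨p, b, c, hab.2.2.1.symm, hcp.symm, hbc.2.2.1.symm, rfl⟩, hS]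
    have ha' : a' = p := by
      have h5 := hca.2.1
      rw [hSe] at h5
      simp only [Finset.mem_insert, Finset.mem_singleton] at h5
      rcases h5 with h5 | h5 | h5
      · exact h5
      · exfalso
        rw [h5] at hca
        exact nx_no_two h h3 hbc hca
      · exact absurd h5 hca.2.2.1
    rw [ha'] at hca
    have hedg : edg S = {((p, b) : V × V), (b, c), (c, p)} := by
      ext e
      simp only [mem_edg, Finset.mem_insert, Finset.mem_singleton]
      constructor
      · intro he
        have h5 := he.1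
        rw [hSe] at h5
        simp only [Finset.mem_insert, Finset.mem_singleton] at h5
        rcases h5 with h5 | h5 | h5
        · left
          have h6 : Nx S p e.2 := by rw [← h5]; exact he
          exact Prod.ext h5 (nx_unique h h3 hab h6)
        · right; left
          have h6 : Nx S b e.2 := by rw [← h5]; exact he
          exact Prod.ext h5 (nx_unique h h3 hbc h6)
        · right; right
          have h6 : Nx S c e.2 := by rw [← h5]; exact he
          exact Prod.ext h5 (nx_unique h h3 hca h6)
      · rintro (rfl | rfl | rfl)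
        · exact hab
        · exact hbc
        · exact hca
    have hpos : 0 < cr (b - p) (c - p) := hab.pos h hbc.2.1 hcp hbc.2.2.1
    have hset : (S : Set V) = {p, b, c} := by rw [hSe]; simp
    rw [hset, volume_tri hpos, ENNReal.toReal_ofReal (by linarith), hedg,
      Finset.sum_insert, Finset.sum_insert, Finset.sum_singleton]
    · simp [cr]; ring
    · simp only [Finset.mem_singleton, Prod.mk.injEq, not_and]
      intro hh
      exact absurd hh hbc.2.2.1.symm
    · simp only [Finset.mem_insert, Finset.mem_singleton, Prod.mk.injEq, not_or, not_and]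
      exact ⟨fun hh => absurd hh hab.2.2.1.symm, fun hh => absurd hh hcp.symm⟩
  | succ n ih =>
    intro S hS h
    have h3 : 3 ≤ S.card := by omega
    have h4 : 4 ≤ S.card := by omega
    obtain ⟨a, ha⟩ : S.Nonempty := Finset.card_pos.1 (by omega)
    obtain ⟨b, hab⟩ := exists_nx h h3 ha
    obtain ⟨c, hbc⟩ := exists_nx h h3 hab.2.1
    rw [step_volume h h4 hab hbc, step_edg h h4 hab hbc,
      ih (S.erase b) (by rw [Finset.card_erase_of_mem hab.2.1]; omega)
        (step_corners h h4 hab hbc)]
    ring

/-- [ORD]: cyclic order of the corners and area. -/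
theorem exists_cyclic {S : Finset V} (h : Corners S) {m : ℕ} [NeZero m] (hm : S.card = m)
    (h3 : 3 ≤ m) {p : V} (hp : p ∈ S) :
    ∃ q : ZMod m → V, q 0 = p ∧ Function.Injective q ∧ range q = (S : Set V) ∧
      (∀ k, ∀ x ∈ convexHull ℝ (S : Set V), 0 ≤ cr (q (k + 1) - q k) (x - q k)) ∧
      (∀ k, ∀ x ∈ S, x ≠ q k → x ≠ q (k + 1) → 0 < cr (q (k + 1) - q k) (x - q k)) ∧
      (volume (convexHull ℝ (S : Set V))).toReal = (∑ k, cr (q k) (q (k + 1))) / 2 := by
  obtain ⟨q, h0, hinj, hran, hnx⟩ := exists_cyclic_aux h hm h3 hp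
  refine ⟨q, h0, hinj, hran, fun k x hx => (hnx k).2.2.2 x hx,
    fun k x hx hx1 hx2 => (hnx k).pos h hx hx1 hx2, ?_⟩
  obtain ⟨n, hn⟩ : ∃ n, S.card = n + 3 := ⟨m - 3, by omega⟩
  rw [shoelace n S hn h]
  congr 1
  symm
  refine Finset.sum_bij (fun k _ => ((q k, q (k + 1)) : V × V)) ?_ ?_ ?_ ?_
  · intro k _
    exact mem_edg.2 (hnx k)
  · intro k _ l _ hkl
    exact hinj (congrArg Prod.fst hkl)
  · intro e he
    have h5 := mem_edg.1 he
    have h6 : e.1 ∈ range q := by rw [hran]; exact h5.1
    obtain ⟨k, hk⟩ := h6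
    refine ⟨k, Finset.mem_univ k, ?_⟩
    have h7 : Nx S (q k) e.2 := by rw [hk]; exact h5
    exact Prod.ext hk (nx_unique h (by omega) h7 (hnx k))
  · intro k _
    rfl

/-- [ORD] for hexagons. -/
theorem exists_cyclic_six {S : Finset V} (h : Corners S) (hm : S.card = 6) {p : V} (hp : p ∈ S) :
    ∃ q : ZMod 6 → V, q 0 = p ∧ Function.Injective q ∧ range q = (S : Set V) ∧
      (∀ k, ∀ x ∈ convexHull ℝ (S : Set V), 0 ≤ cr (q (k + 1) - q k) (x - q k)) ∧
      (∀ k, ∀ x ∈ S, x ≠ q k → x ≠ q (k + 1) → 0 < cr (q (k + 1) - q k) (x - q k)) ∧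
      (volume (convexHull ℝ (S : Set V))).toReal = (∑ k, cr (q k) (q (k + 1))) / 2 :=
  exists_cyclic h hm (by norm_num) hp

end C2305bH68.Ord
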