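import Pool.Agent.W_c2305b_h68.Exact
import Pool.Agent.W_c2305b_h73.Hang3
import Pool.Agent.W_c2305b_h86.Defs

/-!
# G2 and G3 of row 552 (MP_c2305b_co)
-/

namespace C2305bH68.Hang

open C2305b.Rig

/-- (4b) of row 552: the exact statement for a body with symmetric maximal hexagons. -/
theorem exact4 {K0 : Set Pl} {t6 : ℝ} (hconv : Convex ℝ K0) (hK : ∀ v ∈ K0, -v ∈ K0)
    (hle : LeMax K0 t6) (hst : StrictMax K0 t6) (hs : Sym6 K0 t6) : H73.Exact4 K0 t6 := by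
  intro a b hab t e q hc hq ha h1 h2 h3 h4 h5 v1 v2
  rw [exact_four hconv hK hle hst hs hab t e q hc hq ha h1 h2 h3 h4 h5 v1 v2]
  exact C2305bH68.Sym.cr_self _

/-- The two forms of `RegAt` agree. -/
theorem regAtG {K0 : Set Pl} {t6 ν ε a b η om c1 κ : ℝ}
    (h : H73.RegAt K0 t6 ν ε a b η om c1 κ) : C2305bG.RegAt K0 t6 ν ε a b η om c1 κ := by
  intro t c s o q hcs hc hb ha X hX e1 e2 e3 e4 e5 e6 e7 e8 v1 v2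
  have hX' : ∀ i k, X i k = Pos ν 1 0 (t i) (c i) (s i) (o i) (q i k) := hX
  have E1 : X 0 0 = X 1 0 := e1
  have E2 : X 0 0 = X 2 0 := e2
  have E3 : X 0 1 = X 1 5 := e3
  have E4 : X 0 5 = X 2 1 := e4
  have E5 : X 1 1 = X 2 5 := e5
  have E6 : X 1 1 = X 3 0 := e6
  have E7 : X 1 2 = X 3 5 := e7
  have E8 : X 2 4 = X 3 1 := e8
  rw [hX', hX'] at E1 E2 E3 E4 E5 E6 E7 E8
  have := h t c s o q hcs hc hb ha E1 E2 E3 E4 E5 E6 E7 E8 v1 v2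
  show |cr (X 0 0 - X 0 4) (X 1 2 - X 1 0)| ≤ κ
  rw [hX', hX', hX', hX']
  exact this

/-- G2 + G3: regularity of the midlines across a nearly vertical edge. -/
theorem reg_at {K0 : Set Pl} {t6 : ℝ} (hcomp : IsCompact K0) (hconv : Convex ℝ K0)
    (hK : ∀ v ∈ K0, -v ∈ K0) (hle : LeMax K0 t6) (hst : StrictMax K0 t6) (hs : Sym6 K0 t6) {κ : ℝ}
    (hκ : 0 < κ) : ∃ c1 : ℝ, 0 < c1 ∧ c1 ≤ 1 ∧ ∃ om : ℝ, 0 < om ∧ ∃ η : ℝ, 0 < η ∧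
      ∃ ν0 : ℝ, 0 < ν0 ∧ ∃ ε0 : ℝ, 0 < ε0 ∧ ∀ ν : ℝ, 0 < ν → ν ≤ ν0 → ∀ ε : ℝ, 0 ≤ ε → ε ≤ ε0 →
      ∀ a b : ℝ, a ^ 2 + b ^ 2 = 1 → C2305bG.RegAt K0 t6 ν ε a b η om c1 κ := by
  obtain ⟨c1, h1, h2, om, h3, η, h4, ν0, h5, ε0, h6, h⟩ :=
    H73.reg_at hcomp hK hst hle (exact4 hconv hK hle hst hs) hκ
  exact ⟨c1, h1, h2, om, h3, η, h4, ν0, h5, ε0, h6, fun ν hν hν' ε hε hε' a b hab =>
    regAtG (h ν hν hν' ε hε hε' a b hab)⟩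

end C2305bH68.Hang
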