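import Pool.Agent.W_c2305b_h68.Cyc

/-!
# ORD': cyclic order of the vertices of a tile, natural number version with orientation
-/

open MeasureTheory Set C2305b.TL

namespace C2305bH68.Cyc

variable {ι : Type*} (T : Tiling ι)

/-- a tile has at least three vertices -/
theorem three_le_card (i : ι) : 3 ≤ (T.verts i).card := by
  classical
  have hne : (T.verts i).Nonempty := by
    obtain ⟨o, ho⟩ := T.nonem i
    by_contra h
    rw [Finset.not_nonempty_iff_eq_empty] at h
    have h1 : (T.W : Set V) ∩ T.P i = ∅ := by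
      ext z
      simp only [mem_inter_iff, mem_empty_iff_false, iff_false]
      rintro ⟨h2, h3⟩
      have h4 : z ∈ T.verts i := T.mem_verts.2 ⟨h2, h3⟩
      rw [h] at h4
      simp at h4
    have h2 := T.hull i
    rw [h1, convexHull_empty] at h2
    rw [h2] at ho
    simp at ho
  obtain ⟨a, ha, b, hb, c, hc, habc⟩ := exists_noncollinear T i hne (fun v hv => hv)
    (fun v _ w hw => T.mem_verts.2 hw.2.1) (fun w _ v hv => T.mem_verts.2 hv.1)
  have hab : a ≠ b := by
    rintro rfl
    apply habc
    rw [sub_self, cr_zero_left]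
  have hac : a ≠ c := by
    rintro rfl
    apply habc
    rw [sub_self, cr_zero_right]
  have hbc : b ≠ c := by
    rintro rfl
    apply habc
    rw [cr_self]
  have : 2 < (T.verts i).card := Finset.two_lt_card_iff.2 ⟨a, b, c, ha, hb, hc, hab, hac, hbc⟩
  omega

/-- ORD'. -/
theorem exists_nat_cycle (i : ι) {v : V} (hv : v ∈ T.verts i) :
    ∃ q : ℕ → V, q 0 = v ∧ (∀ k, T.E i (q k) (q (k + 1))) ∧
      (∀ k, q (k + (T.verts i).card) = q k) ∧
      (∀ z ∈ T.verts i, ∃ k < (T.verts i).card, q k = z) ∧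
      (∀ j k, j < (T.verts i).card → k < (T.verts i).card → q j = q k → j = k) ∧
      (∀ j k, q j = q k ↔ j ≡ k [MOD (T.verts i).card]) ∧
      (∀ a j k, a < j → j < k → k < a + (T.verts i).card →
        0 ≤ cr (q j - q a) (q k - q a)) := by
  classical
  obtain ⟨σ, hσ⟩ := exists_perm T i
  have hc := perm_cycle T i hσ
  have hcard : (Finset.univ : Finset {v // v ∈ T.verts i}).card = (T.verts i).card := by
    rw [Finset.card_univ, Fintype.card_coe]
  set b := (T.verts i).card with hb
  let f : ℕ → V := fun n => ((σ ^ n) ⟨v, hv⟩).1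
  have hf : ∀ a c : ℕ, f a = f c ↔ a ≡ c [MOD b] := by
    intro a c
    have h4 := hc.pow_apply_eq_pow_apply (m := a) (n := c) (Finset.mem_univ ⟨v, hv⟩)
    rw [hcard] at h4
    rw [← h4]
    exact ⟨fun h5 => Subtype.ext h5, fun h5 => congrArg Subtype.val h5⟩
  have hE : ∀ n, T.E i (f n) (f (n + 1)) := by
    intro n
    have h4 := hσ ((σ ^ n) ⟨v, hv⟩)
    rw [← Equiv.Perm.mul_apply, ← pow_succ'] at h4
    exact h4
  refine ⟨f, by simp [f], hE, ?_, ?_, ?_, hf, ?_⟩
  · intro k
    rw [hf]
    exact Nat.add_modEq_right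
  · intro z hz
    obtain ⟨n, hn, hn'⟩ := hc.exists_pow_eq (Finset.mem_univ ⟨v, hv⟩)
      (Finset.mem_univ (⟨z, hz⟩ : {v // v ∈ T.verts i}))
    rw [hcard] at hn
    exact ⟨n, hn, congrArg Subtype.val hn'⟩
  · intro j k hj hk hjk
    have h5 := (hf j k).1 hjk
    unfold Nat.ModEq at h5
    rwa [Nat.mod_eq_of_lt hj, Nat.mod_eq_of_lt hk] at h5
  · intro a j k haj hjk hk
    have hver : ∀ n, f n ∈ T.W ∧ f n ∈ T.P i := fun n => (hE n).1
    have key := C2305b.Rig.O74.order_seq (fun c => f (a + c) - f a) (b - 1) ?_ ?_ ?_ ?_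
      (j - a) (k - a) (by omega) (by omega) (by omega)
    · have e1 : a + (j - a) = j := by omega
      have e2 : a + (k - a) = k := by omega
      simp only [e1, e2] at key
      exact key
    · intro c hc1 hc2 h0
      have h5 : f (a + c) = f a := sub_eq_zero.1 h0
      rw [hf] at h5
      have h6 : (a + c) ≡ a + 0 [MOD b] := by simpa using h5
      have h7 := Nat.ModEq.add_left_cancel' a h6
      unfold Nat.ModEq at h7
      rw [Nat.mod_eq_of_lt (by omega), Nat.zero_mod] at h7
      omega
    · intro c _ _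
      exact (hE a).2.2.2.1 (f (a + c)) (hver _).2
    · intro c _ _
      have h2 := (hE (a + c)).2.2.2.1 (f a) (hver a).2
      have e1 : a + (c + 1) = a + c + 1 := by ring
      simp only [e1]
      have e3 : C2305b.Rig.cr (f (a + c) - f a) (f (a + c + 1) - f a) =
          cr (f (a + c + 1) - f (a + c)) (f a - f (a + c)) := by
        simp [C2305b.Rig.cr, cr]; ring
      rw [e3]
      exact h2
    · rintro c _ _ ⟨x, y, hx, hy, hxy, h⟩
      have e1 : a + (c + 1) = a + c + 1 := by ring
      simp only [e1] at h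
      refine (hE (a + c)).2.2.2.2 (f a) (hver a).1 ⟨x, y, hx, hy, hxy, ?_⟩
      have h4 : x • (f (a + c) - f a) + y • (f (a + c + 1) - f a) =
        x • f (a + c) + y • f (a + c + 1) - (x + y) • f a := by
        rw [smul_sub, smul_sub, add_smul]; abel
      rw [h4, hxy, one_smul, sub_eq_zero] at h
      exact h

end C2305bH68.Cyc
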