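import Mathlib

/-!
# Convex chains: height, slopes, area, number of good sides

Pure numbers for the window argument of MP_c2305b_co (helper19, row 545, sections 3, 5).
-/

open Finset MeasureTheory

namespace C2305bH68

/-- Cauchy-Schwarz along the chain: with `dx r > 0` and `dy r = dx r * s r`,
`(sum_(r<k) dx r * s r)^2 <= (sum_(r<m) dx r) * (sum_(r<m) dx r * s r^2)`. -/
theorem sq_sum_le {m k : ℕ} (hk : k ≤ m) (dx s : ℕ → ℝ) (hdx : ∀ r < m, 0 ≤ dx r) :
    (∑ r ∈ range k, dx r * s r) ^ 2 ≤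
      (∑ r ∈ range m, dx r) * (∑ r ∈ range m, dx r * s r ^ 2) := by
  have hsub : range k ⊆ range m := range_subset_range.2 hk
  have h1 : ∑ r ∈ range k, dx r ≤ ∑ r ∈ range m, dx r :=
    sum_le_sum_of_subset_of_nonneg hsub fun r hr _ => hdx r (mem_range.1 hr)
  have h2 : ∑ r ∈ range k, dx r * s r ^ 2 ≤ ∑ r ∈ range m, dx r * s r ^ 2 :=
    sum_le_sum_of_subset_of_nonneg hsub fun r hr _ =>
      mul_nonneg (hdx r (mem_range.1 hr)) (sq_nonneg _)
  have h3 : (∑ r ∈ range k, dx r * s r) ^ 2 ≤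
      (∑ r ∈ range k, dx r) * (∑ r ∈ range k, dx r * s r ^ 2) := by
    refine sum_sq_le_sum_mul_sum_of_sq_eq_mul (range k) ?_ ?_ ?_
    · intro r hr
      exact hdx r (lt_of_lt_of_le (mem_range.1 hr) hk)
    · intro r hr
      exact mul_nonneg (hdx r (lt_of_lt_of_le (mem_range.1 hr) hk)) (sq_nonneg _)
    · intro r _
      ring
  have h4 : 0 ≤ ∑ r ∈ range k, dx r * s r ^ 2 :=
    sum_nonneg fun r hr =>
      mul_nonneg (hdx r (lt_of_lt_of_le (mem_range.1 hr) hk)) (sq_nonneg _)
  have h5 : 0 ≤ ∑ r ∈ range m, dx r :=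
    sum_nonneg fun r hr => hdx r (mem_range.1 hr)
  exact h3.trans (mul_le_mul h1 h2 h4 h5)

/-- A chain: points `(x r, y r)`, `r <= m`, strictly increasing abscissae, slopes
nondecreasing, both ends at height `0`. -/
structure Chain (m : ℕ) (x y : ℕ → ℝ) : Prop where
  hm : 1 ≤ m
  hx : ∀ r < m, x r < x (r + 1)
  hs : ∀ r, r + 1 < m →
    (y (r + 1) - y r) / (x (r + 1) - x r) ≤ (y (r + 2) - y (r + 1)) / (x (r + 2) - x (r + 1))
  h0 : y 0 = 0
  hend : y m = 0

/-- extent of the side `r` -/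
def ext (x : ℕ → ℝ) (r : ℕ) : ℝ := x (r + 1) - x r

/-- slope of the side `r` -/
noncomputable def slope (x y : ℕ → ℝ) (r : ℕ) : ℝ := (y (r + 1) - y r) / (x (r + 1) - x r)

/-- energy of the chain -/
noncomputable def energy (m : ℕ) (x y : ℕ → ℝ) : ℝ :=
  ∑ r ∈ range m, ext x r * slope x y r ^ 2

namespace Chain

variable {m : ℕ} {x y : ℕ → ℝ} (C : Chain m x y)

include C

theorem ext_pos {r : ℕ} (hr : r < m) : 0 < ext x r := by
  have := C.hx r hr
  unfold ext
  linarith

theorem ext_mul_slope {r : ℕ} (hr : r < m) : ext x r * slope x y r = y (r + 1) - y r := by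
  have h := C.ext_pos hr
  unfold slope ext at *
  field_simp

theorem slope_mono {r t : ℕ} (hrt : r ≤ t) (ht : t < m) : slope x y r ≤ slope x y t := by
  induction t, hrt using Nat.le_induction with
  | base => exact le_rfl
  | succ n hn ih =>
    exact (ih (by omega)).trans (C.hs n ht)

theorem x_mono {r t : ℕ} (hrt : r ≤ t) (ht : t ≤ m) : x r ≤ x t := by
  induction t, hrt using Nat.le_induction with
  | base => exact le_rfl
  | succ n hn ih => exact (ih (by omega)).trans (C.hx n (by omega)).le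

theorem sum_ext {k : ℕ} : ∑ r ∈ range k, ext x r = x k - x 0 := by
  unfold ext
  exact sum_range_sub x k

theorem y_eq {k : ℕ} (hk : k ≤ m) : y k = ∑ r ∈ range k, ext x r * slope x y r := by
  have h : ∑ r ∈ range k, ext x r * slope x y r = ∑ r ∈ range k, (y (r + 1) - y r) :=
    sum_congr rfl fun r hr => C.ext_mul_slope (lt_of_lt_of_le (mem_range.1 hr) hk)
  rw [h, sum_range_sub, C.h0, sub_zero]

theorem energy_nonneg : 0 ≤ energy m x y :=
  sum_nonneg fun r hr => mul_nonneg (C.ext_pos (mem_range.1 hr)).le (sq_nonneg _)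

theorem width_pos : 0 < x m - x 0 := by
  have h1 := C.hx 0 (by have := C.hm; omega)
  have h2 := C.x_mono (r := 1) (t := m) C.hm le_rfl
  simp only [zero_add] at h1
  linarith

/-- HEIGHT BOUND. -/
theorem sq_height_le {k : ℕ} (hk : k ≤ m) : y k ^ 2 ≤ (x m - x 0) * energy m x y := by
  have h := sq_sum_le hk (ext x) (slope x y) fun r hr => (C.ext_pos hr).le
  rw [← C.y_eq hk, C.sum_ext] at h
  exact h

theorem height_le {k : ℕ} (hk : k ≤ m) :
    |y k| ≤ Real.sqrt ((x m - x 0) * energy m x y) := by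
  rw [← Real.sqrt_sq_eq_abs]
  exact Real.sqrt_le_sqrt (C.sq_height_le hk)

/-- SLOPE BOUND. -/
theorem abs_slope_le {r : ℕ} (hr : r < m) :
    |slope x y r| ≤ max |slope x y 0| |slope x y (m - 1)| := by
  have h1 := C.slope_mono (r := 0) (t := r) (by omega) hr
  have h2 := C.slope_mono (r := r) (t := m - 1) (by omega) (by omega)
  exact abs_le_max_abs_abs h1 h2

/-- the chain is below its chord -/
theorem y_nonpos {k : ℕ} (hk : k ≤ m) : y k ≤ 0 := by
  by_contra hcon
  push Not at hcon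
  -- some side before `k` has positive slope, hence all sides after it are increasing
  have hk1 : 0 < k := by
    rcases Nat.eq_zero_or_pos k with h | h
    · rw [h, C.h0] at hcon
      exact absurd hcon (lt_irrefl _)
    · exact h
  have hpos : 0 < slope x y (k - 1) := by
    by_contra hs
    push Not at hs
    have : y k ≤ 0 := by
      rw [C.y_eq hk]
      refine sum_nonpos fun r hr => ?_
      have hr' := mem_range.1 hr
      have h1 := C.slope_mono (r := r) (t := k - 1) (by omega) (by omega)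
      exact mul_nonpos_of_nonneg_of_nonpos (C.ext_pos (by omega)).le (h1.trans hs)
    linarith
  have hup : ∀ t, k ≤ t → t ≤ m → y k ≤ y t := by
    intro t ht
    induction t, ht using Nat.le_induction with
    | base => intro _; exact le_rfl
    | succ n hn ih =>
      intro hnm
      have h1 := ih (by omega)
      have h2 := C.slope_mono (r := k - 1) (t := n) (by omega) (by omega)
      have h3 := C.ext_mul_slope (r := n) (by omega)
      have h4 := C.ext_pos (r := n) (by omega)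
      have h5 : 0 ≤ ext x n * slope x y n := mul_nonneg h4.le (hpos.le.trans h2)
      linarith
  have := hup m hk le_rfl
  rw [C.hend] at this
  linarith

end Chain

/-! ### Area of the hull -/

/-- the plane -/
abbrev V := EuclideanSpace ℝ (Fin 2)

/-- box in the plane -/
def box (a b c d : ℝ) : Set V := {v | a ≤ v 0 ∧ v 0 ≤ b ∧ c ≤ v 1 ∧ v 1 ≤ d}

theorem convex_box (a b c d : ℝ) : Convex ℝ (box a b c d) := by
  have h0 : IsLinearMap ℝ fun v : V => v 0 := ⟨fun _ _ => rfl, fun _ _ => rfl⟩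
  have h1 : IsLinearMap ℝ fun v : V => v 1 := ⟨fun _ _ => rfl, fun _ _ => rfl⟩
  exact (convex_halfSpace_ge h0 a).inter ((convex_halfSpace_le h0 b).inter
    ((convex_halfSpace_ge h1 c).inter (convex_halfSpace_le h1 d)))

theorem volume_box {a b c d : ℝ} (hab : a ≤ b) :
    volume (box a b c d) = ENNReal.ofReal ((b - a) * (d - c)) := by
  have hpre : box a b c d =
      (MeasurableEquiv.toLp 2 (Fin 2 → ℝ)).symm ⁻¹' (Set.Icc ![a, c] ![b, d]) := by
    ext v
    simp only [box, Set.mem_setOf_eq, Set.mem_preimage, Set.mem_Icc, Pi.le_def,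
      Fin.forall_fin_two]
    simp
    tauto
  rw [hpre, (EuclideanSpace.volume_preserving_symm_measurableEquiv_toLp
    (Fin 2)).measure_preimage_equiv]
  rw [Real.volume_Icc_pi]
  simp only [Fin.prod_univ_two, Matrix.cons_val_zero, Matrix.cons_val_one]
  rw [← ENNReal.ofReal_mul (by linarith)]

/-- AREA of the hull of a chain. -/
theorem Chain.volume_hull_le {m : ℕ} {x y : ℕ → ℝ} (C : Chain m x y) (p : ℕ → V)
    (hp0 : ∀ r ≤ m, p r 0 = x r) (hp1 : ∀ r ≤ m, p r 1 = y r) :
    (volume (convexHull ℝ (p '' {r | r ≤ m}))).toReal ≤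
      (x m - x 0) * Real.sqrt ((x m - x 0) * energy m x y) := by
  set h := Real.sqrt ((x m - x 0) * energy m x y) with hh
  have hsub : convexHull ℝ (p '' {r | r ≤ m}) ⊆ box (x 0) (x m) (-h) 0 := by
    refine convexHull_min ?_ (convex_box _ _ _ _)
    rintro _ ⟨r, hr, rfl⟩
    have hr' : r ≤ m := hr
    refine ⟨?_, ?_, ?_, ?_⟩
    · rw [hp0 r hr']
      exact C.x_mono (Nat.zero_le _) hr'
    · rw [hp0 r hr']
      exact C.x_mono hr' le_rfl
    · rw [hp1 r hr']
      exact (abs_le.1 (C.height_le hr')).1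
    · rw [hp1 r hr']
      exact C.y_nonpos hr'
  have hw := C.width_pos
  have h1 := measure_mono (μ := volume) hsub
  rw [volume_box (by linarith)] at h1
  have h2 := ENNReal.toReal_mono ENNReal.ofReal_ne_top h1
  rw [ENNReal.toReal_ofReal (by nlinarith [Real.sqrt_nonneg ((x m - x 0) * energy m x y)])] at h2
  linarith

/-! ### Good sides -/

theorem step_sum {t : ℕ → ℝ} {τ : ℝ} {n : ℕ} (h : ∀ j, j + 2 < n → τ ≤ t (j + 2) - t j) :
    ∀ k a : ℕ, a + 2 * k < n → k * τ ≤ t (a + 2 * k) - t a := by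
  intro k
  induction k with
  | zero => intro a _; simp
  | succ k ih =>
    intro a ha
    have h1 := ih a (by omega)
    have h2 := h (a + 2 * k) (by omega)
    have h3 : a + 2 * (k + 1) = a + 2 * k + 2 := by ring
    rw [h3]
    push_cast
    linarith

theorem sum_sq_even (τ : ℝ) (hτ : 0 ≤ τ) :
    ∀ (M : ℕ) (t : ℕ → ℝ), (∀ j, j + 1 < 2 * M → t j ≤ t (j + 1)) →
      (∀ j, j + 2 < 2 * M → τ ≤ t (j + 2) - t j) →
      τ ^ 2 * ((M - 1) * M * (2 * M - 1) / 12) ≤ ∑ j ∈ range (2 * M), t j ^ 2 := by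
  intro M
  induction M with
  | zero => intro t _ _; simp
  | succ M ih =>
    intro t hmono h
    have h1 := ih (fun j => t (j + 1)) (fun j hj => hmono (j + 1) (by omega))
      (fun j hj => by
        have := h (j + 1) (by omega)
        exact this)
    have e : 2 * (M + 1) = (2 * M + 1) + 1 := by ring
    rw [e, sum_range_succ, sum_range_succ']
    have h2 : (M : ℝ) * τ ≤ t (2 * M + 1) - t 0 := by
      have h3 := step_sum h M 1 (by omega)
      have h4 := hmono 0 (by omega)
      have h5 : 1 + 2 * M = 2 * M + 1 := by ring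
      rw [h5] at h3
      simp only [zero_add] at h4
      linarith
    have h6 : (M : ℝ) ^ 2 * τ ^ 2 / 2 ≤ t 0 ^ 2 + t (2 * M + 1) ^ 2 := by
      have hM : (0 : ℝ) ≤ M * τ := mul_nonneg (Nat.cast_nonneg _) hτ
      nlinarith [sq_nonneg (t 0 + t (2 * M + 1)), mul_self_le_mul_self hM h2]
    push_cast
    push_cast at h1
    nlinarith [h1, h6]

/-- GOOD COUNT: at least `10` ordered slopes with gaps `>= τ` at distance two. -/
theorem good_count {K : ℕ} (hK : 10 ≤ K) {τ : ℝ} (hτ : 0 ≤ τ) {t : ℕ → ℝ}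
    (hmono : ∀ j, j + 1 < K → t j ≤ t (j + 1))
    (h : ∀ j, j + 2 < K → τ ≤ t (j + 2) - t j) :
    τ ^ 2 * (K : ℝ) ^ 3 / 100 ≤ ∑ j ∈ range K, t j ^ 2 := by
  obtain ⟨M, hM⟩ : ∃ M, K = 2 * M ∨ K = 2 * M + 1 := ⟨K / 2, by omega⟩
  have hM5 : 5 ≤ M := by omega
  have hMr : (5 : ℝ) ≤ M := by exact_mod_cast hM5
  have h1 := sum_sq_even τ hτ M t (fun j hj => hmono j (by omega)) (fun j hj => h j (by omega))
  have h2 : ∑ j ∈ range (2 * M), t j ^ 2 ≤ ∑ j ∈ range K, t j ^ 2 :=
    sum_le_sum_of_subset_of_nonneg (range_subset_range.2 (by omega)) fun _ _ _ => sq_nonneg _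
  have hKr : (K : ℝ) ≤ 2 * M + 1 := by
    have : K ≤ 2 * M + 1 := by omega
    exact_mod_cast this
  have hK0 : (0 : ℝ) ≤ K := Nat.cast_nonneg _
  have h3 : (K : ℝ) ^ 3 ≤ (2 * M + 1) ^ 3 := pow_le_pow_left₀ hK0 hKr 3
  have h4 : ((2 * M + 1 : ℝ)) ^ 3 / 100 ≤ (M - 1) * M * (2 * M - 1) / 12 := by
    have e : (M - 1) * M * (2 * M - 1) / 12 - (2 * M + 1 : ℝ) ^ 3 / 100
        = ((M - 5) * (26 * M ^ 2 + 19 * M + 102) / 300 + (507) / 300) := by
      ring
    have : 0 ≤ (M - 5 : ℝ) * (26 * M ^ 2 + 19 * M + 102) / 300 := by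
      have : 0 ≤ (M - 5 : ℝ) := by linarith
      positivity
    linarith
  have h5 : 0 ≤ τ ^ 2 := sq_nonneg _
  have h6 : τ ^ 2 * (K : ℝ) ^ 3 / 100 ≤ τ ^ 2 * ((M - 1) * M * (2 * M - 1) / 12) := by
    have : (K : ℝ) ^ 3 / 100 ≤ (M - 1) * M * (2 * M - 1) / 12 := by linarith
    have := mul_le_mul_of_nonneg_left this h5
    linarith
  linarith

end C2305bH68
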