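import Pool.Agent.W_c2305b_h19.Blk
import Pool.Agent.W_c2305b_h68.Chain
import Pool.Agent.W_c2305b_h52.Good

/-!
# Energy of a flat chain with good sides (MP_c2305b_co, part B, brick [ENG])
-/

open Finset MeasureTheory

namespace C2305bH68

open C2305bB (Fr Blk goodSides)
open C2305b.TL (cr)

/-- A point strictly above a side. -/
theorem exists_above {R : Set V} (hi : (interior R).Nonempty) {p e : V} (he : 0 < e 0)
    (hs : ∀ z ∈ R, 0 ≤ cr e (z - p)) : ∃ w ∈ R, 0 < cr e (w - p) := by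
  obtain ⟨z, hz⟩ := hi
  have h0 := hs z (interior_subset hz)
  rcases h0.lt_or_eq with h | h
  · exact ⟨z, interior_subset hz, h⟩
  · -- move upwards
    have hcont : Continuous fun t : ℝ => z + t • (!₂[0, 1] : V) := by fun_prop
    have hmem : (fun t : ℝ => z + t • (!₂[0, 1] : V)) 0 ∈ interior R := by
      simpa using hz
    have hnb : (fun t : ℝ => z + t • (!₂[0, 1] : V)) ⁻¹' interior R ∈ nhds (0 : ℝ) :=
      hcont.continuousAt.preimage_mem_nhds (isOpen_interior.mem_nhds hmem)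
    obtain ⟨ε, hε, hball⟩ := Metric.mem_nhds_iff.mp hnb
    have hin : (ε / 2) ∈ Metric.ball (0 : ℝ) ε := by
      rw [Metric.mem_ball, Real.dist_eq, sub_zero, abs_of_pos (by linarith)]
      linarith
    have hR := interior_subset (hball hin)
    refine ⟨_, hR, ?_⟩
    have e1 : cr e (z + (ε / 2) • (!₂[0, 1] : V) - p) = cr e (z - p) + ε / 2 * e 0 := by
      simp only [cr, PiLp.sub_apply, PiLp.add_apply, PiLp.smul_apply, smul_eq_mul,
        Matrix.cons_val_zero, Matrix.cons_val_one]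
      ring
    show 0 < cr e (z + (ε / 2) • (!₂[0, 1] : V) - p)
    rw [e1, ← h]
    positivity

section Eng

variable {L R η τ : ℝ} {J : Type} {T : C2305b.TL.Tiling J} {D : Set V} {F : J → Fr} {W : ℕ}
  {q : ℕ → V}

/-- A good side of a flat chain is long and the slopes of its neighbours differ. -/
theorem good_one (B : Blk L R η T D F W q) (hL : 1 ≤ L) (hR : 0 < R) (hτ : 0 < τ)
    (hη : η ≤ min (1 / 10) (τ / (2 * R ^ 2)))
    (hx : ∀ r < W, q r 0 < q (r + 1) 0)
    (hsl : ∀ r < W, |(q (r + 1) 1 - q r 1) / (q (r + 1) 0 - q r 0)| ≤ L * η)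
    (hmono : ∀ r, r + 1 < W → (q (r + 1) 1 - q r 1) / (q (r + 1) 0 - q r 0) ≤
      (q (r + 2) 1 - q (r + 1) 1) / (q (r + 2) 0 - q (r + 1) 0))
    {r : ℕ} (hr1 : r + 1 + 2 ≤ W) (hr : r + 1 ∈ goodSides τ D W q) :
    τ / (4 * R) ≤ q (r + 2) 0 - q (r + 1) 0 ∧
      2 * τ / R ^ 2 ≤ (q (r + 3) 1 - q (r + 2) 1) / (q (r + 3) 0 - q (r + 2) 0) -
        (q (r + 1) 1 - q r 1) / (q (r + 1) 0 - q r 0) := by
  have hvol : τ / 2 ≤ (volume (W82.cap D (q (r + 1)) (q (r + 2)))).toReal := by
    unfold goodSides at hr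
    exact (mem_filter.mp hr).2
  obtain ⟨G, o, hq1, hq2, hcap⟩ := B.cap (r + 1) (by omega)
  obtain ⟨w, hwR, hw⟩ := exists_above (e := q (r + 2) - q (r + 1)) (p := q (r + 1)) B.intR
    (by
      have := hx (r + 1) (by omega)
      simp only [PiLp.sub_apply]
      have e : r + 1 + 1 = r + 2 := rfl
      rw [e] at this
      linarith)
    (fun z hz => B.hs (r + 1) (by omega) z hz)
  have hLη : ∀ x : ℝ, |x| ≤ L * η → |x| ≤ L * min (1 / 10) (τ / (2 * R ^ 2)) := fun x h =>
    h.trans (mul_le_mul_of_nonneg_left hη (by linarith))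
  have hsub := B.sub
  exact C2305bH52.good_side (p := q r) (q := q (r + 1)) (r := q (r + 2)) (t := q (r + 3))
    (w := w) (D := D) (F := G) (o := o) B.convD
    (B.intR.mono (interior_mono hsub)) (B.qD (r + 1) (by omega)) (B.qD (r + 2) (by omega))
    (hsub (B.qR r (by omega))) (hsub (B.qR (r + 1) (by omega))) (hsub (B.qR (r + 2) (by omega)))
    (hsub (B.qR (r + 3) (by omega))) (hsub hwR) hw hL hR hτ (hx r (by omega))
    (hx (r + 1) (by omega)) (hx (r + 2) (by omega)) (hmono r (by omega))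
    (hmono (r + 1) (by omega)) (hLη _ (hsl r (by omega))) (hLη _ (hsl (r + 2) (by omega)))
    hcap hq1 hq2 hvol

/-- The slopes of the chain are nondecreasing. -/
theorem slopes_mono {W : ℕ} {x y : ℕ → ℝ}
    (hmono : ∀ r, r + 1 < W → slope x y r ≤ slope x y (r + 1)) {r t : ℕ} (hrt : r ≤ t)
    (ht : t < W) : slope x y r ≤ slope x y t := by
  induction t, hrt using Nat.le_induction with
  | base => exact le_rfl
  | succ n hn ih => exact (ih (by omega)).trans (hmono n ht)

/-- Energy of a chain of nondecreasing slopes with many long sides having a definite drop. -/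
theorem energy_ge {W : ℕ} {x y : ℕ → ℝ} {c d : ℝ} (hc : 0 ≤ c) (hd : 0 ≤ d)
    (hx : ∀ r < W, x r < x (r + 1))
    (hmono : ∀ r, r + 1 < W → slope x y r ≤ slope x y (r + 1)) {al be : ℕ}
    (h3 : be + 1 ≤ W) {G : Finset ℕ} (hG : ∀ r ∈ G, al ≤ r ∧ r < be)
    (hG1 : ∀ r ∈ G, c ≤ x (r + 1) - x r)
    (hG2 : ∀ r ∈ G, d ≤ slope x y (r + 1) - slope x y (r - 1)) (hcard : 10 ≤ G.card) :
    c * (d ^ 2 * (G.card : ℝ) ^ 3 / 100) ≤
      energy (be - al) (fun k => x (al + k)) (fun k => y (al + k)) := by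
  classical
  set K := G.card with hK
  -- enumerate the good sides
  let f : Fin K ↪o ℕ := G.orderEmbOfFin hK.symm
  have hfmem : ∀ j, f j ∈ G := fun j => Finset.orderEmbOfFin_mem G hK.symm j
  let t : ℕ → ℝ := fun j => if h : j < K then slope x y (f ⟨j, h⟩) else 0
  have ht : ∀ j (h : j < K), t j = slope x y (f ⟨j, h⟩) := fun j h => by
    simp only [t, h, dif_pos]
  have hflt : ∀ j (h : j + 1 < K), f ⟨j, by omega⟩ < f ⟨j + 1, h⟩ := fun j h =>
    f.strictMono (by simp [Fin.lt_def])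
  have hgc := good_count (K := K) hcard hd (t := t)
    (fun j hj => by
      rw [ht j (by omega), ht (j + 1) hj]
      have h5 := hflt j hj
      have h6 := (hG _ (hfmem ⟨j + 1, hj⟩)).2
      exact slopes_mono hmono h5.le (by omega))
    (fun j hj => by
      rw [ht j (by omega), ht (j + 2) hj]
      have h5 := hflt j (by omega)
      have h6 := hflt (j + 1) (by omega)
      have h10 := hG2 _ (hfmem ⟨j + 1, by omega⟩)
      have h7 := (hG _ (hfmem ⟨j + 1, by omega⟩)).2
      have h9 := (hG _ (hfmem ⟨j + 2, hj⟩)).2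
      generalize f ⟨j + 1, _⟩ = b at h5 h6 h10 h7
      generalize f ⟨j, _⟩ = a at h5 ⊢
      have h6' : b < f ⟨j + 2, hj⟩ := h6
      generalize f ⟨j + 2, hj⟩ = e at h6' h9 ⊢
      have h11 : slope x y a ≤ slope x y (b - 1) := slopes_mono hmono (by omega) (by omega)
      have h12 : slope x y (b + 1) ≤ slope x y e := slopes_mono hmono (by omega) (by omega)
      linarith)
  -- sum over the good sides
  have hsumG : ∑ j ∈ range K, t j ^ 2 = ∑ r ∈ G, slope x y r ^ 2 := by
    rw [← Fin.sum_univ_eq_sum_range (fun j => t j ^ 2) K]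
    have e1 : ∀ j : Fin K, t (j : ℕ) ^ 2 = slope x y (f j) ^ 2 := fun j => by
      rw [ht j.1 j.2]
    rw [Finset.sum_congr rfl fun j _ => e1 j]
    have himg : Finset.univ.image (fun j => f j) = G := by
      apply Finset.eq_of_subset_of_card_le
      · intro r hr
        obtain ⟨j, _, rfl⟩ := Finset.mem_image.mp hr
        exact hfmem j
      · rw [Finset.card_image_of_injective _ f.injective, Finset.card_univ, Fintype.card_fin]
    rw [← himg, Finset.sum_image fun a _ b _ hab => f.injective hab]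
  rw [hsumG] at hgc
  -- energy
  have hen : ∑ r ∈ G, (x (r + 1) - x r) * slope x y r ^ 2 ≤
      energy (be - al) (fun k => x (al + k)) (fun k => y (al + k)) := by
    have e2 : energy (be - al) (fun k => x (al + k)) (fun k => y (al + k)) =
        ∑ r ∈ Finset.Ico al be, (x (r + 1) - x r) * slope x y r ^ 2 := by
      rw [Finset.sum_Ico_eq_sum_range]
      unfold energy ext slope
      exact Finset.sum_congr rfl fun k _ => rfl
    rw [e2]
    refine Finset.sum_le_sum_of_subset_of_nonneg ?_ fun r hr _ => ?_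
    · intro r hr
      rw [Finset.mem_Ico]
      exact hG r hr
    · rw [Finset.mem_Ico] at hr
      have := hx r (by omega)
      exact mul_nonneg (by linarith) (sq_nonneg _)
  calc c * (d ^ 2 * (K : ℝ) ^ 3 / 100) ≤ c * ∑ r ∈ G, slope x y r ^ 2 :=
        mul_le_mul_of_nonneg_left hgc hc
    _ = ∑ r ∈ G, c * slope x y r ^ 2 := Finset.mul_sum _ _ _
    _ ≤ ∑ r ∈ G, (x (r + 1) - x r) * slope x y r ^ 2 :=
        Finset.sum_le_sum fun r hr => mul_le_mul_of_nonneg_right (hG1 r hr) (sq_nonneg _)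
    _ ≤ _ := hen

/-- **[ENG]** -/
theorem eng (B : Blk L R η T D F W q) (hL : 1 ≤ L) (hR : 0 < R) (hτ : 0 < τ) (_hη0 : 0 ≤ η)
    (hη : η ≤ min (1 / 10) (τ / (2 * R ^ 2)))
    (hx : ∀ r < W, q r 0 < q (r + 1) 0)
    (hsl : ∀ r < W, |slope (fun k => q k 0) (fun k => q k 1) r| ≤ L * η)
    (hmono : ∀ r, r + 1 < W → slope (fun k => q k 0) (fun k => q k 1) r ≤
      slope (fun k => q k 0) (fun k => q k 1) (r + 1))
    {al be : ℕ} (h1 : 1 ≤ al) (_h2 : al < be) (h3 : be + 1 ≤ W) {G : Finset ℕ}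
    (hG : ∀ r ∈ G, al ≤ r ∧ r < be ∧ r ∈ goodSides τ D W q) (hcard : 10 ≤ G.card) :
    (∀ r ∈ G, τ / (4 * R) ≤ q (r + 1) 0 - q r 0) ∧
    (∀ r ∈ G, 2 * τ / R ^ 2 ≤ slope (fun k => q k 0) (fun k => q k 1) (r + 1) -
      slope (fun k => q k 0) (fun k => q k 1) (r - 1)) ∧
    τ / (4 * R) * ((2 * τ / R ^ 2) ^ 2 * (G.card : ℝ) ^ 3 / 100) ≤
      energy (be - al) (fun k => q (al + k) 0) (fun k => q (al + k) 1) := by
  have key : ∀ r ∈ G, τ / (4 * R) ≤ q (r + 1) 0 - q r 0 ∧
      2 * τ / R ^ 2 ≤ slope (fun k => q k 0) (fun k => q k 1) (r + 1) -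
      slope (fun k => q k 0) (fun k => q k 1) (r - 1) := by
    intro r hr
    obtain ⟨ha, hb, hg⟩ := hG r hr
    obtain ⟨s, rfl⟩ : ∃ s, r = s + 1 := ⟨r - 1, by omega⟩
    have h := good_one B hL hR hτ hη hx hsl hmono (r := s) (by omega) hg
    exact h
  refine ⟨fun r hr => (key r hr).1, fun r hr => (key r hr).2, ?_⟩
  exact energy_ge (x := fun k => q k 0) (y := fun k => q k 1) (by positivity) (by positivity) hx
    hmono h3 (fun r hr => ⟨(hG r hr).1, (hG r hr).2.1⟩) (fun r hr => (key r hr).1)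
    (fun r hr => (key r hr).2) hcard

end Eng

end C2305bH68
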