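import Pool.Agent.W_c2305b_h35.Tiling

/-!
# Area of a triangle in the plane

`volume (convexHull {a, b, c}) = (1/2) |cr (b - a) (c - a)|`, lines are null sets.
-/

open MeasureTheory Set C2305b.TL

namespace C2305bH68.Tri

/-- Lines are null sets. -/
theorem null_line {u : V} (hu : u ≠ 0) (v : V) : volume {x : V | cr u (x - v) = 0} = 0 := by
  have h1 : {x : V | cr u (x - v) = 0} =
      (fun x : V => x + (-v)) ⁻¹' ((LinearMap.ker (crL u : V →ₗ[ℝ] ℝ) : Submodule ℝ V) : Set V) := by
    ext x
    have : cr u (x - v) = crL u (x + -v) := by rw [crL_apply, sub_eq_add_neg]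
    constructor
    · intro hx
      have hx' : cr u (x - v) = 0 := hx
      change (crL u : V →ₗ[ℝ] ℝ) (x + -v) = 0
      rw [this] at hx'
      exact hx'
    · intro hx
      have hx' : (crL u : V →ₗ[ℝ] ℝ) (x + -v) = 0 := hx
      change cr u (x - v) = 0
      rw [this]
      exact hx'
  rw [h1, measure_preimage_add_right]
  apply Measure.addHaar_submodule
  intro h
  apply crL_ne_zero hu
  ext x
  have hx : x ∈ LinearMap.ker (crL u : V →ₗ[ℝ] ℝ) := by rw [h]; trivial
  exact hx

/-- Barycentric coordinates. -/
theorem bary (a b c x : V) :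
    cr (b - a) (c - a) • x = cr (c - b) (x - b) • a + cr (a - c) (x - c) • b
      + cr (b - a) (x - a) • c := by
  ext k
  fin_cases k
  · simp [cr]; ring
  · simp [cr]; ring

theorem bary_sum (a b c x : V) :
    cr (c - b) (x - b) + cr (a - c) (x - c) + cr (b - a) (x - a) = cr (b - a) (c - a) := by
  simp [cr]; ring

/-- A positively oriented triangle by its three sides. -/
theorem mem_tri_iff {a b c : V} (h : 0 < cr (b - a) (c - a)) {x : V} :
    x ∈ convexHull ℝ {a, b, c} ↔
      0 ≤ cr (b - a) (x - a) ∧ 0 ≤ cr (c - b) (x - b) ∧ 0 ≤ cr (a - c) (x - c) := by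
  constructor
  · intro hx
    have h1 : convexHull ℝ {a, b, c} ⊆ {x : V | 0 ≤ cr (b - a) (x - a)} ∩
        ({x : V | 0 ≤ cr (c - b) (x - b)} ∩ {x : V | 0 ≤ cr (a - c) (x - c)}) := by
      refine convexHull_min ?_ ((Tiling.convex_cr _ _).inter
        ((Tiling.convex_cr _ _).inter (Tiling.convex_cr _ _)))
      have e1 : cr (c - b) (a - b) = cr (b - a) (c - a) := by simp [cr]; ring
      have e2 : cr (a - c) (b - c) = cr (b - a) (c - a) := by simp [cr]; ring
      have e3 : cr (a - c) (a - c) = 0 := cr_self _
      have e4 : cr (c - b) (c - b) = 0 := cr_self _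
      have e5 : cr (b - a) (b - a) = 0 := cr_self _
      rintro y hy
      simp only [mem_insert_iff, mem_singleton_iff] at hy
      rcases hy with rfl | rfl | rfl
      · refine ⟨?_, ?_, ?_⟩
        · change 0 ≤ cr (b - y) (y - y)
          rw [sub_self, cr_zero_right]
        · change 0 ≤ cr (c - b) (y - b)
          rw [e1]; exact h.le
        · change 0 ≤ cr (y - c) (y - c)
          rw [e3]
      · refine ⟨?_, ?_, ?_⟩
        · change 0 ≤ cr (y - a) (y - a)
          rw [e5]
        · change 0 ≤ cr (c - y) (y - y)
          rw [sub_self, cr_zero_right]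
        · change 0 ≤ cr (a - c) (y - c)
          rw [e2]; exact h.le
      · refine ⟨?_, ?_, ?_⟩
        · change 0 ≤ cr (b - a) (y - a)
          exact h.le
        · change 0 ≤ cr (y - b) (y - b)
          rw [e4]
        · change 0 ≤ cr (a - y) (y - y)
          rw [sub_self, cr_zero_right]
    have h2 := h1 hx
    exact ⟨h2.1, h2.2.1, h2.2.2⟩
  · rintro ⟨h1, h2, h3⟩
    have hb := bary a b c x
    have hs := bary_sum a b c x
    set D := cr (b - a) (c - a) with hD
    have hx : x = (cr (c - b) (x - b) / D) • a + (cr (a - c) (x - c) / D) • b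
        + (cr (b - a) (x - a) / D) • c := by
      have h4 : x = D⁻¹ • (D • x) := by rw [smul_smul, inv_mul_cancel₀ h.ne', one_smul]
      conv_lhs => rw [h4, hb]
      rw [smul_add, smul_add, smul_smul, smul_smul, smul_smul]
      simp only [div_eq_inv_mul]
    rw [hx]
    have hC := convex_convexHull ℝ ({a, b, c} : Set V)
    have ha : a ∈ convexHull ℝ ({a, b, c} : Set V) := subset_convexHull ℝ _ (by simp)
    have hb' : b ∈ convexHull ℝ ({a, b, c} : Set V) := subset_convexHull ℝ _ (by simp)
    have hc : c ∈ convexHull ℝ ({a, b, c} : Set V) := subset_convexHull ℝ _ (by simp)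
    have h5 := hC.sum_mem (t := Finset.univ) (w := ![cr (c - b) (x - b) / D,
      cr (a - c) (x - c) / D, cr (b - a) (x - a) / D]) (z := ![a, b, c])
      (by
        intro i _
        fin_cases i
        · exact div_nonneg h2 h.le
        · exact div_nonneg h3 h.le
        · exact div_nonneg h1 h.le)
      (by
        rw [Fin.sum_univ_three]
        change cr (c - b) (x - b) / D + cr (a - c) (x - c) / D + cr (b - a) (x - a) / D = 1
        rw [← add_div, ← add_div, hs]
        exact div_self h.ne')
      (by
        intro i _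
        fin_cases i
        · exact ha
        · exact hb'
        · exact hc)
    simpa [Fin.sum_univ_three] using h5

/-- the standard triangle -/
def std : Set V := {x | 0 ≤ x 0 ∧ 0 ≤ x 1 ∧ x 0 + x 1 ≤ 1}

/-- box in the plane -/
def sq : Set V := {x | 0 ≤ x 0 ∧ x 0 ≤ 1 ∧ 0 ≤ x 1 ∧ x 1 ≤ 1}

theorem volume_sq : volume sq = 1 := by
  have hpre : sq =
      (MeasurableEquiv.toLp 2 (Fin 2 → ℝ)).symm ⁻¹' (Set.Icc ![0, 0] ![1, 1]) := by
    ext v
    simp only [sq, Set.mem_setOf_eq, Set.mem_preimage, Set.mem_Icc, Pi.le_def,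
      Fin.forall_fin_two]
    simp
    tauto
  rw [hpre, (EuclideanSpace.volume_preserving_symm_measurableEquiv_toLp
    (Fin 2)).measure_preimage_equiv]
  rw [Real.volume_Icc_pi]
  simp

theorem measurable_std : MeasurableSet std := by
  have h0 : Measurable fun x : V => x 0 := by fun_prop
  have h1 : Measurable fun x : V => x 1 := by fun_prop
  exact (measurableSet_le measurable_const h0).inter
    ((measurableSet_le measurable_const h1).inter (measurableSet_le (h0.add h1) measurable_const))

theorem volume_std : volume std = ENNReal.ofReal (1 / 2) := by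
  -- the reflected triangle
  let o : V := !₂[1, 1]
  have ho0 : o 0 = 1 := by simp [o]
  have ho1 : o 1 = 1 := by simp [o]
  let r : V → V := fun x => o - x
  have hr : MeasurePreserving r volume volume := by
    have := Measure.measurePreserving_sub_left (volume : Measure V) o
    exact this
  have hrs : volume (r ⁻¹' std) = volume std := hr.measure_preimage measurable_std.nullMeasurableSet
  have hunion : sq = std ∪ r ⁻¹' std := by
    ext x
    have e0 : (r x) 0 = 1 - x 0 := by simp [r, ho0]
    have e1 : (r x) 1 = 1 - x 1 := by simp [r, ho1]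
    constructor
    · rintro ⟨h1, h2, h3, h4⟩
      rcases le_total (x 0 + x 1) 1 with h | h
      · exact Or.inl ⟨h1, h3, h⟩
      · right
        refine ⟨?_, ?_, ?_⟩
        · rw [e0]; linarith
        · rw [e1]; linarith
        · rw [e0, e1]; linarith
    · rintro (⟨h1, h2, h3⟩ | ⟨h1, h2, h3⟩)
      · exact ⟨h1, by linarith, h2, by linarith⟩
      · rw [e0] at h1
        rw [e1] at h2
        rw [e0, e1] at h3
        exact ⟨by linarith, by linarith, by linarith, by linarith⟩
  have hinter : volume (std ∩ r ⁻¹' std) = 0 := by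
    let u : V := !₂[1, -1]
    let v : V := !₂[1, 0]
    have hu : u ≠ 0 := by
      intro h
      have : u 0 = 0 := by rw [h]; rfl
      simp [u] at this
    refine measure_mono_null ?_ (null_line hu v)
    rintro x ⟨⟨h1, h2, h3⟩, ⟨h4, h5, h6⟩⟩
    have e0 : (r x) 0 = 1 - x 0 := by simp [r, ho0]
    have e1 : (r x) 1 = 1 - x 1 := by simp [r, ho1]
    rw [e0, e1] at h6
    change cr u (x - v) = 0
    simp [cr, u, v]
    linarith
  have hsum := measure_union_add_inter (μ := (volume : Measure V)) std
    (hr.measurable measurable_std)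
  rw [← hunion, hinter, volume_sq, hrs, add_zero] at hsum
  have h2 : 2 * volume std = 1 := by rw [two_mul]; exact hsum.symm
  have hfin : volume std ≠ ⊤ := by
    intro h
    rw [h] at h2
    simp at h2
  rw [← ENNReal.ofReal_toReal hfin]
  congr 1
  have h3 := congrArg ENNReal.toReal h2
  simp at h3
  linarith

/-- the linear map with columns `u, v` -/
noncomputable def lmap (u v : V) : V →ₗ[ℝ] V where
  toFun x := x 0 • u + x 1 • v
  map_add' x y := by
    simp only [PiLp.add_apply, add_smul]
    abel
  map_smul' t x := by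
    simp only [PiLp.smul_apply, smul_eq_mul, mul_smul, RingHom.id_apply, smul_add]

theorem lmap_apply (u v x : V) : lmap u v x = x 0 • u + x 1 • v := rfl

theorem det_lmap (u v : V) : LinearMap.det (lmap u v) = cr u v := by
  rw [← LinearMap.det_toMatrix (EuclideanSpace.basisFun (Fin 2) ℝ).toBasis, Matrix.det_fin_two]
  simp [LinearMap.toMatrix_apply, lmap_apply, cr]
  ring

/-- AREA OF A TRIANGLE, positive orientation. -/
theorem volume_tri {a b c : V} (h : 0 < cr (b - a) (c - a)) :
    volume (convexHull ℝ {a, b, c}) = ENNReal.ofReal (cr (b - a) (c - a) / 2) := by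
  have himg : convexHull ℝ {a, b, c} = (fun y : V => a + y) '' (lmap (b - a) (c - a) '' std) := by
    ext x
    rw [mem_tri_iff h]
    constructor
    · rintro ⟨h1, h2, h3⟩
      set D := cr (b - a) (c - a) with hD
      let y : V := !₂[cr (x - a) (c - a) / D, cr (b - a) (x - a) / D]
      have hy0 : y 0 = cr (x - a) (c - a) / D := by simp [y]
      have hy1 : y 1 = cr (b - a) (x - a) / D := by simp [y]
      refine ⟨x - a, ⟨y, ⟨?_, ?_, ?_⟩, ?_⟩, by simp⟩
      · rw [hy0]
        refine div_nonneg ?_ h.le
        have : cr (x - a) (c - a) = cr (a - c) (x - c) := by simp [cr]; ring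
        rw [this]; exact h3
      · rw [hy1]
        exact div_nonneg h1 h.le
      · rw [hy0, hy1, ← add_div, div_le_one h]
        have : cr (x - a) (c - a) + cr (b - a) (x - a) = D - cr (c - b) (x - b) := by
          rw [hD]; simp [cr]; ring
        rw [this]; linarith
      · rw [lmap_apply, hy0, hy1]
        have h4 : D • (x - a) = cr (x - a) (c - a) • (b - a) + cr (b - a) (x - a) • (c - a) := by
          rw [hD]
          ext k
          fin_cases k
          · simp [cr]; ring
          · simp [cr]; ring
        have h5 : x - a = D⁻¹ • (D • (x - a)) := by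
          rw [smul_smul, inv_mul_cancel₀ h.ne', one_smul]
        conv_rhs => rw [h5, h4]
        rw [smul_add, smul_smul, smul_smul]
        simp only [div_eq_inv_mul]
    · rintro ⟨_, ⟨y, ⟨h1, h2, h3⟩, rfl⟩, rfl⟩
      have e1 : cr (b - a) (a + lmap (b - a) (c - a) y - a) = y 1 * cr (b - a) (c - a) := by
        rw [lmap_apply]; simp [cr]; ring
      have e2 : cr (c - b) (a + lmap (b - a) (c - a) y - b)
          = (1 - y 0 - y 1) * cr (b - a) (c - a) := by
        rw [lmap_apply]; simp [cr]; ring
      have e3 : cr (a - c) (a + lmap (b - a) (c - a) y - c) = y 0 * cr (b - a) (c - a) := by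
        rw [lmap_apply]; simp [cr]; ring
      refine ⟨?_, ?_, ?_⟩
      · rw [e1]; exact mul_nonneg h2 h.le
      · rw [e2]; exact mul_nonneg (by linarith) h.le
      · rw [e3]; exact mul_nonneg h1 h.le
  rw [himg, image_add_left, measure_preimage_add, Measure.addHaar_image_linearMap, det_lmap,
    volume_std, ← ENNReal.ofReal_mul (abs_nonneg _), abs_of_pos h]
  congr 1
  ring

end C2305bH68.Tri
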