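import Pool.Agent.W_c2305b_h35.Flux
import Pool.Agent.W_c2305b_h68.Tri

/-!
# Cyclic order of the corners of a convex polygon, shoelace formula

`Corners S`: every point of the finite set `S` is outside the hull of the others. For such an `S`
with at least three points there is a counterclockwise enumeration `q : ZMod m → V`, `m = card S`,
and the area of the hull is `(1/2) sum cr (q k) (q (k+1))`.
-/

open MeasureTheory Set C2305b.TL

namespace C2305bH68.Ord

/-- every point of `S` is a corner of the hull -/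
def Corners (S : Finset V) : Prop := ∀ p ∈ S, p ∉ convexHull ℝ ((S : Set V) \ {p})

theorem Corners.mono {S O : Finset V} (h : Corners S) (hO : O ⊆ S) : Corners O := by
  intro p hp hcon
  exact h p (hO hp) (convexHull_mono (diff_subset_diff_left (by exact_mod_cast hO)) hcon)

/-- extreme points of a convex set are corners -/
theorem corners_of_extreme {S : Finset V} {A : Set V} (hA : Convex ℝ A)
    (h : ∀ p ∈ S, p ∈ extremePoints ℝ A) : Corners S := by
  intro p hp hcon
  have h1 := (hA.mem_extremePoints_iff_mem_diff_convexHull_diff).1 (h p hp)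
  apply h1.2
  refine convexHull_mono ?_ hcon
  intro z hz
  exact ⟨(h z hz.1).1, hz.2⟩

theorem corners_of_extreme_hull {S : Finset V}
    (h : ∀ p ∈ S, p ∈ extremePoints ℝ (convexHull ℝ (S : Set V))) : Corners S :=
  corners_of_extreme (convex_convexHull ℝ _) h

/-- no three corners on a line -/
theorem Corners.cr_ne {S : Finset V} (h : Corners S) {a b c : V} (ha : a ∈ S) (hb : b ∈ S)
    (hc : c ∈ S) (hab : a ≠ b) (hac : a ≠ c) (hbc : b ≠ c) : cr (b - a) (c - a) ≠ 0 := by
  intro h0
  obtain ⟨t, ht⟩ := exists_smul_of_cr_eq_zero (sub_ne_zero.2 hab.symm) h0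
  have hseg : ∀ {x y z : V}, x ∈ S → y ∈ S → z ∈ S → x ≠ y → x ≠ z → ∀ s : ℝ, 0 ≤ s → s ≤ 1 →
      x = y + s • (z - y) → False := by
    intro x y z hx hy hz hxy hxz s hs0 hs1 he
    apply h x hx
    have h1 : x ∈ segment ℝ y z := by
      rw [segment_eq_image']
      exact ⟨s, ⟨hs0, hs1⟩, he.symm⟩
    refine (convex_convexHull ℝ _).segment_subset ?_ ?_ h1
    · exact subset_convexHull ℝ _ ⟨hy, fun hh => hxy (by simpa using hh.symm)⟩
    · exact subset_convexHull ℝ _ ⟨hz, fun hh => hxz (by simpa using hh.symm)⟩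
  have hcb : c = a + t • (b - a) := by rw [← ht]; abel
  rcases lt_or_ge t 0 with h1 | h1
  · -- a between c and b
    refine hseg ha hc hb hac hab (-t / (1 - t)) (div_nonneg (by linarith) (by linarith))
      ((div_le_one (by linarith)).2 (by linarith)) ?_
    have h2 : (1 - t) ≠ 0 := by linarith
    have h3 : b - c = (1 - t) • (b - a) := by rw [hcb]; module
    rw [h3, smul_smul, div_mul_cancel₀ _ h2, hcb]
    module
  · rcases le_or_gt t 1 with h2 | h2
    · exact hseg hc ha hb hac.symm hbc.symm t h1 h2 hcb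
    · -- b between a and c
      refine hseg hb ha hc hab.symm hbc (1 / t) (by positivity)
        ((div_le_one (by linarith)).2 (by linarith)) ?_
      have h3 : c - a = t • (b - a) := ht
      rw [h3, smul_smul, one_div, inv_mul_cancel₀ (by linarith), one_smul]
      abel

/-- three distinct points -/
theorem exists_three {S : Finset V} (h3 : 3 ≤ S.card) :
    ∃ a b c, a ∈ S ∧ b ∈ S ∧ c ∈ S ∧ a ≠ b ∧ a ≠ c ∧ b ≠ c := by
  obtain ⟨a, b, c, ha, hb, hc, hab, hac, hbc⟩ := Finset.two_lt_card_iff.1 (by omega : 2 < S.card)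
  exact ⟨a, b, c, ha, hb, hc, hab, hac, hbc⟩

theorem Corners.interior_nonempty {S : Finset V} (h : Corners S) (h3 : 3 ≤ S.card) :
    (interior (convexHull ℝ (S : Set V))).Nonempty := by
  obtain ⟨a, b, c, ha, hb, hc, hab, hac, hbc⟩ := exists_three h3
  have h0 := h.cr_ne ha hb hc hab hac hbc
  rw [interior_convexHull_nonempty_iff_affineSpan_eq_top, eq_top_iff]
  intro x _
  have ha' : a ∈ affineSpan ℝ (S : Set V) := subset_affineSpan ℝ _ ha
  have hb' : b ∈ affineSpan ℝ (S : Set V) := subset_affineSpan ℝ _ hb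
  have hc' : c ∈ affineSpan ℝ (S : Set V) := subset_affineSpan ℝ _ hc
  have h1 := (affineSpan ℝ (S : Set V)).smul_vsub_vadd_mem
    (cr (b - a) (x - a) / cr (b - a) (c - a)) hc' ha' ha'
  have h2 := (affineSpan ℝ (S : Set V)).smul_vsub_vadd_mem
    (cr (x - a) (c - a) / cr (b - a) (c - a)) hb' ha' h1
  have hx : x = (cr (x - a) (c - a) / cr (b - a) (c - a)) • (b -ᵥ a) +ᵥ
      ((cr (b - a) (x - a) / cr (b - a) (c - a)) • (c -ᵥ a) +ᵥ a) := by
    simp only [vsub_eq_sub, vadd_eq_add]
    have h4 : cr (b - a) (c - a) • (x - a)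
        = cr (x - a) (c - a) • (b - a) + cr (b - a) (x - a) • (c - a) := by
      ext k
      fin_cases k
      · simp [cr]; ring
      · simp [cr]; ring
    have h5 : x - a = (cr (b - a) (c - a))⁻¹ • (cr (b - a) (c - a) • (x - a)) := by
      rw [smul_smul, inv_mul_cancel₀ h0, one_smul]
    have h6 : x = (x - a) + a := by abel
    conv_lhs => rw [h6, h5, h4]
    rw [smul_add, smul_smul, smul_smul]
    simp only [div_eq_inv_mul]
    abel
  rw [hx]
  exact h2

theorem Corners.not_interior {S : Finset V} (h : Corners S) (h3 : 3 ≤ S.card) {v : V}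
    (hv : v ∈ S) : v ∉ interior (convexHull ℝ (S : Set V)) := by
  intro hint
  have hfin : ((S : Set V) \ {v}).Finite := S.finite_toSet.subset diff_subset
  have hcl : IsClosed (convexHull ℝ ((S : Set V) \ {v})) := (Set.Finite.isCompact_convexHull (𝕜 := ℝ) hfin).isClosed
  obtain ⟨f, u, hf1, hf2⟩ := geometric_hahn_banach_point_closed
    (convex_convexHull ℝ ((S : Set V) \ {v})) hcl (h v hv)
  obtain ⟨b, hb, hbv⟩ : ∃ b ∈ S, b ≠ v := by
    have : 1 < S.card := by omega
    obtain ⟨b, hb, hbv⟩ := Finset.exists_mem_ne this v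
    exact ⟨b, hb, hbv⟩
  have hS : ∀ s ∈ (S : Set V), s ≠ v → f v < f s := fun s hs hsv =>
    hf1.trans (hf2 s (subset_convexHull ℝ _ ⟨hs, by simpa using hsv⟩))
  have hne : (-f) ≠ 0 := by
    intro h0
    have h1 := hS b hb hbv
    have h2 : f = 0 := neg_eq_zero.1 h0
    rw [h2] at h1
    simp at h1
  have hle : ∀ x ∈ convexHull ℝ (S : Set V), (-f) x ≤ (-f) v := by
    have : convexHull ℝ (S : Set V) ⊆ {x | (-f) x ≤ (-f) v} := by
      refine convexHull_min ?_ (convex_halfSpace_le (-f).isLinear _)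
      intro s hs
      change (-f) s ≤ (-f) v
      by_cases hsv : s = v
      · rw [hsv]
      · have := hS s hs hsv
        simp only [ContinuousLinearMap.neg_apply]
        linarith
    exact this
  exact lt_irrefl _ (lt_of_mem_interior hne hle hint)

/-- the tiling with one tile -/
noncomputable def one (S : Finset V) (h : Corners S) (h3 : 3 ≤ S.card) : Tiling Unit where
  R := convexHull ℝ (S : Set V)
  P := fun _ => convexHull ℝ (S : Set V)
  W := S
  convR := convex_convexHull ℝ _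
  conv := fun _ => convex_convexHull ℝ _
  comp := fun _ => Set.Finite.isCompact_convexHull (𝕜 := ℝ) S.finite_toSet
  nonem := fun _ => h.interior_nonempty h3
  disj := fun i j hij => absurd (Subsingleton.elim i j) hij
  union := iUnion_const _
  hull := fun _ => by
    congr 1
    exact (inter_eq_left.2 (subset_convexHull ℝ _)).symm
  vert := fun _ v hv => h.not_interior h3 hv

/-- `w` follows `v` on the boundary of the hull of `S` -/
def Nx (S : Finset V) (v w : V) : Prop :=
  v ∈ S ∧ w ∈ S ∧ w ≠ v ∧ ∀ x ∈ convexHull ℝ (S : Set V), 0 ≤ cr (w - v) (x - v)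

theorem nx_iff {S : Finset V} (h : Corners S) (h3 : 3 ≤ S.card) {v w : V} :
    Nx S v w ↔ (one S h h3).E () v w := by
  constructor
  · rintro ⟨h1, h2, h4, h5⟩
    refine ⟨⟨h1, subset_convexHull ℝ _ h1⟩, ⟨h2, subset_convexHull ℝ _ h2⟩, h4, h5, ?_⟩
    intro y hy hyo
    have hy' : y ∈ S := hy
    apply h y hy'
    have hyv : v ≠ y := by
      rintro rfl
      exact h4 (left_mem_openSegment_iff.1 hyo).symm
    have hyw : w ≠ y := by
      rintro rfl
      exact h4 (right_mem_openSegment_iff.1 hyo).symm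
    exact (convex_convexHull ℝ ((S : Set V) \ {y})).segment_subset
      (subset_convexHull ℝ _ ⟨h1, by simpa using hyv⟩)
      (subset_convexHull ℝ _ ⟨h2, by simpa using hyw⟩)
      (openSegment_subset_segment ℝ v w hyo)
  · rintro ⟨h1, h2, h4, h5, _⟩
    exact ⟨h1.1, h2.1, h4, h5⟩

theorem exists_nx {S : Finset V} (h : Corners S) (h3 : 3 ≤ S.card) {v : V} (hv : v ∈ S) :
    ∃ w, Nx S v w := by
  obtain ⟨w, hw⟩ := (one S h h3).exists_next () hv (subset_convexHull ℝ _ hv)
  exact ⟨w, (nx_iff h h3).2 hw⟩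

theorem nx_unique {S : Finset V} (h : Corners S) (h3 : 3 ≤ S.card) {v w w' : V}
    (h1 : Nx S v w) (h2 : Nx S v w') : w' = w :=
  (one S h h3).next_unique () ((nx_iff h h3).1 h1) ((nx_iff h h3).1 h2)

theorem nx_prev_unique {S : Finset V} (h : Corners S) (h3 : 3 ≤ S.card) {v v' w : V}
    (h1 : Nx S v w) (h2 : Nx S v' w) : v' = v :=
  (one S h h3).prev_unique () ((nx_iff h h3).1 h1) ((nx_iff h h3).1 h2)

/-- strictness -/
theorem Nx.pos {S : Finset V} (h : Corners S) {v w x : V} (h1 : Nx S v w) (hx : x ∈ S)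
    (hxv : x ≠ v) (hxw : x ≠ w) : 0 < cr (w - v) (x - v) :=
  lt_of_le_of_ne (h1.2.2.2 x (subset_convexHull ℝ _ hx))
    (h.cr_ne h1.1 h1.2.1 hx h1.2.2.1.symm hxv.symm hxw.symm).symm

/-- the hull is the intersection of the half planes of its sides -/
theorem hull_eq {S : Finset V} (h : Corners S) (h3 : 3 ≤ S.card) :
    convexHull ℝ (S : Set V) = {x | ∀ v w, Nx S v w → 0 ≤ cr (w - v) (x - v)} := by
  have h1 := (one S h h3).hrep ()
  have h2 : (one S h h3).P () = convexHull ℝ (S : Set V) := rfl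
  rw [h2] at h1
  conv_lhs => rw [h1]
  ext x
  constructor
  · intro hx v w hvw
    exact hx v w ((nx_iff h h3).1 hvw)
  · intro hx v w hvw
    exact hx v w ((nx_iff h h3).2 hvw)

/-- no two-cycles -/
theorem nx_no_two {S : Finset V} (h : Corners S) (h3 : 3 ≤ S.card) {v w : V}
    (h1 : Nx S v w) (h2 : Nx S w v) : False := by
  obtain ⟨x, hx, hxv, hxw⟩ : ∃ x ∈ S, x ≠ v ∧ x ≠ w := by
    by_contra hcon
    push Not at hcon
    have : S ⊆ {v, w} := by
      intro x hx
      simp only [Finset.mem_insert, Finset.mem_singleton]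
      by_cases hxv : x = v
      · exact Or.inl hxv
      · exact Or.inr (hcon x hx hxv)
    have h4 := Finset.card_le_card this
    have h5 := Finset.card_le_two (a := v) (b := w)
    omega
  have h4 := h1.pos h hx hxv hxw
  have h5 := h2.pos h hx hxw hxv
  have h6 : cr (v - w) (x - w) = - cr (w - v) (x - v) := by simp [cr]; ring
  linarith

/-- A subset closed under `Nx` with at least one point is everything. -/
theorem closed_eq {S O : Finset V} (h : Corners S) (h3 : 3 ≤ S.card) (hO : O ⊆ S)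
    (hne : O.Nonempty) (hcl : ∀ v ∈ O, ∀ w, Nx S v w → w ∈ O) : O = S := by
  -- O has at least three points
  obtain ⟨p, hp⟩ := hne
  obtain ⟨p1, hp1⟩ := exists_nx h h3 (hO hp)
  have hp1O := hcl p hp p1 hp1
  obtain ⟨p2, hp2⟩ := exists_nx h h3 (hO hp1O)
  have hp2O := hcl p1 hp1O p2 hp2
  have hp02 : p ≠ p2 := by
    rintro rfl
    exact nx_no_two h h3 hp1 hp2
  have hO3 : 3 ≤ O.card := by
    have : 2 < O.card := Finset.two_lt_card_iff.2
      ⟨p, p1, p2, hp, hp1O, hp2O, hp1.2.2.1.symm, hp02, hp2.2.2.1.symm⟩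
    omega
  have hOc := h.mono hO
  apply Finset.Subset.antisymm hO
  intro z hz
  by_contra hzO
  apply h z hz
  have hz1 : z ∈ convexHull ℝ (O : Set V) := by
    rw [hull_eq hOc hO3]
    intro v w hvw
    obtain ⟨w', hw'⟩ := exists_nx h h3 (hO hvw.1)
    have hw'O := hcl v hvw.1 w' hw'
    have h4 : Nx O v w' := ⟨hvw.1, hw'O, hw'.2.2.1, fun x hx =>
      hw'.2.2.2 x (convexHull_mono (by exact_mod_cast hO) hx)⟩
    have h5 := nx_unique hOc hO3 hvw h4
    rw [← h5]
    exact hw'.2.2.2 z (subset_convexHull ℝ _ hz)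
  refine convexHull_mono ?_ hz1
  intro y hy
  exact ⟨hO hy, fun hh => hzO (by rw [← (by simpa using hh : y = z)]; exact hy)⟩

/-- the next corner as a permutation -/
theorem exists_perm {S : Finset V} (h : Corners S) (h3 : 3 ≤ S.card) :
    ∃ σ : Equiv.Perm {v // v ∈ S}, ∀ v, Nx S v.1 (σ v).1 := by
  choose nx hnx using fun s : {v // v ∈ S} => exists_nx h h3 s.2
  let F : {v // v ∈ S} → {v // v ∈ S} := fun s => ⟨nx s, (hnx s).2.1⟩
  have hinj : Function.Injective F := by
    intro a b hab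
    have h1 : nx a = nx b := congrArg Subtype.val hab
    have h2 := hnx a
    rw [h1] at h2
    exact Subtype.ext (nx_prev_unique h h3 (hnx b) h2)
  exact ⟨Equiv.ofBijective F (Finite.injective_iff_bijective.1 hinj), fun v => hnx v⟩

theorem perm_cycle {S : Finset V} (h : Corners S) (h3 : 3 ≤ S.card)
    {σ : Equiv.Perm {v // v ∈ S}} (hσ : ∀ v, Nx S v.1 (σ v).1) :
    σ.IsCycleOn (Finset.univ : Finset {v // v ∈ S}) := by
  classical
  refine ⟨by simpa using σ.bijective, ?_⟩
  intro a _ b _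
  -- forward orbit of a
  let O : Finset V := S.filter fun z => ∃ k : ℕ, ((σ ^ k) a).1 = z
  have hOS : O ⊆ S := Finset.filter_subset _ _
  have hne : O.Nonempty := ⟨a.1, by simp only [O, Finset.mem_filter]; exact ⟨a.2, 0, by simp⟩⟩
  have hcl : ∀ v ∈ O, ∀ w, Nx S v w → w ∈ O := by
    intro v hv w hvw
    simp only [O, Finset.mem_filter] at hv ⊢
    obtain ⟨hvS, k, hk⟩ := hv
    refine ⟨hvw.2.1, k + 1, ?_⟩
    rw [pow_succ', Equiv.Perm.mul_apply]
    have h4 := hσ ((σ ^ k) a)
    rw [hk] at h4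
    exact nx_unique h h3 hvw h4
  have hOeq := closed_eq h h3 hOS hne hcl
  have hb : b.1 ∈ O := by rw [hOeq]; exact b.2
  simp only [O, Finset.mem_filter] at hb
  obtain ⟨_, k, hk⟩ := hb
  exact ⟨k, by rw [zpow_natCast]; exact Subtype.ext hk⟩

/-- CYCLIC ORDER of the corners, natural number version. -/
theorem exists_seq {S : Finset V} (h : Corners S) (h3 : 3 ≤ S.card) {p : V} (hp : p ∈ S) :
    ∃ q : ℕ → V, q 0 = p ∧ (∀ i j, q i = q j ↔ i ≡ j [MOD S.card]) ∧
      (∀ z, z ∈ S ↔ ∃ k < S.card, q k = z) ∧ ∀ k, Nx S (q k) (q (k + 1)) := by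
  classical
  obtain ⟨σ, hσ⟩ := exists_perm h h3
  have hc := perm_cycle h h3 hσ
  have hcard : (Finset.univ : Finset {v // v ∈ S}).card = S.card := by
    rw [Finset.card_univ, Fintype.card_coe]
  refine ⟨fun n => ((σ ^ n) ⟨p, hp⟩).1, by simp, ?_, ?_, ?_⟩
  · intro i j
    have h4 := hc.pow_apply_eq_pow_apply (m := i) (n := j) (Finset.mem_univ ⟨p, hp⟩)
    rw [hcard] at h4
    rw [← h4]
    exact ⟨fun h5 => Subtype.ext h5, fun h5 => congrArg Subtype.val h5⟩
  · intro z
    constructor
    · intro hz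
      obtain ⟨n, hn, hn'⟩ := hc.exists_pow_eq (Finset.mem_univ ⟨p, hp⟩)
        (Finset.mem_univ (⟨z, hz⟩ : {v // v ∈ S}))
      rw [hcard] at hn
      exact ⟨n, hn, congrArg Subtype.val hn'⟩
    · rintro ⟨k, _, rfl⟩
      exact ((σ ^ k) ⟨p, hp⟩).2
  · intro k
    have h4 := hσ ((σ ^ k) ⟨p, hp⟩)
    rw [← Equiv.Perm.mul_apply, ← pow_succ'] at h4
    exact h4

/-- a periodic sequence on `ZMod m` -/
theorem exists_cyclic_aux {S : Finset V} (h : Corners S) {m : ℕ} [NeZero m] (hm : S.card = m)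
    (h3 : 3 ≤ m) {p : V} (hp : p ∈ S) :
    ∃ q : ZMod m → V, q 0 = p ∧ Function.Injective q ∧ range q = (S : Set V) ∧
      ∀ k, Nx S (q k) (q (k + 1)) := by
  subst hm
  obtain ⟨q, h0, h1, h2, h4⟩ := exists_seq h h3 hp
  refine ⟨fun k => q k.val, by simp [h0], ?_, ?_, ?_⟩
  · intro a b hab
    have h5 := (h1 _ _).1 hab
    have h6 : a.val = b.val := by
      have := h5
      unfold Nat.ModEq at this
      rw [Nat.mod_eq_of_lt (ZMod.val_lt a), Nat.mod_eq_of_lt (ZMod.val_lt b)] at this
      exact this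
    exact ZMod.val_injective _ h6
  · ext z
    constructor
    · rintro ⟨k, rfl⟩
      exact (h2 _).2 ⟨k.val, ZMod.val_lt k, rfl⟩
    · intro hz
      obtain ⟨k, hk, hkz⟩ := (h2 z).1 hz
      refine ⟨(k : ZMod S.card), ?_⟩
      simp only
      rw [ZMod.val_natCast, Nat.mod_eq_of_lt hk]
      exact hkz
  · intro k
    have h5 : q (k + 1).val = q (k.val + 1) := by
      rw [h1]
      have h6 : (k + 1).val = (k.val + 1) % S.card := by
        rw [ZMod.val_add, ZMod.val_one'' (by omega)]
      rw [h6]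
      exact Nat.mod_modEq _ _
    simp only
    rw [h5]
    exact h4 _

end C2305bH68.Ord
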