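import Pool.Agent.W_c2305b_h35.Area
import Pool.Agent.W_c2305b_h74.Order
import Pool.Agent.W_c2305b_h68.Ord

/-!
# The vertices of a tile in cyclic order

All vertices of the tiling on the boundary of a tile (straight ones included), enumerated by
`q : ZMod m → V` with `T.E i (q k) (q (k + 1))`; convex order and area for six vertices.
-/

open MeasureTheory Set C2305b.TL

namespace C2305bH68.Cyc

variable {ι : Type*} (T : Tiling ι)

/-- three points not on a line give interior points of the hull -/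
theorem interior_nonempty_of {S : Set V} {a b c : V} (ha : a ∈ S) (hb : b ∈ S) (hc : c ∈ S)
    (h0 : cr (b - a) (c - a) ≠ 0) : (interior (convexHull ℝ S)).Nonempty := by
  rw [interior_convexHull_nonempty_iff_affineSpan_eq_top, eq_top_iff]
  intro x _
  have ha' : a ∈ affineSpan ℝ S := subset_affineSpan ℝ _ ha
  have hb' : b ∈ affineSpan ℝ S := subset_affineSpan ℝ _ hb
  have hc' : c ∈ affineSpan ℝ S := subset_affineSpan ℝ _ hc
  have h1 := (affineSpan ℝ S).smul_vsub_vadd_mem
    (cr (b - a) (x - a) / cr (b - a) (c - a)) hc' ha' ha'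
  have h2 := (affineSpan ℝ S).smul_vsub_vadd_mem
    (cr (x - a) (c - a) / cr (b - a) (c - a)) hb' ha' h1
  have hx : x = (cr (x - a) (c - a) / cr (b - a) (c - a)) • (b -ᵥ a) +ᵥ
      ((cr (b - a) (x - a) / cr (b - a) (c - a)) • (c -ᵥ a) +ᵥ a) := by
    simp only [vsub_eq_sub, vadd_eq_add]
    have h4 : cr (b - a) (c - a) • (x - a)
        = cr (x - a) (c - a) • (b - a) + cr (b - a) (x - a) • (c - a) := by
      ext k
      fin_cases k
      · simp [cr]; ring
      · simp [cr]; ring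
    have h5 : x - a = (cr (b - a) (c - a))⁻¹ • (cr (b - a) (c - a) • (x - a)) := by
      rw [smul_smul, inv_mul_cancel₀ h0, one_smul]
    have h6 : x = (x - a) + a := by abel
    conv_lhs => rw [h6, h5, h4]
    rw [smul_add, smul_smul, smul_smul]
    simp only [div_eq_inv_mul]
    abel
  rw [hx]
  exact h2

/-- A nonempty set of vertices of a tile which is closed under `next` and `prev` is not on a
line. -/
theorem exists_noncollinear (i : ι) {O : Finset V} (hne : O.Nonempty)
    (hO : ∀ v ∈ O, v ∈ T.verts i)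
    (hn : ∀ v ∈ O, ∀ w, T.E i v w → w ∈ O) (hp : ∀ w ∈ O, ∀ v, T.E i v w → v ∈ O) :
    ∃ a ∈ O, ∃ b ∈ O, ∃ c ∈ O, cr (b - a) (c - a) ≠ 0 := by
  by_contra hcon
  push Not at hcon
  obtain ⟨v0, hv0⟩ := hne
  have hv0' := T.mem_verts.1 (hO v0 hv0)
  obtain ⟨v1, h01⟩ := T.exists_next i hv0'.1 hv0'.2
  have hv1 := hn v0 hv0 v1 h01
  set u := v1 - v0 with hu
  have hu0 : u ≠ 0 := sub_ne_zero.2 h01.2.2.1
  have hline : ∀ z ∈ O, ∃ t : ℝ, z = v0 + t • u := by
    intro z hz
    obtain ⟨t, ht⟩ := exists_smul_of_cr_eq_zero hu0 (hcon v0 hv0 v1 hv1 z hz)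
    exact ⟨t, by rw [← ht]; abel⟩
  obtain ⟨v, hv, hmax⟩ := Finset.exists_max_image O (fun z => dt u z) ⟨v0, hv0⟩
  have hv' := T.mem_verts.1 (hO v hv)
  obtain ⟨w, hvw⟩ := T.exists_next i hv'.1 hv'.2
  obtain ⟨p, hpv⟩ := T.exists_prev i hv'.1 hv'.2
  have hw := hn v hv w hvw
  have hpO := hp v hv p hpv
  obtain ⟨tv, htv⟩ := hline v hv
  obtain ⟨tw, htw⟩ := hline w hw
  obtain ⟨tp, htp⟩ := hline p hpO
  have hdt : ∀ t : ℝ, dt u (v0 + t • u) = dt u v0 + t * dt u u := by
    intro t; simp [dt]; ring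
  have hpos := dt_self_pos hu0
  have m1 := hmax w hw
  have m2 := hmax p hpO
  rw [htv, htw, hdt, hdt] at m1
  rw [htv, htp, hdt, hdt] at m2
  have l1 : tw ≤ tv := by
    by_contra h
    push Not at h
    nlinarith
  have l2 : tp ≤ tv := by
    by_contra h
    push Not at h
    nlinarith
  have n1 : tw ≠ tv := by
    rintro rfl
    exact hvw.2.2.1 (by rw [htv, htw])
  have n2 : tp ≠ tv := by
    rintro rfl
    exact hpv.2.2.1 (by rw [htv, htp])
  have s1 : tw < tv := lt_of_le_of_ne l1 n1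
  have s2 : tp < tv := lt_of_le_of_ne l2 n2
  obtain ⟨o, ho⟩ := T.nonem i
  have c1 := cr_pos_of_mem_interior (sub_ne_zero.2 hvw.2.2.1) hvw.2.2.2.1 ho
  have c2 := cr_pos_of_mem_interior (sub_ne_zero.2 hpv.2.2.1) hpv.2.2.2.1 ho
  have e1 : w - v = (tw - tv) • u := by rw [htw, htv]; module
  have e2 : v - p = (tv - tp) • u := by rw [htv, htp]; module
  have e3 : o - p = (o - v) + (tv - tp) • u := by rw [← e2]; abel
  rw [e1, cr_smul_left] at c1
  rw [e2, cr_smul_left, e3, cr_add_right, cr_smul_right, cr_self, mul_zero, add_zero] at c2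
  have p2 : 0 < cr u (o - v) := by
    by_contra h
    push Not at h
    nlinarith
  nlinarith

/-- A nonempty set of vertices closed under `next` and `prev` is everything. -/
theorem closed_eq (i : ι) {O : Finset V} (hne : O.Nonempty) (hO : O ⊆ T.verts i)
    (hn : ∀ v ∈ O, ∀ w, T.E i v w → w ∈ O) (hp : ∀ w ∈ O, ∀ v, T.E i v w → v ∈ O) :
    O = T.verts i := by
  classical
  obtain ⟨a, ha, b, hb, c, hc, habc⟩ := exists_noncollinear T i hne (fun v hv => hO hv) hn hp
  have hOP : ∀ v ∈ O, v ∈ T.W ∧ v ∈ T.P i := fun v hv => T.mem_verts.1 (hO hv)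
  have hsub : convexHull ℝ (O : Set V) ⊆ T.P i :=
    convexHull_min (fun v hv => (hOP v hv).2) (T.conv i)
  let T' : Tiling Unit :=
    { R := convexHull ℝ (O : Set V)
      P := fun _ => convexHull ℝ (O : Set V)
      W := O
      convR := convex_convexHull ℝ _
      conv := fun _ => convex_convexHull ℝ _
      comp := fun _ => Set.Finite.isCompact_convexHull (𝕜 := ℝ) O.finite_toSet
      nonem := fun _ => interior_nonempty_of (S := (O : Set V)) ha hb hc habc
      disj := fun i j hij => absurd (Subsingleton.elim i j) hij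
      union := iUnion_const _
      hull := fun _ => by
        congr 1
        exact (inter_eq_left.2 (subset_convexHull ℝ _)).symm
      vert := fun _ v hv hvi => T.vert i v (hOP v hv).1 (interior_mono hsub hvi) }
  have hE : ∀ v ∈ O, ∀ w, T.E i v w → T'.E () v w := by
    intro v hv w hvw
    refine ⟨⟨hv, subset_convexHull ℝ _ hv⟩, ⟨hn v hv w hvw, subset_convexHull ℝ _ (hn v hv w hvw)⟩,
      hvw.2.2.1, fun x hx => hvw.2.2.2.1 x (hsub hx), ?_⟩
    intro y hy
    exact hvw.2.2.2.2 y (hOP y hy).1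
  have hE' : ∀ v w, T'.E () v w → T.E i v w := by
    intro v w hvw
    have hv : v ∈ O := hvw.1.1
    obtain ⟨w', hw'⟩ := T.exists_next i (hOP v hv).1 (hOP v hv).2
    have h1 := hE v hv w' hw'
    have h2 := T'.next_unique () h1 hvw
    rw [h2]; exact hw'
  have hP : T.P i = convexHull ℝ (O : Set V) := by
    apply Subset.antisymm _ hsub
    have h1 := T'.hrep ()
    have h2 : T'.P () = convexHull ℝ (O : Set V) := rfl
    rw [← h2, h1]
    intro x hx v w hvw
    exact (hE' v w hvw).2.2.2.1 x hx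
  apply Finset.Subset.antisymm hO
  intro z hz
  have hz' := T.mem_verts.1 hz
  by_contra hzO
  have hzi : z ∉ interior (T'.P ()) := by
    have h2 : T'.P () = T.P i := hP.symm
    rw [h2]
    exact T.vert i z hz'.1
  have hzP : z ∈ T'.P () := by
    have h2 : T'.P () = T.P i := hP.symm
    rw [h2]
    exact hz'.2
  obtain ⟨v, w, hvw, hseg⟩ := T'.exists_edge () hzP hzi
  have hvO : v ∈ O := hvw.1.1
  have hwO : w ∈ O := hvw.2.1.1
  have h3 := hE' v w hvw
  apply h3.2.2.2.2 z hz'.1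
  refine mem_openSegment_of_ne_left_right ?_ ?_ hseg
  · rintro rfl; exact hzO hvO
  · rintro rfl; exact hzO hwO

/-- the next vertex as a permutation -/
theorem exists_perm (i : ι) :
    ∃ σ : Equiv.Perm {v // v ∈ T.verts i}, ∀ v, T.E i v.1 (σ v).1 := by
  choose nx hnx using fun s : {v // v ∈ T.verts i} =>
    T.exists_next i (T.mem_verts.1 s.2).1 (T.mem_verts.1 s.2).2
  let F : {v // v ∈ T.verts i} → {v // v ∈ T.verts i} :=
    fun s => ⟨nx s, T.mem_verts.2 (hnx s).2.1⟩
  have hinj : Function.Injective F := by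
    intro a b hab
    have h1 : nx a = nx b := congrArg Subtype.val hab
    have h2 := hnx a
    rw [h1] at h2
    exact Subtype.ext (T.prev_unique i (hnx b) h2)
  exact ⟨Equiv.ofBijective F (Finite.injective_iff_bijective.1 hinj), fun v => hnx v⟩

theorem perm_cycle (i : ι) {σ : Equiv.Perm {v // v ∈ T.verts i}}
    (hσ : ∀ v, T.E i v.1 (σ v).1) :
    σ.IsCycleOn (Finset.univ : Finset {v // v ∈ T.verts i}) := by
  classical
  refine ⟨by simpa using σ.bijective, ?_⟩
  intro a _ b _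
  let O : Finset V := (T.verts i).filter fun z => ∃ h : z ∈ T.verts i, σ.SameCycle a ⟨z, h⟩
  have hOS : O ⊆ T.verts i := Finset.filter_subset _ _
  have hne : O.Nonempty :=
    ⟨a.1, by simp only [O, Finset.mem_filter]; exact ⟨a.2, a.2, Equiv.Perm.SameCycle.refl _ _⟩⟩
  have hn : ∀ v ∈ O, ∀ w, T.E i v w → w ∈ O := by
    intro v hv w hvw
    simp only [O, Finset.mem_filter] at hv ⊢
    obtain ⟨hvS, h, hk⟩ := hv
    have h4 := hσ ⟨v, h⟩
    have h5 : w = (σ ⟨v, h⟩).1 := T.next_unique i h4 hvw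
    have h6 : w ∈ T.verts i := by rw [h5]; exact (σ ⟨v, h⟩).2
    refine ⟨h6, h6, ?_⟩
    have h7 : (⟨w, h6⟩ : {v // v ∈ T.verts i}) = σ ⟨v, h⟩ := Subtype.ext h5
    rw [h7]
    exact Equiv.Perm.sameCycle_apply_right.2 hk
  have hp : ∀ w ∈ O, ∀ v, T.E i v w → v ∈ O := by
    intro w hw v hvw
    simp only [O, Finset.mem_filter] at hw ⊢
    obtain ⟨hwS, h, hk⟩ := hw
    have hv : v ∈ T.verts i := T.mem_verts.2 hvw.1
    have h4 := hσ ⟨v, hv⟩
    have h5 : w = (σ ⟨v, hv⟩).1 := T.next_unique i h4 hvw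
    refine ⟨hv, hv, ?_⟩
    have h7 : (⟨w, h⟩ : {v // v ∈ T.verts i}) = σ ⟨v, hv⟩ := Subtype.ext h5
    rw [h7] at hk
    exact Equiv.Perm.sameCycle_apply_right.1 hk
  have hOeq := closed_eq T i hne hOS hn hp
  have hb : b.1 ∈ O := by rw [hOeq]; exact b.2
  simp only [O, Finset.mem_filter] at hb
  obtain ⟨_, _, hk⟩ := hb
  exact hk

/-- CYCLIC ORDER of the vertices of a tile. -/
theorem exists_cycle (i : ι) {m : ℕ} [NeZero m] (hm : (T.verts i).card = m) {v : V}
    (hv : v ∈ T.verts i) :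
    ∃ q : ZMod m → V, q 0 = v ∧ Function.Injective q ∧ range q = (T.verts i : Set V) ∧
      (∀ k, T.E i (q k) (q (k + 1))) ∧
      (volume (T.P i)).toReal = (∑ k, cr (q k) (q (k + 1))) / 2 := by
  classical
  subst hm
  obtain ⟨σ, hσ⟩ := exists_perm T i
  have hc := perm_cycle T i hσ
  have hcard : (Finset.univ : Finset {v // v ∈ T.verts i}).card = (T.verts i).card := by
    rw [Finset.card_univ, Fintype.card_coe]
  let f : ℕ → V := fun n => ((σ ^ n) ⟨v, hv⟩).1
  have hf : ∀ a b : ℕ, f a = f b ↔ a ≡ b [MOD (T.verts i).card] := by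
    intro a b
    have h4 := hc.pow_apply_eq_pow_apply (m := a) (n := b) (Finset.mem_univ ⟨v, hv⟩)
    rw [hcard] at h4
    rw [← h4]
    exact ⟨fun h5 => Subtype.ext h5, fun h5 => congrArg Subtype.val h5⟩
  have hE : ∀ n, T.E i (f n) (f (n + 1)) := by
    intro n
    have h4 := hσ ((σ ^ n) ⟨v, hv⟩)
    rw [← Equiv.Perm.mul_apply, ← pow_succ'] at h4
    exact h4
  have hval : ∀ k : ZMod (T.verts i).card, f (k + 1).val = f (k.val + 1) := by
    intro k
    rw [hf, ZMod.val_add]
    have h6 : ((1 : ZMod (T.verts i).card).val) ≡ 1 [MOD (T.verts i).card] := by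
      rw [ZMod.val_one_eq_one_mod]
      exact Nat.mod_modEq _ _
    exact (Nat.mod_modEq _ _).trans (Nat.ModEq.add_left _ h6)
  let q : ZMod (T.verts i).card → V := fun k => f k.val
  have hinj : Function.Injective q := by
    intro a b hab
    have h5 := (hf _ _).1 hab
    unfold Nat.ModEq at h5
    rw [Nat.mod_eq_of_lt (ZMod.val_lt a), Nat.mod_eq_of_lt (ZMod.val_lt b)] at h5
    exact ZMod.val_injective _ h5
  have hran : range q = (T.verts i : Set V) := by
    ext z
    constructor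
    · rintro ⟨k, rfl⟩
      exact ((σ ^ k.val) ⟨v, hv⟩).2
    · intro hz
      obtain ⟨n, hn, hn'⟩ := hc.exists_pow_eq (Finset.mem_univ ⟨v, hv⟩)
        (Finset.mem_univ (⟨z, hz⟩ : {v // v ∈ T.verts i}))
      rw [hcard] at hn
      refine ⟨(n : ZMod (T.verts i).card), ?_⟩
      simp only [q, f]
      rw [ZMod.val_natCast, Nat.mod_eq_of_lt hn]
      exact congrArg Subtype.val hn'
  have hEq : ∀ k, T.E i (q k) (q (k + 1)) := by
    intro k
    simp only [q]
    rw [hval]
    exact hE _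
  refine ⟨q, by simp [q, f], hinj, hran, hEq, ?_⟩
  rw [T.volume_tile']
  congr 1
  symm
  refine Finset.sum_bij (fun k _ => ((q k, q (k + 1)) : V × V)) ?_ ?_ ?_ ?_
  · intro k _
    exact T.mem_edges.2 (hEq k)
  · intro k _ l _ hkl
    exact hinj (congrArg Prod.fst hkl)
  · intro e he
    have h5 := T.mem_edges.1 he
    have h6 : e.1 ∈ range q := by rw [hran]; exact T.mem_verts.2 h5.1
    obtain ⟨k, hk⟩ := h6
    refine ⟨k, Finset.mem_univ k, ?_⟩
    have h7 : T.E i (q k) e.2 := by rw [hk]; exact h5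
    exact Prod.ext hk (T.next_unique i h7 (hEq k))
  · intro k _
    rfl

/-- [ORD] in the form of `T.E`, for tiles with six vertices. -/
theorem exists_six (i : ι) (hm : (T.verts i).card = 6) {v : V} (hv : v ∈ T.verts i) :
    ∃ q : Fin 6 → V, q 0 = v ∧ Function.Injective q ∧ range q = (T.verts i : Set V) ∧
      (∀ k, T.E i (q k) (q (k + 1))) ∧ C2305b.Rig.Conv6 q ∧
      (volume (T.P i)).toReal = C2305b.Rig.ar6 q := by
  obtain ⟨q, h0, h1, h2, h3, h4⟩ := exists_cycle T i (m := 6) hm hv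
  refine ⟨q, h0, h1, h2, h3, ?_, h4⟩
  have hver : ∀ l, q l ∈ T.verts i := by
    intro l
    have : q l ∈ (T.verts i : Set V) := by rw [← h2]; exact mem_range_self l
    exact this
  exact C2305b.Rig.O74.conv6_of_edges q h1
    (fun k l => (h3 k).2.2.2.1 (q l) (T.mem_verts.1 (hver l)).2)
    (fun k l => (h3 k).2.2.2.2 (q l) (T.mem_verts.1 (hver l)).1)

end C2305bH68.Cyc
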