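import Pool.Agent.W_c2305b_h28.FatJ3
import Mathlib.MeasureTheory.Measure.Lebesgue.VolumeOfBalls

/-!
# MP_c2305b_co, bounded eccentricity, brick B5, part 1: packing, common vertices of two cells
-/

open MeasureTheory Set Module Topology

namespace C2305bFat

open W82

variable {ι : Type*} {D : Set V} {P : ι → Set V}

/-- A point of an open segment with different ends in `X` is not extreme. -/
theorem not_ext_of_between {X : Set V} {x y z : V} (hx : x ∈ X) (hy : y ∈ X) (hxy : x ≠ y)
    (hz : z ∈ openSegment ℝ x y) : z ∉ X.extremePoints ℝ := by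
  intro hne
  have h1 := (mem_extremePoints.mp hne).2 x hx y hy hz
  exact hxy (h1.1.trans h1.2.symm)

/-- A vertex of the tiling is not strictly between two common points of two cells. -/
theorem not_between (h : Tiling D P) {i j : ι} (hij : i ≠ j) {x y z : V}
    (hz : z ∈ ⋃ k, S P k) (hzi : z ∈ P i) (hzj : z ∈ P j) (hxi : x ∈ P i) (hxj : x ∈ P j)
    (hyi : y ∈ P i) (hyj : y ∈ P j) (hxy : x ≠ y) (hb : z ∈ openSegment ℝ x y) : False := by
  obtain ⟨k, hk⟩ := mem_iUnion.mp hz
  exact h.claimB hij hk.1 hzi (not_ext_of_between hxi hyi hxy hb) hzj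
    (not_ext_of_between hxj hyj hxy hb)

/-- Two cells do not have three common vertices. -/
theorem no_three_vert (h : Tiling D P) {i j : ι} (hij : i ≠ j) {x y z : V}
    (hx : x ∈ ⋃ k, S P k) (hy : y ∈ ⋃ k, S P k) (hz : z ∈ ⋃ k, S P k)
    (hxi : x ∈ P i) (hxj : x ∈ P j) (hyi : y ∈ P i) (hyj : y ∈ P j) (hzi : z ∈ P i)
    (hzj : z ∈ P j) (hxy : x ≠ y) (hzx : z ≠ x) (hzy : z ≠ y) : False := by
  obtain ⟨f, c, hf, h1, h2⟩ := h.sep hij
  have hfl : ∀ w, w ∈ P i → w ∈ P j → f w = c := fun w hw hw' =>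
    le_antisymm (h1 w hw) (h2 w hw')
  rcases between_of_line f hf (hfl x hxi hxj) (hfl y hyi hyj) (hfl z hzi hzj) hxy hzx hzy
    with h3 | h3 | h3
  · exact not_between h hij hx hxi hxj hzi hzj hyi hyj hzy h3
  · exact not_between h hij hz hzi hzj hxi hxj hyi hyj hxy h3
  · exact not_between h hij hy hyi hyj hxi hxj hzi hzj hzx.symm h3

/-- A set of vertices whose cells all belong to a finite set `G` has at most `2 |G|^2` members. -/
theorem card_vert_le [DecidableEq V] (h : Tiling D P) (G : Finset ι) (T : Finset V)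
    (hT : ∀ v ∈ T, v ∈ ⋃ k, S P k) (hG : ∀ v ∈ T, ∀ i, v ∈ P i → i ∈ G) :
    T.card ≤ 2 * G.card ^ 2 := by
  classical
  have hpair : ∀ v ∈ T, ∃ p : ι × ι, p.1 ≠ p.2 ∧ v ∈ P p.1 ∧ v ∈ P p.2 := by
    intro v hv
    obtain ⟨k, hk⟩ := mem_iUnion.mp (hT v hv)
    obtain ⟨i, j, hij, hi, hj⟩ := S_sub_Sh k hk
    exact ⟨(i, j), hij, hi, hj⟩
  rcases T.eq_empty_or_nonempty with rfl | ⟨v0, hv0⟩
  · simp
  have : Nonempty (ι × ι) := ⟨(hpair v0 hv0).choose⟩
  choose! g hg using hpair
  have hmaps : ∀ v ∈ T, g v ∈ G ×ˢ G := by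
    intro v hv
    obtain ⟨-, h1, h2⟩ := hg v hv
    exact Finset.mem_product.mpr ⟨hG v hv _ h1, hG v hv _ h2⟩
  have hfib : ∀ p ∈ G ×ˢ G, (T.filter (fun v => g v = p)).card ≤ 2 := by
    intro p hp
    by_contra hcon
    push Not at hcon
    obtain ⟨x, y, z, hx, hy, hz, hxy, hxz, hyz⟩ := Finset.two_lt_card_iff.mp hcon
    rw [Finset.mem_filter] at hx hy hz
    obtain ⟨hx1, hx2, hx3⟩ := hg x hx.1
    obtain ⟨-, hy2, hy3⟩ := hg y hy.1
    obtain ⟨-, hz2, hz3⟩ := hg z hz.1
    rw [hx.2] at hx1 hx2 hx3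
    rw [hy.2] at hy2 hy3
    rw [hz.2] at hz2 hz3
    exact no_three_vert h hx1 (hT x hx.1) (hT y hy.1) (hT z hz.1) hx2 hx3 hy2 hy3 hz2 hz3 hxy
      hxz.symm hyz.symm
  have := Finset.card_le_mul_card_image_of_maps_to hmaps 2 hfib
  rw [Finset.card_product] at this
  calc T.card ≤ 2 * (G.card * G.card) := this
    _ = 2 * G.card ^ 2 := by ring

/-- Packing. -/
theorem packing68 (h : Tiling D P) {a R : ℝ} (hR : 0 ≤ R) (c : V) (s : Finset ι)
    (h1 : ∀ i ∈ s, a ≤ (volume (P i)).toReal) (h2 : ∀ i ∈ s, P i ⊆ Metric.closedBall c R) :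
    (s.card : ℝ) * a ≤ 4 * R ^ 2 := by
  classical
  have hvol : ∀ i, volume (P i) = volume (interior (P i)) := by
    intro i
    apply le_antisymm
    · calc volume (P i) ≤ volume (closure (interior (P i))) := measure_mono (h.reg i)
        _ ≤ volume (interior (P i) ∪ frontier (interior (P i))) := by
            rw [← closure_eq_self_union_frontier]
        _ ≤ volume (interior (P i)) + volume (frontier (interior (P i))) := measure_union_le _ _
        _ = volume (interior (P i)) := by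
            rw [(h.conv i).interior.addHaar_frontier volume, add_zero]
    · exact measure_mono interior_subset
  have hfin : ∀ i, volume (P i) ≠ ⊤ := fun i => (h.comp i).measure_lt_top.ne
  have hsum : ∑ i ∈ s, volume (interior (P i)) = volume (⋃ i ∈ s, interior (P i)) := by
    rw [measure_biUnion_finset]
    · intro i _ j _ hij
      exact h.disj i j hij
    · intro i _
      exact isOpen_interior.measurableSet
  have hle : volume (⋃ i ∈ s, interior (P i)) ≤ volume (Metric.closedBall c R) := by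
    apply measure_mono
    exact iUnion₂_subset fun i hi => interior_subset.trans (h2 i hi)
  have hball : (volume (Metric.closedBall c R)).toReal ≤ 4 * R ^ 2 := by
    rw [EuclideanSpace.volume_closedBall_fin_two]
    rw [ENNReal.toReal_mul, ENNReal.toReal_pow, ENNReal.toReal_ofReal hR]
    rw [ENNReal.toReal_ofReal Real.pi_pos.le]
    nlinarith [Real.pi_lt_four, Real.pi_pos, sq_nonneg R]
  have hballfin : volume (Metric.closedBall c R) ≠ ⊤ :=
    (isCompact_closedBall c R).measure_lt_top.ne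
  calc (s.card : ℝ) * a = ∑ i ∈ s, a := by rw [Finset.sum_const, nsmul_eq_mul]
    _ ≤ ∑ i ∈ s, (volume (P i)).toReal := Finset.sum_le_sum h1
    _ = (∑ i ∈ s, volume (P i)).toReal := (ENNReal.toReal_sum fun i _ => hfin i).symm
    _ = (∑ i ∈ s, volume (interior (P i))).toReal := by
        congr 1
        exact Finset.sum_congr rfl fun i _ => hvol i
    _ = (volume (⋃ i ∈ s, interior (P i))).toReal := by rw [hsum]
    _ ≤ (volume (Metric.closedBall c R)).toReal := ENNReal.toReal_mono hballfin hle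
    _ ≤ 4 * R ^ 2 := hball

end C2305bFat
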