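import Pool.Agent.W_c2305b_h68.Cluster1

/-!
# MP_c2305b_co, bounded eccentricity, brick B5: clusters and the cut-off function
-/

open MeasureTheory Set Module Topology Relation

namespace C2305bFat

open W82

variable {ι : Type*} {D : Set V} {P : ι → Set V}

/-- Proximity graph on a set `W`. -/
def Adj (W : Set V) (l : ℝ) (x y : V) : Prop := x ∈ W ∧ y ∈ W ∧ dist x y < l

/-- Cluster relation. -/
def Clu (W : Set V) (l : ℝ) : V → V → Prop := ReflTransGen (Adj W l)

theorem Adj.symm {W : Set V} {l : ℝ} {x y : V} (h : Adj W l x y) : Adj W l y x :=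
  ⟨h.2.1, h.1, by rw [dist_comm]; exact h.2.2⟩

theorem Clu.symm {W : Set V} {l : ℝ} {x y : V} (h : Clu W l x y) : Clu W l y x := by
  induction h with
  | refl => exact ReflTransGen.refl
  | tail _ hbc ih => exact ReflTransGen.head hbc.symm ih

theorem Clu.mem {W : Set V} {l : ℝ} {x y : V} (h : Clu W l x y) (hx : x ∈ W) : y ∈ W := by
  rcases ReflTransGen.cases_tail h with h1 | ⟨z, -, h2⟩
  · rw [h1]; exact hx
  · exact h2.2.1

/-- The cluster setoid. -/
def cluS (W : Set V) (l : ℝ) : Setoid V where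
  r := Clu W l
  iseqv := ⟨fun _ => ReflTransGen.refl, fun h => Clu.symm h, fun h h' => ReflTransGen.trans h h'⟩

/-- Representative of the cluster. -/
noncomputable def crep (W : Set V) (l : ℝ) (v : V) : V := (Quotient.mk (cluS W l) v).out

theorem crep_eq_iff {W : Set V} {l : ℝ} {v w : V} : crep W l v = crep W l w ↔ Clu W l v w := by
  unfold crep
  rw [Quotient.out_inj]
  exact Quotient.eq (r := cluS W l)

/-- Intermediate values of the distance along a chain. -/
theorem Clu.step {W : Set V} {l T : ℝ} {v w : V} (hT : 0 < T) (h : Clu W l v w)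
    (hd : T ≤ dist v w) : ∃ u, Clu W l v u ∧ u ∈ W ∧ T ≤ dist v u ∧ dist v u < T + l := by
  induction h with
  | refl => rw [dist_self] at hd; exact absurd hd (not_le.mpr hT)
  | @tail b c hb hbc ih =>
    by_cases h1 : T ≤ dist v b
    · exact ih h1
    · push Not at h1
      refine ⟨c, ReflTransGen.tail hb hbc, hbc.2.1, hd, ?_⟩
      have := dist_triangle v b c
      linarith [hbc.2.2]

/-- The values whose infimum is the cut-off function. -/
def cutSet (W Z : Set V) (l k : ℝ) (v : V) : Set ℝ :=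
  {t | t = 1 ∨ ∃ w, Clu W l v w ∧ ∃ z ∈ Z, t = dist w z / k}

/-- The cut-off function. -/
noncomputable def cutf (W Z : Set V) (l k : ℝ) (v : V) : ℝ := sInf (cutSet W Z l k v)

theorem cutSet_nonneg {W Z : Set V} {l k : ℝ} (hk : 0 ≤ k) {v : V} {t : ℝ}
    (ht : t ∈ cutSet W Z l k v) : 0 ≤ t := by
  rcases ht with h | ⟨w, -, z, -, h⟩
  · rw [h]; exact zero_le_one
  · rw [h]; exact div_nonneg dist_nonneg hk

theorem cutSet_one {W Z : Set V} {l k : ℝ} (v : V) : (1 : ℝ) ∈ cutSet W Z l k v := Or.inl rfl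

theorem cutf_le {W Z : Set V} {l k : ℝ} (hk : 0 ≤ k) {v : V} {t : ℝ}
    (ht : t ∈ cutSet W Z l k v) : cutf W Z l k v ≤ t :=
  csInf_le ⟨0, fun _ h => cutSet_nonneg hk h⟩ ht

theorem le_cutf {W Z : Set V} {l k : ℝ} {v : V} {s : ℝ}
    (h : ∀ t ∈ cutSet W Z l k v, s ≤ t) : s ≤ cutf W Z l k v :=
  le_csInf ⟨1, cutSet_one v⟩ h

theorem cutf_clu {W Z : Set V} {l k : ℝ} {v w : V} (h : Clu W l v w) :
    cutf W Z l k v = cutf W Z l k w := by
  have : cutSet W Z l k v = cutSet W Z l k w := by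
    ext t
    constructor
    · rintro (h1 | ⟨u, hu, h1⟩)
      · exact Or.inl h1
      · exact Or.inr ⟨u, ReflTransGen.trans h.symm hu, h1⟩
    · rintro (h1 | ⟨u, hu, h1⟩)
      · exact Or.inl h1
      · exact Or.inr ⟨u, ReflTransGen.trans h hu, h1⟩
  unfold cutf
  rw [this]

theorem cutf_lt_one {W Z : Set V} {l k : ℝ} (hk : 0 < k) {v : V}
    (h : cutf W Z l k v < 1) : ∃ w, Clu W l v w ∧ ∃ z ∈ Z, dist w z < k := by
  obtain ⟨t, ht, ht1⟩ := exists_lt_of_csInf_lt ⟨1, cutSet_one v⟩ h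
  rcases ht with h1 | ⟨w, hw, z, hz, h1⟩
  · rw [h1] at ht1; exact absurd ht1 (lt_irrefl _)
  · refine ⟨w, hw, z, hz, ?_⟩
    rw [h1, div_lt_one hk] at ht1
    exact ht1

/-- Clusters which leave the disc of radius `1` meet `Z` in that disc. -/
theorem chain_lemma {W Z : Set V} {N : ℕ} {v w : V} (hv : v ∈ W)
    (hcard : ∀ T : Finset V, (∀ u ∈ T, u ∈ W) → (∀ u ∈ T, u ∉ Z) → (∀ u ∈ T, dist v u ≤ 1) →
      T.card ≤ N)
    (h : Clu W (1 / (N + 1 : ℝ)) v w) (hd : 1 < dist v w) :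
    ∃ z ∈ Z, Clu W (1 / (N + 1 : ℝ)) v z ∧ dist v z ≤ 1 := by
  classical
  by_contra hcon
  push Not at hcon
  set l : ℝ := 1 / (N + 1 : ℝ) with hl
  have hN : (0 : ℝ) < N + 1 := by positivity
  have hl0 : 0 < l := by positivity
  have hl1 : (N + 1 : ℝ) * l = 1 := by rw [hl]; field_simp
  have hex : ∀ k : Fin (N + 1), ∃ u, Clu W l v u ∧ u ∈ W ∧ (k : ℝ) * l ≤ dist v u ∧
      dist v u < ((k : ℝ) + 1) * l := by
    intro k
    by_cases hk : (k : ℕ) = 0
    · refine ⟨v, ReflTransGen.refl, hv, ?_, ?_⟩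
      · rw [hk, dist_self]; simp
      · rw [hk, dist_self]; simpa using hl0
    · have hk1 : (0 : ℝ) < (k : ℝ) := by
        have : 0 < (k : ℕ) := Nat.pos_of_ne_zero hk
        exact_mod_cast this
      have hkN : (k : ℝ) ≤ N := by
        have := k.2
        have h2 : (k : ℕ) ≤ N := by omega
        exact_mod_cast h2
      obtain ⟨u, hu, huW, h1, h2⟩ := Clu.step (T := (k : ℝ) * l) (by positivity) h (by
        have : (k : ℝ) * l ≤ (N + 1 : ℝ) * l := by
          apply mul_le_mul_of_nonneg_right _ hl0.le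
          linarith
        linarith)
      exact ⟨u, hu, huW, h1, by linarith⟩
  choose g hg1 hg2 hg3 hg4 using hex
  have hinj : Function.Injective g := by
    intro a b hab
    have h1 := hg3 a
    have h2 := hg4 a
    have h3 := hg3 b
    have h4 := hg4 b
    rw [hab] at h1 h2
    have h5 : (a : ℝ) < (b : ℝ) + 1 := by
      have : (a : ℝ) * l < ((b : ℝ) + 1) * l := lt_of_le_of_lt h1 h4
      exact lt_of_mul_lt_mul_right this hl0.le
    have h6 : (b : ℝ) < (a : ℝ) + 1 := by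
      have : (b : ℝ) * l < ((a : ℝ) + 1) * l := lt_of_le_of_lt h3 h2
      exact lt_of_mul_lt_mul_right this hl0.le
    have h7 : (a : ℕ) < (b : ℕ) + 1 := by exact_mod_cast h5
    have h8 : (b : ℕ) < (a : ℕ) + 1 := by exact_mod_cast h6
    exact Fin.ext (by omega)
  have hle1 : ∀ k : Fin (N + 1), dist v (g k) ≤ 1 := by
    intro k
    have hkN : (k : ℝ) ≤ N := by
      have := k.2
      have h2 : (k : ℕ) ≤ N := by omega
      exact_mod_cast h2
    have : ((k : ℝ) + 1) * l ≤ (N + 1 : ℝ) * l := by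
      apply mul_le_mul_of_nonneg_right _ hl0.le
      linarith
    linarith [hg4 k]
  have := hcard (Finset.univ.image g) (by
    intro u hu
    obtain ⟨k, -, rfl⟩ := Finset.mem_image.mp hu
    exact hg2 k) (by
    intro u hu
    obtain ⟨k, -, rfl⟩ := Finset.mem_image.mp hu
    intro hz
    exact absurd (hle1 k) (not_le.mpr (hcon _ hz (hg1 k)))) (by
    intro u hu
    obtain ⟨k, -, rfl⟩ := Finset.mem_image.mp hu
    exact hle1 k)
  rw [Finset.card_image_of_injective _ hinj, Finset.card_univ, Fintype.card_fin] at this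
  omega

/-- **B5**: clusters and cut-off function. -/
theorem cluster (al a : ℝ) (hal : 0 ≤ al) (ha : 0 < a) :
    ∃ l0 : ℝ, 0 < l0 ∧ ∃ N0 : ℕ, ∃ C : ℝ, 0 < C ∧
    ∀ {ι : Type} [Finite ι] {D : Set V} {P : ι → Set V}, W82.Tiling D P →
    (∀ i, ∀ x ∈ P i, ∀ y ∈ P i, dist x y ≤ al) →
    ∀ (bad : Set ι), (∀ i, i ∉ bad → a ≤ (volume (P i)).toReal) →
    ∀ sp : Set V, sp.Finite → ∀ k0 : ℝ, 1 ≤ k0 →
    ∃ (c : V → V) (f : V → ℝ),
      (∀ v, 0 ≤ f v ∧ f v ≤ 1) ∧
      (∀ v ∈ ⋃ i, S P i, ∀ i ∈ bad, v ∈ P i → f v = 0) ∧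
      (∀ v ∈ ⋃ i, S P i, v ∈ sp → f v = 0) ∧
      (∀ v ∈ ⋃ i, S P i, ∀ w ∈ ⋃ i, S P i, dist v w < l0 → c v = c w) ∧
      (∀ v w, c v = c w → f v = f w) ∧
      (∀ i, ∀ v ∈ ⋃ i, S P i, ∀ w ∈ ⋃ i, S P i, v ∈ P i → w ∈ P i → |f v - f w| ≤ C / k0) ∧
      (({i | i ∉ bad ∧ ∃ v ∈ ⋃ i, S P i, v ∈ P i ∧ f v < 1}.ncard : ℝ) ≤
        C * k0 ^ 2 * (bad.ncard + sp.ncard)) ∧
      (∀ v ∈ ⋃ i, S P i, 0 < f v →
        (∀ w ∈ ⋃ i, S P i, c w = c v → dist v w ≤ 1) ∧
        {w | w ∈ ⋃ i, S P i ∧ c w = c v}.ncard ≤ N0 ∧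
        {i | ∃ w ∈ ⋃ i, S P i, w ∈ P i ∧ c w = c v}.ncard ≤ N0 ∧
        ∀ i, (∃ w ∈ ⋃ i, S P i, w ∈ P i ∧ c w = c v) → i ∉ bad) := by
  classical
  set N1 : ℕ := ⌊4 * (1 + al) ^ 2 / a⌋₊ with hN1
  set N : ℕ := 2 * N1 ^ 2 with hN
  set l : ℝ := 1 / (N + 1 : ℝ) with hl
  have hl0 : 0 < l := by positivity
  refine ⟨l, hl0, N + N1, max (al + 1) (4 * (2 + 2 * al) ^ 2 / a), ?_, ?_⟩
  · exact lt_max_of_lt_left (by linarith)
  intro ι _ D P h hdiam bad hgood sp hsp k0 hk0
  have := Fintype.ofFinite ι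
  set W : Set V := ⋃ i, S P i with hW
  set Z : Set V := {v | v ∈ W ∧ ((∃ i ∈ bad, v ∈ P i) ∨ v ∈ sp)} with hZ
  set C : ℝ := max (al + 1) (4 * (2 + 2 * al) ^ 2 / a) with hC
  have hC1 : al + 1 ≤ C := le_max_left _ _
  have hC2 : 4 * (2 + 2 * al) ^ 2 / a ≤ C := le_max_right _ _
  have hk : 0 < k0 := by linarith
  -- packing near a vertex
  have hpack : ∀ (v : V) (G : Finset ι), (∀ i ∈ G, i ∉ bad) → (∀ i ∈ G, ∃ w ∈ P i, dist v w ≤ 1) →
      G.card ≤ N1 := by
    intro v G hG1 hG2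
    have h1 := packing68 h (a := a) (R := 1 + al) (by linarith) v G (fun i hi => hgood i (hG1 i hi))
      (by
        intro i hi x hx
        obtain ⟨w, hw, hvw⟩ := hG2 i hi
        rw [Metric.mem_closedBall]
        have := hdiam i x hx w hw
        have h3 := dist_triangle x w v
        rw [dist_comm w v] at h3
        linarith)
    rw [hN1]
    apply Nat.le_floor
    rw [le_div_iff₀ ha]
    exact h1
  have hcard : ∀ v : V, ∀ T : Finset V, (∀ u ∈ T, u ∈ W) → (∀ u ∈ T, u ∉ Z) →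
      (∀ u ∈ T, dist v u ≤ 1) → T.card ≤ N := by
    intro v T hT1 hT2 hT3
    set G : Finset ι := Finset.univ.filter (fun i => ∃ u ∈ T, u ∈ P i) with hG
    have hGb : ∀ i ∈ G, i ∉ bad := by
      intro i hi hib
      obtain ⟨u, hu, hui⟩ := (Finset.mem_filter.mp hi).2
      exact hT2 u hu ⟨hT1 u hu, Or.inl ⟨i, hib, hui⟩⟩
    have hGc : G.card ≤ N1 := by
      apply hpack v G hGb
      intro i hi
      obtain ⟨u, hu, hui⟩ := (Finset.mem_filter.mp hi).2
      exact ⟨u, hui, hT3 u hu⟩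
    have h2 := card_vert_le h G T hT1 (by
      intro u hu i hui
      exact Finset.mem_filter.mpr ⟨Finset.mem_univ _, u, hu, hui⟩)
    calc T.card ≤ 2 * G.card ^ 2 := h2
      _ ≤ 2 * N1 ^ 2 := by gcongr
  have hchain : ∀ v ∈ W, ∀ w, Clu W l v w → dist v w ≤ 1 ∨
      ∃ z ∈ Z, Clu W l v z ∧ dist v z ≤ 1 := by
    intro v hv w hw
    by_cases hd : dist v w ≤ 1
    · exact Or.inl hd
    · exact Or.inr (chain_lemma hv (hcard v) hw (not_le.mp hd))
  have hfz : ∀ v, ∀ z ∈ Z, Clu W l v z → cutf W Z l k0 v = 0 := by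
    intro v z hz hvz
    apply le_antisymm
    · apply cutf_le hk.le
      exact Or.inr ⟨z, hvz, z, hz, by rw [dist_self, zero_div]⟩
    · exact le_cutf fun t ht => cutSet_nonneg hk.le ht
  refine ⟨crep W l, cutf W Z l k0, ?_, ?_, ?_, ?_, ?_, ?_, ?_, ?_⟩
  · intro v
    exact ⟨le_cutf fun t ht => cutSet_nonneg hk.le ht, cutf_le hk.le (cutSet_one v)⟩
  · intro v hv i hi hvi
    exact hfz v v ⟨hv, Or.inl ⟨i, hi, hvi⟩⟩ ReflTransGen.refl
  · intro v hv hvs
    exact hfz v v ⟨hv, Or.inr hvs⟩ ReflTransGen.refl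
  · intro v hv w hw hd
    rw [crep_eq_iff]
    exact ReflTransGen.single ⟨hv, hw, hd⟩
  · intro v w hvw
    exact cutf_clu (crep_eq_iff.mp hvw)
  · -- Lipschitz
    have key : ∀ i, ∀ v ∈ W, ∀ w ∈ W, v ∈ P i → w ∈ P i →
        cutf W Z l k0 w - C / k0 ≤ cutf W Z l k0 v := by
      intro i v hv w hw hvi hwi
      apply le_cutf
      rintro t (ht | ⟨v', hv', z, hz, ht⟩)
      · rw [ht]
        have h1 : cutf W Z l k0 w ≤ 1 := cutf_le hk.le (cutSet_one w)
        have h2 : 0 ≤ C / k0 := div_nonneg (by linarith) hk.le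
        linarith
      · obtain ⟨z', hz', hdz⟩ : ∃ z' ∈ Z, dist w z' ≤ dist v' z + (al + 1) := by
          have hwv := hdiam i w hwi v hvi
          rcases hchain v hv v' hv' with h1 | ⟨z', hz', -, h1⟩
          · refine ⟨z, hz, ?_⟩
            have h3 := dist_triangle w v z
            have h4 := dist_triangle v v' z
            linarith
          · refine ⟨z', hz', ?_⟩
            have h3 := dist_triangle w v z'
            have h4 : 0 ≤ dist v' z := dist_nonneg
            linarith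
        have h5 : cutf W Z l k0 w ≤ dist w z' / k0 :=
          cutf_le hk.le (Or.inr ⟨w, ReflTransGen.refl, z', hz', rfl⟩)
        rw [ht]
        have h6 : dist w z' / k0 ≤ (dist v' z + C) / k0 := by
          gcongr
          linarith
        rw [add_div] at h6
        linarith
    intro i v hv w hw hvi hwi
    rw [abs_le]
    have h1 := key i v hv w hw hvi hwi
    have h2 := key i w hw v hv hwi hvi
    constructor <;> linarith
  · -- number of near cells
    set F : Set ι := {i | i ∉ bad ∧ ∃ v ∈ W, v ∈ P i ∧ cutf W Z l k0 v < 1} with hF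
    -- every near cell is near a bad cell or a special point
    set R : ℝ := k0 + 1 + 2 * al with hR
    have hR0 : 0 ≤ R := by rw [hR]; linarith
    have hctr : ∀ j : ι, ∃ x, x ∈ P j := fun j => (h.int j).mono interior_subset
    choose x hx using hctr
    have hcov : ∀ i ∈ F, (∃ j ∈ bad, P i ⊆ Metric.closedBall (x j) R) ∨
        ∃ z ∈ sp, P i ⊆ Metric.closedBall z R := by
      rintro i ⟨-, v, hv, hvi, hfv⟩
      obtain ⟨z, hz, hvz⟩ : ∃ z ∈ Z, dist v z ≤ k0 + 1 := by
        obtain ⟨w, hw, z, hz, hwz⟩ := cutf_lt_one hk hfv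
        rcases hchain v hv w hw with h1 | ⟨z', hz', -, h1⟩
        · refine ⟨z, hz, ?_⟩
          have := dist_triangle v w z
          linarith
        · exact ⟨z', hz', by linarith⟩
      rcases hz.2 with ⟨j, hj, hzj⟩ | hzs
      · left
        refine ⟨j, hj, fun y hy => ?_⟩
        rw [Metric.mem_closedBall]
        have h1 := hdiam i y hy v hvi
        have h2 := hdiam j z hzj (x j) (hx j)
        have h3 := dist_triangle y v (x j)
        have h4 := dist_triangle v z (x j)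
        linarith
      · right
        refine ⟨z, hzs, fun y hy => ?_⟩
        rw [Metric.mem_closedBall]
        have h1 := hdiam i y hy v hvi
        have h3 := dist_triangle y v z
        linarith
    have hpk : ∀ c : V, (((Finset.univ.filter (fun i => i ∈ F ∧
        P i ⊆ Metric.closedBall c R)).card : ℕ) : ℝ) ≤ 4 * R ^ 2 / a := by
      intro c
      rw [le_div_iff₀ ha]
      apply packing68 h hR0 c
      · intro i hi
        exact hgood i (Finset.mem_filter.mp hi).2.1.1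
      · intro i hi
        exact (Finset.mem_filter.mp hi).2.2
    have hbf : bad.Finite := Set.toFinite _
    set Bf : Finset V := (hbf.toFinset.image x) ∪ hsp.toFinset with hBf
    have hBc : (Bf.card : ℝ) ≤ bad.ncard + sp.ncard := by
      have h1 : Bf.card ≤ bad.ncard + sp.ncard := by
        refine (Finset.card_union_le _ _).trans ?_
        have h2 : (hbf.toFinset.image x).card ≤ bad.ncard := by
          rw [Set.ncard_eq_toFinset_card _ hbf]
          exact Finset.card_image_le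
        have h3 : hsp.toFinset.card = sp.ncard := (Set.ncard_eq_toFinset_card _ hsp).symm
        omega
      exact_mod_cast h1
    have hsub : F.toFinset ⊆ Bf.biUnion (fun c => Finset.univ.filter (fun i => i ∈ F ∧
        P i ⊆ Metric.closedBall c R)) := by
      intro i hi
      rw [Set.mem_toFinset] at hi
      rw [Finset.mem_biUnion]
      rcases hcov i hi with ⟨j, hj, h1⟩ | ⟨z, hz, h1⟩
      · refine ⟨x j, ?_, Finset.mem_filter.mpr ⟨Finset.mem_univ _, hi, h1⟩⟩
        exact Finset.mem_union_left _ (Finset.mem_image.mpr ⟨j, hbf.mem_toFinset.mpr hj, rfl⟩)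
      · refine ⟨z, ?_, Finset.mem_filter.mpr ⟨Finset.mem_univ _, hi, h1⟩⟩
        exact Finset.mem_union_right _ (hsp.mem_toFinset.mpr hz)
    have hFc : (F.ncard : ℝ) ≤ Bf.card * (4 * R ^ 2 / a) := by
      have h1 : F.ncard = F.toFinset.card := Set.ncard_eq_toFinset_card' F
      rw [h1]
      calc ((F.toFinset.card : ℕ) : ℝ)
          ≤ ((Bf.biUnion (fun c => Finset.univ.filter (fun i => i ∈ F ∧
            P i ⊆ Metric.closedBall c R))).card : ℕ) := by
              exact_mod_cast Finset.card_le_card hsub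
        _ ≤ ((∑ c ∈ Bf, (Finset.univ.filter (fun i => i ∈ F ∧
            P i ⊆ Metric.closedBall c R)).card : ℕ) : ℝ) := by
              exact_mod_cast Finset.card_biUnion_le
        _ = ∑ c ∈ Bf, (((Finset.univ.filter (fun i => i ∈ F ∧
            P i ⊆ Metric.closedBall c R)).card : ℕ) : ℝ) := by push_cast; rfl
        _ ≤ ∑ c ∈ Bf, (4 * R ^ 2 / a) := Finset.sum_le_sum fun c _ => hpk c
        _ = Bf.card * (4 * R ^ 2 / a) := by rw [Finset.sum_const, nsmul_eq_mul]
    have hRk : R ≤ k0 * (2 + 2 * al) := by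
      rw [hR]
      nlinarith
    have hR2 : 4 * R ^ 2 / a ≤ C * k0 ^ 2 := by
      calc 4 * R ^ 2 / a ≤ 4 * (k0 * (2 + 2 * al)) ^ 2 / a := by gcongr
        _ = (4 * (2 + 2 * al) ^ 2 / a) * k0 ^ 2 := by ring
        _ ≤ C * k0 ^ 2 := by gcongr
    have hR3 : 0 ≤ 4 * R ^ 2 / a := by positivity
    calc (F.ncard : ℝ) ≤ Bf.card * (4 * R ^ 2 / a) := hFc
      _ ≤ (bad.ncard + sp.ncard) * (C * k0 ^ 2) := by gcongr
      _ = C * k0 ^ 2 * (bad.ncard + sp.ncard) := by ring
  · -- clusters with positive value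
    intro v hv hfv
    have hnZ : ∀ w, Clu W l v w → w ∉ Z := by
      intro w hw hwZ
      rw [hfz v w hwZ hw] at hfv
      exact lt_irrefl _ hfv
    have hd1 : ∀ w, Clu W l v w → dist v w ≤ 1 := by
      intro w hw
      rcases hchain v hv w hw with h1 | ⟨z, hz, hvz, -⟩
      · exact h1
      · exact absurd hz (hnZ z hvz)
    have hnb : ∀ i, (∃ w ∈ W, w ∈ P i ∧ crep W l w = crep W l v) → i ∉ bad := by
      rintro i ⟨w, hw, hwi, hcw⟩ hib
      exact hnZ w (crep_eq_iff.mp hcw.symm) ⟨hw, Or.inl ⟨i, hib, hwi⟩⟩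
    refine ⟨fun w _ hcw => hd1 w (crep_eq_iff.mp hcw.symm), ?_, ?_, hnb⟩
    · have hWf : W.Finite := h.union_finite
      have hfin : {w | w ∈ W ∧ crep W l w = crep W l v}.Finite := hWf.subset fun w hw => hw.1
      rw [Set.ncard_eq_toFinset_card _ hfin]
      refine (hcard v _ ?_ ?_ ?_).trans (Nat.le_add_right _ _)
      · intro u hu
        exact (hfin.mem_toFinset.mp hu).1
      · intro u hu
        exact hnZ u (crep_eq_iff.mp (hfin.mem_toFinset.mp hu).2.symm)
      · intro u hu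
        exact hd1 u (crep_eq_iff.mp (hfin.mem_toFinset.mp hu).2.symm)
    · have hfin : {i | ∃ w ∈ W, w ∈ P i ∧ crep W l w = crep W l v}.Finite := Set.toFinite _
      rw [Set.ncard_eq_toFinset_card _ hfin]
      refine (hpack v _ ?_ ?_).trans (Nat.le_add_left _ _)
      · intro i hi
        exact hnb i (hfin.mem_toFinset.mp hi)
      · intro i hi
        obtain ⟨w, hw, hwi, hcw⟩ := hfin.mem_toFinset.mp hi
        exact ⟨w, hwi, hd1 w (crep_eq_iff.mp hcw.symm)⟩

end C2305bFat
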