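import Pool.Agent.W_c2305b_h68.Hang2

/-!
# The exact statement (4b) of row 552 (G2): four maximal cells at a vertical edge
-/

open Set

namespace C2305bH68.Hang

open C2305b.Rig
open C2305b.Rig.O74 (conv6_toK ar6_toK toK toK_mem conv6_shift ar6_shift conv6_cyc Am_sub Am_smul
  Am_add leMax_inBody)
open C2305bH68.Sym (cr_self cr_swap cr_neg_left cr_neg_right cr_add_left cr_add_right cr_sub_left
  cr_sub_right cr_smul_left cr_smul_right cr_zero_left cr_zero_right pl_ext)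

/-! ### The body -/

/-- The body of type `false`. -/
def KV (K0 : Set Pl) (a b : ℝ) : Set Pl := {v | InBody K0 a b false v}

theorem Am_neg' (ν c s : ℝ) (v : Pl) : Am ν c s (-v) = - Am ν c s v := by
  apply pl_ext
  · simp [Am]; ring
  · simp [Am]; ring

theorem Jt_neg' (t : Bool) (v : Pl) : Jt t (-v) = - Jt t v := by
  cases t
  · simp [Jt]
  · apply pl_ext
    · simp [Jt]
    · simp [Jt]

theorem Jt_Jt (v : Pl) : Jt true (Jt true v) = v := by
  apply pl_ext
  · simp [Jt]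
  · simp [Jt]

theorem Jt_sub' (v w : Pl) : Jt true (v - w) = Jt true v - Jt true w := by
  apply pl_ext
  · simp [Jt]
  · simp [Jt]; ring

theorem Jt_zero (v : Pl) : (Jt true v) 0 = v 0 := by simp [Jt]
theorem Jt_one (v : Pl) : (Jt true v) 1 = - v 1 := by simp [Jt]

theorem cr_Jt' (v w : Pl) : cr (Jt true v) (Jt true w) = - cr v w := by
  unfold cr
  rw [Jt_zero, Jt_one, Jt_zero, Jt_one]; ring

theorem am_inj {a b : ℝ} (hab : a ^ 2 + b ^ 2 = 1) {v w : Pl}
    (h : Am 1 a (-b) v = Am 1 a (-b) w) : v = w := by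
  have h0 := congrArg (fun u : Pl => u 0) h
  have h1 := congrArg (fun u : Pl => u 1) h
  simp only [Am, PiLp.toLp_apply, Matrix.cons_val_zero, Matrix.cons_val_one] at h0 h1
  apply pl_ext
  · linear_combination (w 0 - v 0) * hab + a * h0 - b * h1
  · linear_combination (w 1 - v 1) * hab + b * h0 + a * h1

theorem maxHyp {K0 : Set Pl} {t6 a b : ℝ} (hab : a ^ 2 + b ^ 2 = 1) (hconv : Convex ℝ K0)
    (hle : LeMax K0 t6) (hst : StrictMax K0 t6) (hs : Sym6 K0 t6) : MaxHyp (KV K0 a b) t6 where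
  conv := by
    intro x hx y hy s t hs ht hst'
    have := hconv hx hy hs ht hst'
    show Am 1 a (-b) (Jt false (s • x + t • y)) ∈ K0
    have e : Am 1 a (-b) (Jt false (s • x + t • y)) =
        s • Am 1 a (-b) (Jt false x) + t • Am 1 a (-b) (Jt false y) := by
      simp only [Jt, Bool.false_eq_true, if_false]
      rw [Am_add, Am_smul, Am_smul]
    rw [e]
    exact this
  le := fun q hq hqK => leMax_inBody hle hab (t := false) hq hqK
  sym := by
    intro q hq hqK ha k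
    have h := hs (toK a b false q) (conv6_toK hab false hq) (toK_mem hqK)
      (by rw [ar6_toK hab]; exact ha) k
    have h' : Am 1 a (-b) (q (k + 3)) = - Am 1 a (-b) (q k) := by
      simpa [toK, Jt] using h
    rw [← Am_neg'] at h'
    exact am_inj hab h'
  strict := by
    intro q hq hqK ha k
    have h := hst a b false (fun j => q (j + (k + 1))) hab (conv6_shift hq (k + 1))
      (fun j => hqK _) (by rw [ar6_shift]; exact ha)
    have e0 : (0 : Fin 6) + (k + 1) = k + 1 := zero_add _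
    have e1 : (1 : Fin 6) + (k + 1) = k + 2 := by clear * -; revert k; decide
    have e5 : (5 : Fin 6) + (k + 1) = k := by clear * -; revert k; decide
    simp only [e0, e1, e5] at h
    have : cr (q (k + 2) - q (k + 1)) (q k - q (k + 1)) =
        cr (q (k + 1) - q k) (q (k + 2) - q (k + 1)) := by
      simp only [cr, PiLp.sub_apply]; ring
    rwa [this] at h

/-! ### Models of the cells -/

/-- The type `false` model of a cell; the right edge `2 → 3` is kept. -/
def mdl (t : Bool) (c : Fin 6 → Pl) : Fin 6 → Pl := if t then fun k => Jt true (c (5 - k)) else c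

theorem fin6_rev : ∀ i j k : Fin 6, i < j → j < k → 5 - k < 5 - j ∧ 5 - j < 5 - i := by decide

theorem conv6_mdl (t : Bool) {c : Fin 6 → Pl} (h : Conv6 c) : Conv6 (mdl t c) := by
  cases t
  · exact h
  · intro i j k hij hjk
    show 0 ≤ cr (Jt true (c (5 - j)) - Jt true (c (5 - i))) (Jt true (c (5 - k)) -
      Jt true (c (5 - i)))
    rw [← Jt_sub', ← Jt_sub', cr_Jt', ← cr_swap]
    exact conv6_cyc h (Or.inr (Or.inl (fin6_rev i j k hij hjk)))

theorem ar6_mdl (t : Bool) (c : Fin 6 → Pl) : ar6 (mdl t c) = ar6 c := by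
  cases t
  · rfl
  · unfold ar6
    rw [sum_six, sum_six]
    show (cr (Jt true (c 5)) (Jt true (c 4)) + cr (Jt true (c 4)) (Jt true (c 3)) +
      cr (Jt true (c 3)) (Jt true (c 2)) + cr (Jt true (c 2)) (Jt true (c 1)) +
      cr (Jt true (c 1)) (Jt true (c 0)) + cr (Jt true (c 0)) (Jt true (c 5))) / 2 = _
    simp only [cr_Jt']
    unfold cr; ring

theorem isMax_mdl {K0 : Set Pl} {t6 a b : ℝ} (t : Bool) {c : Fin 6 → Pl} (h : Conv6 c)
    (hc : ∀ k, InBody K0 a b t (c k)) (ha : ar6 c = t6) : IsMax (KV K0 a b) t6 (mdl t c) where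
  conv := conv6_mdl t h
  mem := by
    intro k
    cases t
    · exact hc k
    · show Am 1 a (-b) (Jt false (Jt true (c (5 - k)))) ∈ K0
      have := hc (5 - k)
      simpa [Jt, InBody] using this
  area := by rw [ar6_mdl]; exact ha

section Data

variable {K : Set Pl} {t6 : ℝ} (M : MaxHyp K t6) {t : Bool} {c : Fin 6 → Pl}
  (hc : IsMax K t6 (mdl t c))

include M hc

theorem sym_of_mdl (k : Fin 6) : c (k + 3) = - c k := by
  cases t
  · exact M.sym _ hc.conv hc.mem hc.area k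
  · have h := M.sym _ hc.conv hc.mem hc.area (5 - k)
    have h' : Jt true (c (5 - (5 - k + 3))) = - Jt true (c (5 - (5 - k))) := h
    have e1 : (5 : Fin 6) - (5 - k + 3) = k + 3 := by clear * -; revert k; decide
    have e2 : (5 : Fin 6) - (5 - k) = k := by clear * -; revert k; decide
    rw [e1, e2, ← Jt_neg'] at h'
    have := congrArg (Jt true) h'
    rwa [Jt_Jt, Jt_Jt] at this

/-- Lower left edge. -/
theorem lowL : c 1 - c 0 = if t then Jt true (mdl t c 2 - mdl t c 1) else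
    mdl t c 1 - mdl t c 0 := by
  cases t
  · rfl
  · show c 1 - c 0 = Jt true (Jt true (c 3) - Jt true (c 4))
    rw [← Jt_sub', Jt_Jt]
    have h0 : c 3 = - c 0 := sym_of_mdl M hc 0
    have h1 : c 4 = - c 1 := sym_of_mdl M hc 1
    rw [h0, h1]; abel

/-- Lower right edge. -/
theorem lowR : c 2 - c 1 = if t then Jt true (mdl t c 1 - mdl t c 0) else
    mdl t c 2 - mdl t c 1 := by
  cases t
  · rfl
  · show c 2 - c 1 = Jt true (Jt true (c 4) - Jt true (c 5))
    rw [← Jt_sub', Jt_Jt]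
    have h1 : c 4 = - c 1 := sym_of_mdl M hc 1
    have h2 : c 5 = - c 2 := sym_of_mdl M hc 2
    rw [h1, h2]; abel

theorem edge_mdl0 (h0 : (c 3) 0 = (c 2) 0) : (mdl t c 3) 0 = (mdl t c 2) 0 := by
  cases t
  · exact h0
  · show (Jt true (c 2)) 0 = (Jt true (c 3)) 0
    rw [Jt_zero, Jt_zero]; exact h0.symm

theorem edge_mdl1 : (mdl t c 3) 1 - (mdl t c 2) 1 = (c 3) 1 - (c 2) 1 := by
  cases t
  · rfl
  · show (Jt true (c 2)) 1 - (Jt true (c 3)) 1 = _
    rw [Jt_one, Jt_one]; ring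

end Data

/-! ### Numbers -/

theorem num_width {a b a' b' : ℝ} (tA tB tC tD : Bool)
    (h1 : (if tA then a else b) = (if tC then a' else b'))
    (h2 : (if tB then b else a) = (if tC then b' else a'))
    (h3 : (if tB then a else b) = (if tD then a' else b')) : a + b = a' + b' := by
  cases tA <;> cases tB <;> cases tC <;> cases tD <;> simp at h1 h2 h3 <;> linarith

theorem num_slope {a b x y eA eB eC : ℝ} (ha : 0 < a) (hb : 0 < b) (tA tB tC : Bool)
    (h1 : (if tA then a else b) = (if tC then a else b))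
    (h2 : (if tB then b else a) = (if tC then b else a))
    (h3 : (if tA then eA * a - x else eA * b + y) = (if tC then eC * a - x else eC * b + y))
    (h4 : (if tB then eB * b - y else eB * a + x) = (if tC then eC * b - y else eC * a + x)) :
    (if tA then eA * (a + b) - (x + y) else eA * (a + b) + (x + y)) =
      (if tB then eB * (a + b) - (x + y) else eB * (a + b) + (x + y)) := by
  have key : ∀ u v w : ℝ, 0 < w → u * w = v * w → u = v := fun u v w hw h =>
    mul_right_cancel₀ hw.ne' h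
  cases tA <;> cases tB <;> cases tC <;>
    simp only [Bool.false_eq_true, if_false, if_true] at h1 h2 h3 h4 ⊢
  · have e1 := key eA eC b hb (by linarith)
    have e2 := key eB eC a ha (by linarith)
    rw [e1, e2]
  · subst h1
    have e1 := key eA eB b hb (by linarith)
    rw [e1]
  · subst h2
    linarith
  · subst h1
    linarith
  · subst h1
    linarith
  · subst h2
    linarith
  · subst h1
    have e1 := key eA eB a ha (by linarith)
    rw [e1]
  · have e1 := key eA eC a ha (by linarith)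
    have e2 := key eB eC b hb (by linarith)
    rw [e1, e2]

theorem sh_zero (e : ℝ) (v : Pl) : (Sh e v) 0 = v 0 := by simp [Sh]
theorem sh_one (e : ℝ) (v : Pl) : (Sh e v) 1 = e * v 0 + v 1 := by simp [Sh]
theorem sh_neg (e : ℝ) (v : Pl) : Sh e (-v) = - Sh e v := by
  apply pl_ext
  · simp [Sh]
  · simp [Sh]; ring

/-- The canonical form: right edges `2 → 3`. -/
theorem exact_core {K : Set Pl} {t6 : ℝ} (M : MaxHyp K t6) {tA tB tC tD : Bool}
    {cA cB cC cD : Fin 6 → Pl} {eA eB eC eD : ℝ}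
    (hA : IsMax K t6 (mdl tA cA)) (hB : IsMax K t6 (mdl tB cB)) (hC : IsMax K t6 (mdl tC cC))
    (hD : IsMax K t6 (mdl tD cD))
    (d1 : Sh eA (cA 3 - cA 2) = Sh eB (cB 5 - cB 0))
    (d2 : Sh eA (cA 2 - cA 1) = Sh eC (cC 4 - cC 5))
    (d3 : Sh eB (cB 1 - cB 0) = Sh eC (cC 3 - cC 4))
    (d4 : Sh eB (cB 2 - cB 1) = Sh eD (cD 4 - cD 5))
    (d5 : Sh eC (cC 3 - cC 2) = Sh eD (cD 5 - cD 0))
    (v1 : (cA 3) 0 = (cA 2) 0) (v2 : (cC 3) 0 = (cC 2) 0) (hup : (cA 2) 1 < (cA 3) 1) :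
    Sh eA (cA 2 - cA 0) = Sh eB (cB 2 - cB 0) := by
  -- symmetry of the cells
  have sB2 : cB 5 = - cB 2 := sym_of_mdl M hB 2
  have sB0 : cB 3 = - cB 0 := sym_of_mdl M hB 0
  have sC0 : cC 3 = - cC 0 := sym_of_mdl M hC 0
  have sC1 : cC 4 = - cC 1 := sym_of_mdl M hC 1
  have sC2 : cC 5 = - cC 2 := sym_of_mdl M hC 2
  have sD0 : cD 3 = - cD 0 := sym_of_mdl M hD 0
  have sD1 : cD 4 = - cD 1 := sym_of_mdl M hD 1
  have sD2 : cD 5 = - cD 2 := sym_of_mdl M hD 2
  have rC1 : cC 4 - cC 5 = cC 2 - cC 1 := by rw [sC1, sC2]; abel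
  have rC2 : cC 3 - cC 4 = cC 1 - cC 0 := by rw [sC0, sC1]; abel
  have rD1 : cD 4 - cD 5 = cD 2 - cD 1 := by rw [sD1, sD2]; abel
  have rB : cB 5 - cB 0 = cB 3 - cB 2 := by rw [sB0, sB2]; abel
  have rD : cD 5 - cD 0 = cD 3 - cD 2 := by rw [sD0, sD2]; abel
  rw [rB] at d1
  rw [rC1] at d2
  rw [rC2] at d3
  rw [rD1] at d4
  rw [rD] at d5
  -- vertical edges of `B` and `D`
  have d1x := congrArg (fun v : Pl => v 0) d1
  have d1y := congrArg (fun v : Pl => v 1) d1
  have d5x := congrArg (fun v : Pl => v 0) d5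
  have d5y := congrArg (fun v : Pl => v 1) d5
  simp only [sh_zero, sh_one, PiLp.sub_apply] at d1x d1y d5x d5y
  have vB : (cB 3) 0 = (cB 2) 0 := by rw [v1] at d1x; linarith
  have vD : (cD 3) 0 = (cD 2) 0 := by rw [v2] at d5x; linarith
  have hAB : (cA 3) 1 - (cA 2) 1 = (cB 3) 1 - (cB 2) 1 := by
    rw [v1, vB, sub_self, sub_self, mul_zero, mul_zero, zero_add, zero_add] at d1y
    exact d1y
  have hCD : (cC 3) 1 - (cC 2) 1 = (cD 3) 1 - (cD 2) 1 := by
    rw [v2, vD, sub_self, sub_self, mul_zero, mul_zero, zero_add, zero_add] at d5y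
    exact d5y
  -- models of `A`, `B` agree
  have mA0 := edge_mdl0 M hA v1
  have mB0 := edge_mdl0 M hB vB
  have mC0 := edge_mdl0 M hC v2
  have mD0 := edge_mdl0 M hD vD
  have mA1 := edge_mdl1 M hA
  have mB1 := edge_mdl1 M hB
  have mC1 := edge_mdl1 M hC
  have mD1 := edge_mdl1 M hD
  have eAB : mdl tB cB = mdl tA cA :=
    uniq_edge M hA hB mA0 (by linarith) mB0 (by linarith) (Or.inl (by linarith))
  -- edges
  have LA := lowL M hA
  have RA := lowR M hA
  have LB := lowL M hB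
  have RB := lowR M hB
  have LC := lowL M hC
  have RC := lowR M hC
  have RD := lowR M hD
  rw [eAB] at LB RB
  set m := mdl tA cA with hm
  obtain ⟨pa, pb⟩ := ext_pos M hA mA0 (by linarith)
  -- the edge of `C` goes up
  have strictC : 0 < cr (cC 3 - cC 2) (cC 4 - cC 3) := by
    cases tC
    · exact M.strict _ hC.conv hC.mem hC.area 2
    · have h := M.strict _ hC.conv hC.mem hC.area 1
      have h' : 0 < cr (Jt true (cC 3) - Jt true (cC 4)) (Jt true (cC 2) - Jt true (cC 3)) := h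
      rw [← Jt_sub', ← Jt_sub', cr_Jt'] at h'
      have e : cr (cC 3 - cC 2) (cC 4 - cC 3) = - cr (cC 3 - cC 4) (cC 2 - cC 3) := by
        simp only [cr, PiLp.sub_apply]; ring
      rw [e]; exact h'
  have d2x := congrArg (fun v : Pl => v 0) d2
  have d2y := congrArg (fun v : Pl => v 1) d2
  have d3x := congrArg (fun v : Pl => v 0) d3
  have d3y := congrArg (fun v : Pl => v 1) d3
  have d4x := congrArg (fun v : Pl => v 0) d4
  simp only [sh_zero, sh_one] at d2x d2y d3x d3y d4x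
  have xLB : (cB 1 - cB 0) 0 = if tB then (m 2) 0 - (m 1) 0 else (m 1) 0 - (m 0) 0 := by
    rw [LB]; cases tB <;> simp [Jt_zero]
  have yLB : (cB 1 - cB 0) 1 = if tB then -((m 2) 1 - (m 1) 1) else (m 1) 1 - (m 0) 1 := by
    rw [LB]; cases tB <;> simp [Jt_one]
  have xRB : (cB 2 - cB 1) 0 = if tB then (m 1) 0 - (m 0) 0 else (m 2) 0 - (m 1) 0 := by
    rw [RB]; cases tB <;> simp [Jt_zero]
  have yRB : (cB 2 - cB 1) 1 = if tB then -((m 1) 1 - (m 0) 1) else (m 2) 1 - (m 1) 1 := by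
    rw [RB]; cases tB <;> simp [Jt_one]
  have xLA : (cA 1 - cA 0) 0 = if tA then (m 2) 0 - (m 1) 0 else (m 1) 0 - (m 0) 0 := by
    rw [LA]; cases tA <;> simp [Jt_zero]
  have yLA : (cA 1 - cA 0) 1 = if tA then -((m 2) 1 - (m 1) 1) else (m 1) 1 - (m 0) 1 := by
    rw [LA]; cases tA <;> simp [Jt_one]
  have xRA : (cA 2 - cA 1) 0 = if tA then (m 1) 0 - (m 0) 0 else (m 2) 0 - (m 1) 0 := by
    rw [RA]; cases tA <;> simp [Jt_zero]
  have yRA : (cA 2 - cA 1) 1 = if tA then -((m 1) 1 - (m 0) 1) else (m 2) 1 - (m 1) 1 := by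
    rw [RA]; cases tA <;> simp [Jt_one]
  have pLB : 0 < (cB 1 - cB 0) 0 := by rw [xLB]; cases tB <;> simp <;> linarith
  have upC : (cC 2) 1 < (cC 3) 1 := by
    have h5 : (cC 4) 0 - (cC 3) 0 = - (cC 1 - cC 0) 0 := by
      rw [← rC2]; simp
    have h6 : (cC 1 - cC 0) 0 = (cB 1 - cB 0) 0 := d3x.symm
    simp only [cr, PiLp.sub_apply] at strictC
    rw [h5, h6, v2] at strictC
    by_contra hcon
    push Not at hcon
    nlinarith
  have eCD : mdl tD cD = mdl tC cC :=
    uniq_edge M hC hD mC0 (by linarith) mD0 (by linarith) (Or.inl (by linarith))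
  rw [eCD] at RD
  set n := mdl tC cC with hn
  have xLC : (cC 1 - cC 0) 0 = if tC then (n 2) 0 - (n 1) 0 else (n 1) 0 - (n 0) 0 := by
    rw [LC]; cases tC <;> simp [Jt_zero]
  have xRC : (cC 2 - cC 1) 0 = if tC then (n 1) 0 - (n 0) 0 else (n 2) 0 - (n 1) 0 := by
    rw [RC]; cases tC <;> simp [Jt_zero]
  have xRD : (cD 2 - cD 1) 0 = if tD then (n 1) 0 - (n 0) 0 else (n 2) 0 - (n 1) 0 := by
    rw [RD]; cases tD <;> simp [Jt_zero]
  have hw := num_width tA tB tC tD (by rw [← xRA, ← xRC]; exact d2x)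
    (by rw [← xLB, ← xLC]; exact d3x) (by rw [← xRB, ← xRD]; exact d4x)
  -- equal width: all four models agree
  have m3 : m 3 = - m 0 := q3 M hA
  have n3 : n 3 = - n 0 := q3 M hC
  have mx : (m 0) 0 = - (m 2) 0 := by
    have : (m 3) 0 = - (m 0) 0 := by rw [m3]; simp
    linarith
  have nx : (n 0) 0 = - (n 2) 0 := by
    have : (n 3) 0 = - (n 0) 0 := by rw [n3]; simp
    linarith
  have eAC : n = m :=
    uniq_edge M hA hC mA0 (by linarith) mC0 (by linarith) (Or.inr (by linarith))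
  rw [eAC] at LC RC xLC xRC
  have yLC : (cC 1 - cC 0) 1 = if tC then -((m 2) 1 - (m 1) 1) else (m 1) 1 - (m 0) 1 := by
    rw [LC]; cases tC <;> simp [Jt_one]
  have yRC : (cC 2 - cC 1) 1 = if tC then -((m 1) 1 - (m 0) 1) else (m 2) 1 - (m 1) 1 := by
    rw [RC]; cases tC <;> simp [Jt_one]
  have hs := num_slope (a := (m 1) 0 - (m 0) 0) (b := (m 2) 0 - (m 1) 0)
    (x := (m 1) 1 - (m 0) 1) (y := (m 2) 1 - (m 1) 1) (eA := eA) (eB := eB) (eC := eC) pa pb
    tA tB tC (by rw [← xRA, ← xRC]; exact d2x) (by rw [← xLB, ← xLC]; exact d3x)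
    (by
      rw [xRA, yRA, xRC, yRC] at d2y
      revert d2y
      cases tA <;> cases tC <;> simp <;> intro h <;> linarith)
    (by
      rw [xLB, yLB, xLC, yLC] at d3y
      revert d3y
      cases tB <;> cases tC <;> simp <;> intro h <;> linarith)
  -- conclusion
  have sA : cA 2 - cA 0 = (cA 1 - cA 0) + (cA 2 - cA 1) := by abel
  have sB : cB 2 - cB 0 = (cB 1 - cB 0) + (cB 2 - cB 1) := by abel
  have xA : (cA 2 - cA 0) 0 = ((m 1) 0 - (m 0) 0) + ((m 2) 0 - (m 1) 0) := by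
    rw [sA, PiLp.add_apply, xLA, xRA]; cases tA <;> simp
  have xB : (cB 2 - cB 0) 0 = ((m 1) 0 - (m 0) 0) + ((m 2) 0 - (m 1) 0) := by
    rw [sB, PiLp.add_apply, xLB, xRB]; cases tB <;> simp
  have yA : (cA 2 - cA 0) 1 = if tA then - (((m 1) 1 - (m 0) 1) + ((m 2) 1 - (m 1) 1)) else
      ((m 1) 1 - (m 0) 1) + ((m 2) 1 - (m 1) 1) := by
    rw [sA, PiLp.add_apply, yLA, yRA]; cases tA <;> simp
  have yB : (cB 2 - cB 0) 1 = if tB then - (((m 1) 1 - (m 0) 1) + ((m 2) 1 - (m 1) 1)) else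
      ((m 1) 1 - (m 0) 1) + ((m 2) 1 - (m 1) 1) := by
    rw [sB, PiLp.add_apply, yLB, yRB]; cases tB <;> simp
  apply pl_ext
  · rw [sh_zero, sh_zero, xA, xB]
  · rw [sh_one, sh_one, xA, xB, yA, yB]
    revert hs
    cases tA <;> cases tB <;> simp <;> intro h <;> linarith

/-! ### The exact statement -/

theorem conv6_neg {q : Fin 6 → Pl} (h : Conv6 q) : Conv6 (fun k => - q k) := by
  intro i j k hij hjk
  have := h i j k hij hjk
  have e : cr (-q j - -q i) (-q k - -q i) = cr (q j - q i) (q k - q i) := by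
    simp only [cr, PiLp.sub_apply, PiLp.neg_apply]; ring
  show 0 ≤ cr (-q j - -q i) (-q k - -q i)
  rw [e]; exact this

theorem ar6_neg (q : Fin 6 → Pl) : ar6 (fun k => - q k) = ar6 q := by
  unfold ar6
  congr 1
  apply Finset.sum_congr rfl
  intro k _
  simp only [cr, PiLp.neg_apply]; ring

/-- The exact statement, the vertical edge goes up. -/
theorem exact_up {K0 : Set Pl} {t6 : ℝ} (hconv : Convex ℝ K0) (hle : LeMax K0 t6)
    (hst : StrictMax K0 t6) (hs : Sym6 K0 t6) {a b : ℝ} (hab : a ^ 2 + b ^ 2 = 1)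
    (t : Fin 4 → Bool) (e : Fin 4 → ℝ) (q : Fin 4 → Fin 6 → Pl)
    (hc : ∀ i, Conv6 (q i)) (hq : ∀ i k, InBody K0 a b (t i) (q i k)) (ha : ∀ i, ar6 (q i) = t6)
    (h1 : Sh (e 0) (q 0 5 - q 0 0) = Sh (e 2) (q 2 1 - q 2 0))
    (h2 : Sh (e 2) (q 2 5 - q 2 0) = Sh (e 1) (q 1 1 - q 1 0))
    (h3 : Sh (e 1) (q 1 5 - q 1 0) = Sh (e 0) (q 0 1 - q 0 0))
    (h4 : Sh (e 1) (q 1 2 - q 1 1) = Sh (e 3) (q 3 5 - q 3 0))
    (h5 : Sh (e 2) (q 2 4 - q 2 5) = Sh (e 3) (q 3 1 - q 3 0))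
    (v1 : (q 0 1 - q 0 0) 0 = 0) (v2 : (q 2 2 - q 2 1) 0 = 0)
    (hup : (q 0 0) 1 < (q 0 1) 1) :
    Sh (e 0) (q 0 0 - q 0 4) = Sh (e 1) (q 1 2 - q 1 0) := by
  have M : MaxHyp (KV K0 a b) t6 := maxHyp hab hconv hle hst hs
  have key : ∀ (i : Fin 4) (m : Fin 6),
      IsMax (KV K0 a b) t6 (mdl (t i) (fun k => q i (k + m))) := fun i m =>
    isMax_mdl (t i) (conv6_shift (hc i) m) (fun k => hq i _) (by rw [ar6_shift]; exact ha i)
  have hA := key 0 4
  have hB := key 1 0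
  have hC := key 2 2
  have hD := key 3 1
  have sC1 : q 2 4 = - q 2 1 := by
    have := sym_of_mdl M hC 5
    exact this
  have sC2 : q 2 5 = - q 2 2 := by
    have := sym_of_mdl M hC 0
    exact this
  have hB0 : (fun k => q 1 (k + 0)) = q 1 := by funext k; rw [add_zero]
  rw [hB0] at hB
  have flip : ∀ {x y : ℝ} {u v u' v' : Pl}, Sh x (u - v) = Sh y (u' - v') →
      Sh x (v - u) = Sh y (v' - u') := by
    intro x y u v u' v' h
    rw [← neg_sub u v, ← neg_sub u' v', sh_neg, sh_neg, h]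
  have := exact_core M (eA := e 0) (eB := e 1) (eC := e 2) (eD := e 3) hA hB hC hD
    (show Sh (e 0) (q 0 1 - q 0 0) = Sh (e 1) (q 1 5 - q 1 0) from h3.symm)
    (show Sh (e 0) (q 0 0 - q 0 5) = Sh (e 2) (q 2 0 - q 2 1) from flip h1)
    (show Sh (e 1) (q 1 1 - q 1 0) = Sh (e 2) (q 2 5 - q 2 0) from h2.symm)
    (show Sh (e 1) (q 1 2 - q 1 1) = Sh (e 3) (q 3 5 - q 3 0) from h4)
    (show Sh (e 2) (q 2 5 - q 2 4) = Sh (e 3) (q 3 0 - q 3 1) from flip h5)
    (show (q 0 1) 0 = (q 0 0) 0 by rw [PiLp.sub_apply] at v1; linarith)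
    (show (q 2 5) 0 = (q 2 4) 0 by
      rw [sC1, sC2, PiLp.neg_apply, PiLp.neg_apply]
      rw [PiLp.sub_apply] at v2; linarith)
    (show (q 0 0) 1 < (q 0 1) 1 from hup)
  exact this

/-- The exact statement (4b) of row 552. -/
theorem exact_four {K0 : Set Pl} {t6 : ℝ} (hconv : Convex ℝ K0) (hK : ∀ v ∈ K0, -v ∈ K0)
    (hle : LeMax K0 t6) (hst : StrictMax K0 t6) (hs : Sym6 K0 t6) {a b : ℝ}
    (hab : a ^ 2 + b ^ 2 = 1)
    (t : Fin 4 → Bool) (e : Fin 4 → ℝ) (q : Fin 4 → Fin 6 → Pl)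
    (hc : ∀ i, Conv6 (q i)) (hq : ∀ i k, InBody K0 a b (t i) (q i k)) (ha : ∀ i, ar6 (q i) = t6)
    (h1 : Sh (e 0) (q 0 5 - q 0 0) = Sh (e 2) (q 2 1 - q 2 0))
    (h2 : Sh (e 2) (q 2 5 - q 2 0) = Sh (e 1) (q 1 1 - q 1 0))
    (h3 : Sh (e 1) (q 1 5 - q 1 0) = Sh (e 0) (q 0 1 - q 0 0))
    (h4 : Sh (e 1) (q 1 2 - q 1 1) = Sh (e 3) (q 3 5 - q 3 0))
    (h5 : Sh (e 2) (q 2 4 - q 2 5) = Sh (e 3) (q 3 1 - q 3 0))
    (v1 : (q 0 1 - q 0 0) 0 = 0) (v2 : (q 2 2 - q 2 1) 0 = 0) :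
    Sh (e 0) (q 0 0 - q 0 4) = Sh (e 1) (q 1 2 - q 1 0) := by
  rcases lt_trichotomy ((q 0 0) 1) ((q 0 1) 1) with hup | h0 | hdn
  · exact exact_up hconv hle hst hs hab t e q hc hq ha h1 h2 h3 h4 h5 v1 v2 hup
  · exfalso
    have h := hst a b (t 0) (fun j => q 0 (j + 0)) hab (conv6_shift (hc 0) 0)
      (fun j => hq 0 _) (by rw [ar6_shift]; exact ha 0)
    simp only [add_zero] at h
    have e0 : (q 0 1 - q 0 0) 1 = 0 := by rw [PiLp.sub_apply]; linarith
    have : cr (q 0 1 - q 0 0) (q 0 5 - q 0 0) = 0 := by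
      unfold cr; rw [v1, e0]; ring
    rw [this] at h
    exact lt_irrefl _ h
  · have ineg : ∀ i k, InBody K0 a b (t i) (-q i k) := by
      intro i k
      show Am 1 a (-b) (Jt (t i) (-q i k)) ∈ K0
      rw [Jt_neg', Am_neg']
      exact hK _ (hq i k)
    have nn : ∀ {x y : ℝ} {u v u' v' : Pl}, Sh x (u - v) = Sh y (u' - v') →
        Sh x (-u - -v) = Sh y (-u' - -v') := by
      intro x y u v u' v' h
      have e1 : -u - -v = -(u - v) := by abel
      have e2 : -u' - -v' = -(u' - v') := by abel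
      rw [e1, e2, sh_neg, sh_neg, h]
    have r := exact_up hconv hle hst hs hab t e (fun i k => - q i k) (fun i => conv6_neg (hc i))
      ineg (fun i => by rw [ar6_neg]; exact ha i)
      (nn h1) (nn h2) (nn h3) (nn h4) (nn h5)
      (by
        show (-q 0 1 - -q 0 0) 0 = 0
        rw [PiLp.sub_apply] at v1
        rw [PiLp.sub_apply, PiLp.neg_apply, PiLp.neg_apply]; linarith)
      (by
        show (-q 2 2 - -q 2 1) 0 = 0
        rw [PiLp.sub_apply] at v2
        rw [PiLp.sub_apply, PiLp.neg_apply, PiLp.neg_apply]; linarith)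
      (by
        show (-q 0 0) 1 < (-q 0 1) 1
        rw [PiLp.neg_apply, PiLp.neg_apply]; linarith)
    have e1 : -q 0 0 - -q 0 4 = -(q 0 0 - q 0 4) := by abel
    have e2 : -q 1 2 - -q 1 0 = -(q 1 2 - q 1 0) := by abel
    have r' : Sh (e 0) (-q 0 0 - -q 0 4) = Sh (e 1) (-q 1 2 - -q 1 0) := r
    rw [e1, e2, sh_neg, sh_neg] at r'
    exact neg_injective r'

end C2305bH68.Hang
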