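import Pool.Agent.W_c2305b_h35.Turn1
import Pool.Agent.W_c2305b_h35.VolCell
import Pool.Agent.W_c2305b_h28.FatJ3

/-!
# MP_c2305b_co, bounded eccentricity: a big cell without a side of large turning has a
nondegenerate hull of corners
-/

open MeasureTheory Set Module W82

namespace C2305bFat

open C2305b (Pl)
open C2305b.TL (cr)

/-- Three points not on a line give interior points of the hull. -/
theorem interior_of_three {S : Set Pl} {a b c : Pl} (ha : a ∈ S) (hb : b ∈ S) (hc : c ∈ S)
    (h0 : cr (b - a) (c - a) ≠ 0) : (interior (convexHull ℝ S)).Nonempty := by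
  rw [interior_convexHull_nonempty_iff_affineSpan_eq_top, eq_top_iff]
  intro x _
  have ha' : a ∈ affineSpan ℝ S := subset_affineSpan ℝ _ ha
  have hb' : b ∈ affineSpan ℝ S := subset_affineSpan ℝ _ hb
  have hc' : c ∈ affineSpan ℝ S := subset_affineSpan ℝ _ hc
  have h1 := (affineSpan ℝ S).smul_vsub_vadd_mem
    (cr (b - a) (x - a) / cr (b - a) (c - a)) hc' ha' ha'
  have h2 := (affineSpan ℝ S).smul_vsub_vadd_mem
    (cr (x - a) (c - a) / cr (b - a) (c - a)) hb' ha' h1
  have hx : x = (cr (x - a) (c - a) / cr (b - a) (c - a)) • (b -ᵥ a) +ᵥ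
      ((cr (b - a) (x - a) / cr (b - a) (c - a)) • (c -ᵥ a) +ᵥ a) := by
    simp only [vsub_eq_sub, vadd_eq_add]
    have h4 : cr (b - a) (c - a) • (x - a)
        = cr (x - a) (c - a) • (b - a) + cr (b - a) (x - a) • (c - a) := by
      ext k
      fin_cases k
      · simp [cr]; ring
      · simp [cr]; ring
    have h5 : x - a = (cr (b - a) (c - a))⁻¹ • (cr (b - a) (c - a) • (x - a)) := by
      rw [smul_smul, inv_mul_cancel₀ h0, one_smul]
    have h6 : x = (x - a) + a := by abel
    conv_lhs => rw [h6, h5, h4]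
    rw [smul_add, smul_smul, smul_smul]
    simp only [div_eq_inv_mul]
    abel
  rw [hx]
  exact h2

/-- Three collinear points: one of them is between the others. -/
theorem between_cr {a b c : Pl} (hab : a ≠ b) (hca : c ≠ a) (hcb : c ≠ b)
    (h0 : cr (b - a) (c - a) = 0) :
    a ∈ openSegment ℝ c b ∨ c ∈ openSegment ℝ a b ∨ b ∈ openSegment ℝ a c := by
  have hba : b - a ≠ 0 := sub_ne_zero.mpr hab.symm
  have hf : C2305b.TL.crL (b - a) ≠ 0 := C2305b.TL.crL_ne_zero hba
  have e : ∀ x : Pl, C2305b.TL.crL (b - a) x = cr (b - a) x := fun x => C2305b.TL.crL_apply _ _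
  have hb : C2305b.TL.crL (b - a) b = C2305b.TL.crL (b - a) a := by
    have h1 : cr (b - a) (b - a) = 0 := C2305b.TL.cr_self _
    rw [C2305b.TL.cr_sub_right] at h1
    rw [e, e]
    linarith
  have hc : C2305b.TL.crL (b - a) c = C2305b.TL.crL (b - a) a := by
    rw [C2305b.TL.cr_sub_right] at h0
    rw [e, e]
    linarith
  exact between_of_line (C2305b.TL.crL (b - a)) hf rfl hb hc hab hca hcb

/-- A cell with degenerate hull of corners owns at most one side. -/
theorem own_le_one {ι : Type*} [Fintype ι] {D : Set Pl} {P : ι → Set Pl} (h : Tiling D P)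
    (hi : (interior (convexHull ℝ (Vb D P))).Nonempty) {i : ι}
    (hdeg : ¬ (interior (convexHull ℝ (S P i))).Nonempty) {s s' : Pl × Pl}
    (hs : Side D P s.1 s.2) (hs' : Side D P s'.1 s'.2)
    (hsi : segment ℝ s.1 s.2 ⊆ P i) (hsi' : segment ℝ s'.1 s'.2 ⊆ P i) : s = s' := by
  obtain ⟨p, q⟩ := s
  obtain ⟨p', q'⟩ := s'
  simp only at hs hs' hsi hsi'
  have hpP := hsi (left_mem_segment ℝ p q)
  have hqP := hsi (right_mem_segment ℝ p q)
  have hpP' := hsi' (left_mem_segment ℝ p' q')
  have hqP' := hsi' (right_mem_segment ℝ p' q')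
  have hpS := h.vb_sub hs.1 hpP
  have hqS := h.vb_sub hs.2.1 hqP
  have hpS' := h.vb_sub hs'.1 hpP'
  have hqS' := h.vb_sub hs'.2.1 hqP'
  have hpq : p ≠ q := hs.2.2.1.symm
  -- a corner of the cell is `p` or `q`
  have key : ∀ c ∈ S P i, c = p ∨ c = q := by
    intro c hc
    by_contra hcon
    push Not at hcon
    have h0 : cr (q - p) (c - p) = 0 := by
      by_contra h1
      exact hdeg (interior_of_three hpS hqS hc h1)
    rcases between_cr hpq hcon.1 hcon.2 h0 with h1 | h1 | h1
    · have := (mem_extremePoints.mp hpS.1).2 c hc.1.1 q hqS.1.1 h1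
      exact hcon.1 this.1
    · have := (mem_extremePoints.mp hc.1).2 p hpS.1.1 q hqS.1.1 h1
      exact hcon.1 this.1.symm
    · have := (mem_extremePoints.mp hqS.1).2 p hpS.1.1 c hc.1.1 h1
      exact hpq this.1
  have hpq' : p' ≠ q' := hs'.2.2.1.symm
  rcases key p' hpS' with h1 | h1 <;> rcases key q' hqS' with h2 | h2
  · exact absurd (h1.trans h2.symm) hpq'
  · rw [h1, h2]
  · exfalso
    subst h1 h2
    obtain ⟨z, hz⟩ := hi
    have e1 := side_pos' hs hz
    have e2 := side_pos' hs' hz
    have e3 : cr (p' - q') (z - q') = cr (q' - p') (p' - z) := by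
      unfold cr
      simp only [PiLp.sub_apply]
      ring
    have e4 : cr (q' - p') (z - p') = - cr (q' - p') (p' - z) := by
      unfold cr
      simp only [PiLp.sub_apply]
      ring
    linarith
  · exact absurd (h1.trans h2.symm) hpq'

open Classical in
/-- **(GEO)** a big cell whose sides have small turning has a nondegenerate hull of corners. -/
theorem geo {α a0 ε : ℝ} {ι : Type} [Fintype ι] {D K : Set Pl} {P : ι → Set Pl}
    (h : Vio D P K) (hKα : K ⊆ Metric.closedBall 0 α) {T : Pl → Pl} (hT : Frame D P T)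
    (hε0 : 0 ≤ ε) (hε1 : ε ≤ 1) (hε : 8 * α ^ 2 * ε < a0) (own : V × V → ι)
    (hown : ∀ s ∈ h.til.sides h.hull, segment ℝ s.1 s.2 ⊆ P (own s) ∧
      cap D s.1 s.2 ⊆ P (own s)) {i : ι}
    (hi : a0 ≤ (volume (P i)).toReal)
    (ht : ∀ s ∈ h.til.sides h.hull, own s = i → turn T s.1 s.2 ≤ ε) :
    (interior (convexHull ℝ (S P i))).Nonempty := by
  by_contra hdeg
  have h0 : volume (convexHull ℝ (S P i)) = 0 :=
    volume_zero_of_interior_empty (convex_convexHull ℝ _) (not_nonempty_iff_eq_empty.mp hdeg)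
  set F := (h.til.sides h.hull).filter (fun s => own s = i) with hF
  have hFs : ∀ s ∈ F, Side D P s.1 s.2 := fun s hs =>
    (h.til.mem_sides h.hull).1 (Finset.mem_filter.1 hs).1
  have hFc : F.card ≤ 1 := by
    rw [Finset.card_le_one]
    intro s hs s' hs'
    refine own_le_one h.til h.hull hdeg (hFs s hs) (hFs s' hs') ?_ ?_
    · have := (hown s (Finset.mem_filter.1 hs).1).1
      rwa [(Finset.mem_filter.1 hs).2] at this
    · have := (hown s' (Finset.mem_filter.1 hs').1).1
      rwa [(Finset.mem_filter.1 hs').2] at this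
  have hsub : interior (P i) ⊆ convexHull ℝ (S P i) ∪ ⋃ s ∈ F, cap D s.1 s.2 := by
    intro z hz
    by_cases hc : ∀ s ∈ h.til.sides h.hull, own s = i → z ∉ cap D s.1 s.2
    · exact Or.inl (mem_hull_of h.til h.hull own hown hz hc)
    · push Not at hc
      obtain ⟨s, hs, ho, hz'⟩ := hc
      exact Or.inr (mem_iUnion₂.2 ⟨s, Finset.mem_filter.2 ⟨hs, ho⟩, hz'⟩)
  have hvol : volume (P i) ≤ ∑ s ∈ F, volume (cap D s.1 s.2) := by
    calc volume (P i) ≤ volume (closure (interior (P i))) := measure_mono (h.til.reg i)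
      _ ≤ volume (interior (P i) ∪ frontier (interior (P i))) := by
          rw [← closure_eq_self_union_frontier]
      _ ≤ volume (interior (P i)) + volume (frontier (interior (P i))) := measure_union_le _ _
      _ = volume (interior (P i)) := by
          rw [(h.til.conv i).interior.addHaar_frontier volume, add_zero]
      _ ≤ volume (convexHull ℝ (S P i) ∪ ⋃ s ∈ F, cap D s.1 s.2) := measure_mono hsub
      _ ≤ volume (convexHull ℝ (S P i)) + volume (⋃ s ∈ F, cap D s.1 s.2) := measure_union_le _ _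
      _ = volume (⋃ s ∈ F, cap D s.1 s.2) := by rw [h0, zero_add]
      _ ≤ ∑ s ∈ F, volume (cap D s.1 s.2) := measure_biUnion_finset_le _ _
  have hcapfin : ∀ p : V × V, volume (cap D p.1 p.2) ≠ ⊤ := fun p =>
    ((measure_mono fun z hz => hz.1).trans_lt h.til.compD.measure_lt_top).ne
  have hreal : (volume (P i)).toReal ≤ ∑ s ∈ F, (volume (cap D s.1 s.2)).toReal := by
    rw [← ENNReal.toReal_sum fun p _ => hcapfin p]
    exact ENNReal.toReal_mono (ENNReal.sum_ne_top.mpr fun p _ => hcapfin p) hvol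
  have hle : ∑ s ∈ F, (volume (cap D s.1 s.2)).toReal ≤ F.card * (8 * α ^ 2 * ε) := by
    rw [← nsmul_eq_mul, ← Finset.sum_const]
    apply Finset.sum_le_sum
    intro s hs
    have h1 := ht s (Finset.mem_filter.1 hs).1 (Finset.mem_filter.1 hs).2
    have h2 := cap_le_turn h hKα hT (hFs s hs) (h1.trans hε1)
    refine h2.trans ?_
    gcongr
  have hcard : (F.card : ℝ) * (8 * α ^ 2 * ε) ≤ 8 * α ^ 2 * ε := by
    have h1 : (F.card : ℝ) ≤ 1 := by exact_mod_cast hFc
    have h2 : 0 ≤ 8 * α ^ 2 * ε := by positivity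
    nlinarith
  linarith

end C2305bFat
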