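import Pool.Agent.W_c2305b_h89.Defs

/-!
# The Monge inequality for boundary points of a symmetric convex body (algebraic form)
-/

namespace C2305bH68.Sym

open C2305b.Rig

theorem pl_ext {u v : Pl} (h0 : u 0 = v 0) (h1 : u 1 = v 1) : u = v := by
  ext k
  fin_cases k
  · exact h0
  · exact h1

theorem cr_self (u : Pl) : cr u u = 0 := by unfold cr; ring

theorem cr_swap (u v : Pl) : cr u v = - cr v u := by unfold cr; ring

theorem cr_neg_left (u v : Pl) : cr (-u) v = - cr u v := by
  unfold cr; simp only [PiLp.neg_apply]; ring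

theorem cr_neg_right (u v : Pl) : cr u (-v) = - cr u v := by
  unfold cr; simp only [PiLp.neg_apply]; ring

theorem cr_add_left (u v w : Pl) : cr (u + v) w = cr u w + cr v w := by
  unfold cr; simp only [PiLp.add_apply]; ring

theorem cr_add_right (u v w : Pl) : cr u (v + w) = cr u v + cr u w := by
  unfold cr; simp only [PiLp.add_apply]; ring

theorem cr_sub_left (u v w : Pl) : cr (u - v) w = cr u w - cr v w := by
  unfold cr; simp only [PiLp.sub_apply]; ring

theorem cr_sub_right (u v w : Pl) : cr u (v - w) = cr u v - cr u w := by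
  unfold cr; simp only [PiLp.sub_apply]; ring

theorem cr_smul_left (r : ℝ) (u v : Pl) : cr (r • u) v = r * cr u v := by
  unfold cr; simp only [PiLp.smul_apply, smul_eq_mul]; ring

theorem cr_smul_right (r : ℝ) (u v : Pl) : cr u (r • v) = r * cr u v := by
  unfold cr; simp only [PiLp.smul_apply, smul_eq_mul]; ring

theorem cr_zero_left (u : Pl) : cr 0 u = 0 := by unfold cr; simp

theorem cr_zero_right (u : Pl) : cr u 0 = 0 := by unfold cr; simp

/-- Pluecker relation. -/
theorem plucker (a b c d : Pl) : cr a b * cr c d - cr a c * cr b d + cr a d * cr b c = 0 := by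
  unfold cr; ring

/-- Three vectors in the plane, evaluated by `cr n`. -/
theorem three (n x y z : Pl) : cr x z * cr n y = cr y z * cr n x + cr x y * cr n z := by
  unfold cr; ring

/-- A boundary point `y` (with support functional `cr n`) lies beyond the chord `x z`. -/
theorem tri_ineq {n x y z : Pl} (hx : cr n x ≤ 1) (hz : cr n z ≤ 1) (hy : cr n y = 1)
    (hxy : 0 ≤ cr x y) (hyz : 0 ≤ cr y z) : cr x z ≤ cr x y + cr y z := by
  have h := three n x y z
  rw [hy, mul_one] at h
  rw [h]
  have h1 := mul_le_mul_of_nonneg_left hx hyz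
  have h2 := mul_le_mul_of_nonneg_left hz hxy
  linarith

/-- **Monge inequality**, algebraic core: `a ≤ b ≤ c ≤ d ≤ - a` on the boundary. -/
theorem monge {a b c d : Pl} (hab : 0 ≤ cr a b) (had : 0 ≤ cr a d)
    (hbc : 0 ≤ cr b c) (hcd : 0 ≤ cr c d)
    (h1 : cr a c ≤ cr a d + cr c d) (h2 : cr b c ≤ cr a b + cr a c)
    (h3 : cr b d ≤ cr b c + cr c d) (h4 : cr a d ≤ cr a b + cr b d)
    (hac : 0 < cr a c ∨ a = b ∨ c = d) (hbd : 0 < cr b d ∨ a = b ∨ c = d) :
    0 ≤ cr (b - a) (d - c) := by
  rcases hac with hac | rfl | rfl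
  rotate_left
  · rw [sub_self, cr_zero_left]
  · rw [sub_self, cr_zero_right]
  rcases hbd with hbd | rfl | rfl
  rotate_left
  · rw [sub_self, cr_zero_left]
  · rw [sub_self, cr_zero_right]
  have e : cr (b - a) (d - c) = (cr b d - cr a d) - (cr b c - cr a c) := by
    rw [cr_sub_left, cr_sub_right, cr_sub_right]; ring
  have hP := plucker a b c d
  rw [e]
  by_cases hc : 0 ≤ cr b c - cr a c
  · -- use `d` between `c` and `- a`
    have k1 : (cr b d - cr a d) * cr a c = cr a d * (cr b c - cr a c) + cr c d * cr a b := by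
      linear_combination (-1 : ℝ) * hP
    have k2 : (cr a d + cr c d) * (cr b c - cr a c) ≤
        cr a d * (cr b c - cr a c) + cr c d * cr a b := by
      have := mul_le_mul_of_nonneg_left (show cr b c - cr a c ≤ cr a b by linarith) hcd
      linarith
    have k3 : cr a c * (cr b c - cr a c) ≤ (cr a d + cr c d) * (cr b c - cr a c) :=
      mul_le_mul_of_nonneg_right h1 hc
    have k4 : cr a c * (cr b c - cr a c) ≤ cr a c * (cr b d - cr a d) := by linarith
    have := le_of_mul_le_mul_left k4 hac
    linarith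
  · push Not at hc
    by_cases hd : 0 ≤ cr b d - cr a d
    · linarith
    · push Not at hd
      have k1 : (cr b c - cr a c) * cr b d = - (cr a b * cr c d) + cr b c * (cr b d - cr a d) := by
        linear_combination hP
      have k2 : - (cr a b * cr c d) ≤ cr c d * (cr b d - cr a d) := by
        have := mul_le_mul_of_nonneg_left (show - cr a b ≤ cr b d - cr a d by linarith) hcd
        linarith
      have k3 : (cr c d + cr b c) * (cr b d - cr a d) ≤ cr b d * (cr b d - cr a d) :=
        mul_le_mul_of_nonpos_right (by linarith) hd.le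
      have k4 : cr b d * (cr b c - cr a c) ≤ cr b d * (cr b d - cr a d) := by linarith
      have := le_of_mul_le_mul_left k4 hbd
      linarith

/-- **Monge inequality** for four boundary points (with support functionals) of a symmetric
body. -/
theorem monge_support {K : Set Pl} (hsym : ∀ x ∈ K, -x ∈ K) {a b c d na nb nc nd : Pl}
    (ha : a ∈ K) (hb : b ∈ K) (hc : c ∈ K) (hd : d ∈ K)
    (sa : ∀ x ∈ K, cr na x ≤ 1) (sb : ∀ x ∈ K, cr nb x ≤ 1) (sc : ∀ x ∈ K, cr nc x ≤ 1)
    (sd : ∀ x ∈ K, cr nd x ≤ 1) (ea : cr na a = 1) (eb : cr nb b = 1) (ec : cr nc c = 1)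
    (ed : cr nd d = 1)
    (hab : 0 ≤ cr a b) (hac0 : 0 ≤ cr a c) (had : 0 ≤ cr a d) (hbc : 0 ≤ cr b c)
    (hbd0 : 0 ≤ cr b d) (hcd : 0 ≤ cr c d)
    (hac : 0 < cr a c ∨ a = b ∨ c = d) (hbd : 0 < cr b d ∨ a = b ∨ c = d) :
    0 ≤ cr (b - a) (d - c) := by
  have hbneg := hsym b hb
  have haneg := hsym a ha
  refine monge hab had hbc hcd ?_ ?_ ?_ ?_ hac hbd
  · have h := tri_ineq (n := nd) (x := c) (y := d) (z := -a) (sd c hc) (sd _ haneg) ed hcd
      (by rw [cr_neg_right, cr_swap d a]; linarith)
    rw [cr_neg_right, cr_neg_right, cr_swap c a, cr_swap d a] at h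
    linarith
  · have h := tri_ineq (n := -na) (x := c) (y := -a) (z := -b)
      (by
        have := sa (-c) (hsym c hc)
        rw [cr_neg_right] at this
        rw [cr_neg_left]; exact this)
      (by rw [cr_neg_left, cr_neg_right, neg_neg]; exact sa b hb)
      (by rw [cr_neg_left, cr_neg_right, neg_neg]; exact ea)
      (by rw [cr_neg_right, cr_swap c a]; linarith)
      (by rw [cr_neg_left, cr_neg_right, neg_neg]; exact hab)
    rw [cr_neg_right, cr_neg_right, cr_neg_left, cr_neg_right, neg_neg, cr_swap c b,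
      cr_swap c a] at h
    linarith
  · exact tri_ineq (sc b hb) (sc d hd) ec hbc hcd
  · exact tri_ineq (sb a ha) (sb d hd) eb hab hbd0

end C2305bH68.Sym
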