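import Pool.Agent.W_c2305b_h72.NearSym
import Pool.Agent.W_c2305b_h68.Monge

/-!
# Maximal sextuples with a vertical edge (row 552, G2, part (U))
-/

open Set Topology Filter

namespace C2305bH68.Hang

open C2305b.Rig
open C2305bH68.Sym (cr_self cr_swap cr_neg_left cr_neg_right cr_add_left cr_add_right cr_sub_left
  cr_sub_right cr_smul_left cr_smul_right cr_zero_left cr_zero_right pl_ext)

/-- Every maximal sextuple is symmetric with strict corners. -/
structure MaxHyp (K : Set Pl) (t6 : ℝ) : Prop where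
  conv : Convex ℝ K
  le : LeMax K t6
  sym : ∀ q, Conv6 q → (∀ k, q k ∈ K) → ar6 q = t6 → ∀ k, q (k + 3) = - q k
  strict : ∀ q, Conv6 q → (∀ k, q k ∈ K) → ar6 q = t6 →
    ∀ k, 0 < cr (q (k + 1) - q k) (q (k + 2) - q (k + 1))

/-- A maximal sextuple. -/
structure IsMax (K : Set Pl) (t6 : ℝ) (q : Fin 6 → Pl) : Prop where
  conv : Conv6 q
  mem : ∀ k, q k ∈ K
  area : ar6 q = t6

theorem sum_six (p : Fin 6 → Pl) : ∑ k, cr (p k) (p (k + 1)) =
    cr (p 0) (p 1) + cr (p 1) (p 2) + cr (p 2) (p 3) + cr (p 3) (p 4) + cr (p 4) (p 5) +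
      cr (p 5) (p 0) := by
  rw [Fin.sum_univ_six]; rfl

variable {K : Set Pl} {t6 : ℝ} (M : MaxHyp K t6) {q : Fin 6 → Pl} (hq : IsMax K t6 q)

include M hq

theorem q3 : q 3 = - q 0 := M.sym q hq.conv hq.mem hq.area 0
theorem q4 : q 4 = - q 1 := M.sym q hq.conv hq.mem hq.area 1
theorem q5 : q 5 = - q 2 := M.sym q hq.conv hq.mem hq.area 2

/-- The three triangle inequalities. -/
theorem tri : cr (q 0) (q 2) < cr (q 0) (q 1) + cr (q 1) (q 2) ∧
    cr (q 0) (q 1) < cr (q 1) (q 2) + cr (q 0) (q 2) ∧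
    cr (q 1) (q 2) < cr (q 0) (q 1) + cr (q 0) (q 2) := by
  have s0 := M.strict q hq.conv hq.mem hq.area 0
  have s1 := M.strict q hq.conv hq.mem hq.area 1
  have s2 := M.strict q hq.conv hq.mem hq.area 2
  have s0' : 0 < cr (q 1 - q 0) (q 2 - q 1) := s0
  have s1' : 0 < cr (q 2 - q 1) (q 3 - q 2) := s1
  have s2' : 0 < cr (q 3 - q 2) (q 4 - q 3) := s2
  rw [q3 M hq] at s1' s2'
  rw [q4 M hq] at s2'
  have a1 := cr_swap (q 1) (q 0)
  have a2 := cr_swap (q 2) (q 0)
  have a3 := cr_swap (q 2) (q 1)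
  simp only [cr_sub_left, cr_sub_right, cr_neg_left, cr_neg_right, cr_self] at s0' s1' s2'
  refine ⟨?_, ?_, ?_⟩ <;> linarith

/-- All triples are strictly convex. -/
theorem strict_all : ∀ i j l : Fin 6, i < j → j < l → 0 < cr (q j - q i) (q l - q i) := by
  obtain ⟨t0, t1, t2⟩ := tri M hq
  have e3 := q3 M hq
  have e4 := q4 M hq
  have e5 := q5 M hq
  have a1 := cr_swap (q 1) (q 0)
  have a2 := cr_swap (q 2) (q 0)
  have a3 := cr_swap (q 2) (q 1)
  intro i j l hij hjl
  fin_cases i <;> fin_cases j <;>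
    first
    | (exfalso; revert hij; decide)
    | (fin_cases l <;>
        first
        | (exfalso; revert hjl; decide)
        | (simp [e3, e4, e5, cr_sub_left, cr_sub_right, cr_add_left, cr_add_right, cr_neg_left,
             cr_neg_right, cr_self]
           linarith))

/-- Support lines at the corners. -/
theorem support {x : Pl} (hx : x ∈ K) (k : Fin 6) :
    0 ≤ cr (q (k + 1) - q (k + 5)) (x - q k) := by
  by_contra hcon
  push Not at hcon
  let P : ℝ → Fin 6 → Pl := fun s => Function.update q k (q k + s • (x - q k))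
  have hP0 : P 0 = q := by
    show Function.update q k (q k + (0 : ℝ) • (x - q k)) = q
    rw [zero_smul, add_zero, Function.update_eq_self]
  have hcont : ∀ i, Continuous fun s => P s i := by
    intro i
    by_cases hi : i = k
    · subst hi
      simp only [P, Function.update_self]
      fun_prop
    · simp only [P, Function.update_of_ne hi]
      exact continuous_const
  have hev : ∀ᶠ s in 𝓝 (0 : ℝ), ∀ i j l : Fin 6, i < j → j < l →
      0 < cr (P s j - P s i) (P s l - P s i) := by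
    refine eventually_all.2 fun i => eventually_all.2 fun j => eventually_all.2 fun l => ?_
    by_cases hij : i < j
    · by_cases hjl : j < l
      · have hc : Continuous fun s => cr (P s j - P s i) (P s l - P s i) :=
          N72.continuous_cr ((hcont j).sub (hcont i)) ((hcont l).sub (hcont i))
        have h0 : 0 < cr (P 0 j - P 0 i) (P 0 l - P 0 i) := by
          rw [hP0]; exact strict_all M hq i j l hij hjl
        have := hc.continuousAt.eventually_const_lt h0
        filter_upwards [this] with s hs _ _ using hs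
      · exact Eventually.of_forall fun s _ h => absurd h hjl
    · exact Eventually.of_forall fun s h => absurd h hij
  obtain ⟨ε, hε, hball⟩ := Metric.eventually_nhds_iff.1 hev
  set s := min (ε / 2) 1 with hs
  have hs0 : 0 < s := lt_min (by linarith) one_pos
  have hs1 : s ≤ 1 := min_le_right _ _
  have hsε : dist s 0 < ε := by
    rw [Real.dist_eq, sub_zero, abs_of_pos hs0]
    have := min_le_left (ε / 2) 1
    linarith
  have hconv : Conv6 (P s) := fun i j l hij hjl => (hball hsε i j l hij hjl).le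
  have hmem : ∀ i, P s i ∈ K := by
    intro i
    by_cases hi : i = k
    · subst hi
      simp only [P, Function.update_self]
      have := M.conv (hq.mem i) hx (show 0 ≤ 1 - s by linarith) hs0.le (by ring)
      have e : q i + s • (x - q i) = (1 - s) • q i + s • x := by
        rw [smul_sub, sub_smul, one_smul]; abel
      rw [e]; exact this
    · simp only [P, Function.update_of_ne hi]
      exact hq.mem i
  have hle := M.le (P s) hconv hmem
  have harea : ar6 (P s) = ar6 q - s * cr (q (k + 1) - q (k + 5)) (x - q k) / 2 := by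
    unfold ar6
    rw [sum_six, sum_six]
    fin_cases k <;>
      (simp [P, cr_sub_left, cr_sub_right, cr_add_left, cr_add_right,
        cr_smul_left, cr_smul_right]
       simp only [cr]
       ring)
  rw [harea, hq.area] at hle
  nlinarith [mul_pos hs0 (neg_pos.2 hcon)]

/-! ### A vertical edge on the right -/

/-- Extents of the lower chain. -/
theorem ext_pos (h0 : (q 3) 0 = (q 2) 0) (h1 : (q 2) 1 < (q 3) 1) :
    0 < (q 1) 0 - (q 0) 0 ∧ 0 < (q 2) 0 - (q 1) 0 := by
  have s1 : 0 < cr (q 2 - q 1) (q 3 - q 2) := M.strict q hq.conv hq.mem hq.area 1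
  have s5 : 0 < cr (q 0 - q 5) (q 1 - q 0) := M.strict q hq.conv hq.mem hq.area 5
  have e3 := q3 M hq
  have e5 := q5 M hq
  have c0 : (q 0) 0 = - (q 3) 0 := by rw [e3]; simp
  have c1 : (q 0) 1 = - (q 3) 1 := by rw [e3]; simp
  have d0 : (q 5) 0 = - (q 2) 0 := by rw [e5]; simp
  have d1 : (q 5) 1 = - (q 2) 1 := by rw [e5]; simp
  simp only [cr, PiLp.sub_apply] at s1 s5
  rw [d0, d1, c0, c1] at s5
  rw [h0] at s1 s5
  rw [c0, h0]
  constructor
  · by_contra hcon
    push Not at hcon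
    nlinarith
  · by_contra hcon
    push Not at hcon
    nlinarith

/-- The chord of `K` at the abscissa of the right edge and beyond. -/
theorem chord (h0 : (q 3) 0 = (q 2) 0) {x : Pl}
    (hx : x ∈ K) :
    ((q 1) 0 - (q 0) 0) * (x 1 - (q 3) 1) ≤ ((q 1) 1 + (q 2) 1) * (x 0 - (q 2) 0) ∧
    ((q 3) 1 - (q 1) 1) * (x 0 - (q 2) 0) ≤ ((q 2) 0 - (q 1) 0) * (x 1 - (q 2) 1) := by
  have s3 : 0 ≤ cr (q 4 - q 2) (x - q 3) := support M hq hx 3
  have s2 : 0 ≤ cr (q 3 - q 1) (x - q 2) := support M hq hx 2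
  have e3 := q3 M hq
  have e4 := q4 M hq
  have c0 : (q 0) 0 = - (q 2) 0 := by rw [← h0, e3]; simp
  have f0 : (q 4) 0 = - (q 1) 0 := by rw [e4]; simp
  have f1 : (q 4) 1 = - (q 1) 1 := by rw [e4]; simp
  simp only [cr, PiLp.sub_apply] at s3 s2
  rw [f0, f1, h0] at s3
  rw [h0] at s2
  rw [c0]
  constructor <;> nlinarith

/-- Beyond the right edge the vertical chords are shorter. -/
theorem short (h0 : (q 3) 0 = (q 2) 0) (h1 : (q 2) 1 < (q 3) 1) {x y : Pl} (hx : x ∈ K)
    (hy : y ∈ K) (hxy : x 0 = y 0) (hd : (q 2) 0 < x 0) : y 1 - x 1 < (q 3) 1 - (q 2) 1 := by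
  obtain ⟨ha, hb⟩ := ext_pos M hq h0 h1
  have c1 := (chord M hq h0 hy).1
  have c2 := (chord M hq h0 hx).2
  have s0 : 0 < cr (q 1 - q 0) (q 2 - q 1) := M.strict q hq.conv hq.mem hq.area 0
  have e3 := q3 M hq
  have g1 : (q 0) 1 = - (q 3) 1 := by rw [e3]; simp
  simp only [cr, PiLp.sub_apply] at s0
  rw [g1] at s0
  rw [← hxy] at c1
  set a := (q 1) 0 - (q 0) 0 with hadef
  set b := (q 2) 0 - (q 1) 0 with hbdef
  set d := x 0 - (q 2) 0 with hddef
  have hd0 : 0 < d := by rw [hddef]; linarith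
  set h := (q 3) 1 - (q 2) 1 with hhdef
  have hh0 : 0 < h := by rw [hhdef]; linarith
  by_contra hcon
  push Not at hcon
  -- multiply out
  have k1 : b * (a * (y 1 - (q 3) 1)) ≤ b * (((q 1) 1 + (q 2) 1) * d) :=
    mul_le_mul_of_nonneg_left c1 hb.le
  have k2 : a * (((q 3) 1 - (q 1) 1) * d) ≤ a * (b * (x 1 - (q 2) 1)) :=
    mul_le_mul_of_nonneg_left c2 ha.le
  have k3 : a * b * (y 1 - x 1 - h) ≤
      d * (b * ((q 1) 1 + (q 2) 1) - a * ((q 3) 1 - (q 1) 1)) := by
    rw [hhdef]; nlinarith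
  have k4 : b * ((q 1) 1 + (q 2) 1) - a * ((q 3) 1 - (q 1) 1) < 0 := by
    have : a * h + b * h > 0 := by positivity
    rw [hhdef] at this
    nlinarith
  have k5 : 0 ≤ a * b * (y 1 - x 1 - h) := by
    apply mul_nonneg (mul_nonneg ha.le hb.le); linarith
  have k6 : d * (b * ((q 1) 1 + (q 2) 1) - a * ((q 3) 1 - (q 1) 1)) < 0 :=
    mul_neg_of_pos_of_neg hd0 k4
  linarith

/-- At the abscissa of the right edge. -/
theorem at_edge (h0 : (q 3) 0 = (q 2) 0) (h1 : (q 2) 1 < (q 3) 1) {x : Pl} (hx : x ∈ K)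
    (hd : x 0 = (q 2) 0) : (q 2) 1 ≤ x 1 ∧ x 1 ≤ (q 3) 1 := by
  obtain ⟨ha, hb⟩ := ext_pos M hq h0 h1
  obtain ⟨c1, c2⟩ := chord M hq h0 hx
  rw [hd, sub_self, mul_zero] at c1 c2
  constructor
  · have := nonneg_of_mul_nonneg_right c2 hb
    linarith
  · by_contra hcon
    push Not at hcon
    have : 0 < ((q 1) 0 - (q 0) 0) * (x 1 - (q 3) 1) := mul_pos ha (by linarith)
    linarith

end C2305bH68.Hang
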