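import Pool.Agent.W_c2305b_h68.Hang1

/-!
# Uniqueness of the maximal sextuple with a vertical edge (row 552, G2, part (U))
-/

open Set

namespace C2305bH68.Hang

open C2305b.Rig
open C2305bH68.Sym (cr_self cr_swap cr_neg_left cr_neg_right cr_add_left cr_add_right cr_sub_left
  cr_sub_right cr_smul_left cr_smul_right cr_zero_left cr_zero_right pl_ext)

variable {K : Set Pl} {t6 : ℝ} (M : MaxHyp K t6) {q q' : Fin 6 → Pl} (hq : IsMax K t6 q)
  (hq' : IsMax K t6 q')

/-- `q` with the corner `1` of `q'`. -/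
def mix (q q' : Fin 6 → Pl) : Fin 6 → Pl := ![q 0, q' 1, q 2, q 3, q 4, q 5]

include M hq hq'

/-- Equal right edges: the mixed sextuple is convex. -/
theorem conv6_mix (h0 : (q 3) 0 = (q 2) 0) (h1 : (q 2) 1 < (q 3) 1) (h2 : q' 2 = q 2)
    (h3 : q' 3 = q 3) : Conv6 (mix q q') := by
  have e3 := q3 M hq
  have e4 := q4 M hq
  have e5 := q5 M hq
  have e3' := q3 M hq'
  have e5' := q5 M hq'
  have h0' : q' 0 = q 0 := by
    have : - q' 0 = - q 0 := by rw [← e3', ← e3, h3]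
    exact neg_injective this
  have h5' : q' 5 = q 5 := by rw [e5', e5, h2]
  have sq := strict_all M hq
  have sq' := strict_all M hq'
  obtain ⟨ha, hb⟩ := ext_pos M hq h0 h1
  obtain ⟨ha', hb'⟩ := ext_pos M hq' (by rw [h2, h3]; exact h0) (by rw [h2, h3]; exact h1)
  -- the two strict corners at the apexes
  have c := sq 0 1 2 (by decide) (by decide)
  have c' := sq' 0 1 2 (by decide) (by decide)
  rw [h0', h2] at c'
  rw [h0'] at ha'
  rw [h2] at hb'
  have x0 : (q 0) 0 = - (q 2) 0 := by rw [← h0, e3]; simp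
  have y0 : (q 3) 1 = - (q 0) 1 := by rw [e3]; simp
  have x3 : (q 3) 0 = (q 2) 0 := h0
  have x4 : (q 4) 0 = - (q 1) 0 := by rw [e4]; simp
  have y4 : (q 4) 1 = - (q 1) 1 := by rw [e4]; simp
  have x5 : (q 5) 0 = - (q 2) 0 := by rw [e5]; simp
  have y5 : (q 5) 1 = - (q 2) 1 := by rw [e5]; simp
  -- names
  set X := (q 2) 0 with hX
  set Y := (q 2) 1 with hY
  set Z := (q 0) 1 with hZ
  set u := (q 1) 0 with hu
  set v := (q 1) 1 with hv
  set u' := (q' 1) 0 with hu'
  set v' := (q' 1) 1 with hv'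
  simp only [cr, PiLp.sub_apply] at c c'
  rw [← hX, ← hY, ← hZ, ← hu, ← hv, x0] at c
  rw [← hX, ← hY, ← hZ, ← hu', ← hv', x0] at c'
  rw [x0] at ha ha'
  rw [y0] at h1
  -- h = - Z - Y > 0, w = 2 X > 0
  have hh : 0 < - Z - Y := by linarith
  have hw : 0 < 2 * X := by linarith
  have k1 : 0 < 2 * X * cr (q' 1 - q 0) (q 4 - q 0) := by
    have : 2 * X * cr (q' 1 - q 0) (q 4 - q 0) = (u' + X) * (2 * X * (-Z - Y) +
        ((u + X) * (Y - Z) - (v - Z) * (X - -X))) +
        (X - u) * ((u' + X) * (Y - Z) - (v' - Z) * (X - -X)) := by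
      simp only [cr, PiLp.sub_apply]
      rw [x4, y4, x0, ← hu', ← hv', ← hZ]
      ring
    rw [this]
    have p1 : 0 < (u + X) * (Y - Z) - (v - Z) * (X - -X) := by linarith
    have p2 : 0 < (u' + X) * (Y - Z) - (v' - Z) * (X - -X) := by linarith
    have p3 : 0 < u' + X := by linarith
    have p4 : 0 < X - u := by linarith
    positivity
  have k2 : 0 < 2 * X * cr (q 2 - q' 1) (q 4 - q' 1) := by
    have : 2 * X * cr (q 2 - q' 1) (q 4 - q' 1) = (X - u') * (2 * X * (-Z - Y) +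
        ((u + X) * (Y - Z) - (v - Z) * (X - -X))) +
        (u + X) * ((u' + X) * (Y - Z) - (v' - Z) * (X - -X)) := by
      simp only [cr, PiLp.sub_apply]
      rw [x4, y4, ← hu', ← hv', ← hX, ← hY]
      ring
    rw [this]
    have p1 : 0 < (u + X) * (Y - Z) - (v - Z) * (X - -X) := by linarith
    have p2 : 0 < (u' + X) * (Y - Z) - (v' - Z) * (X - -X) := by linarith
    have p3 : 0 < X - u' := by linarith
    have p4 : 0 < u + X := by linarith
    positivity
  have k3 : 0 < 2 * X * cr (q 3 - q' 1) (q 4 - q' 1) := by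
    have : 2 * X * cr (q 3 - q' 1) (q 4 - q' 1) =
        (X - u') * ((u + X) * (Y - Z) - (v - Z) * (X - -X)) +
        (u + X) * (((u' + X) * (Y - Z) - (v' - Z) * (X - -X)) + 2 * X * (-Z - Y)) := by
      simp only [cr, PiLp.sub_apply]
      rw [x4, y4, x3, y0, ← hu', ← hv']
      ring
    rw [this]
    have p1 : 0 < (u + X) * (Y - Z) - (v - Z) * (X - -X) := by linarith
    have p2 : 0 < (u' + X) * (Y - Z) - (v' - Z) * (X - -X) := by linarith
    have p3 : 0 < X - u' := by linarith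
    have p4 : 0 < u + X := by linarith
    positivity
  have k4 : 0 < 2 * X * cr (q 4 - q' 1) (q 5 - q' 1) := by
    have : 2 * X * cr (q 4 - q' 1) (q 5 - q' 1) =
        (X - u) * (2 * X * (-Z - Y) + ((u' + X) * (Y - Z) - (v' - Z) * (X - -X))) +
        (u' + X) * ((u + X) * (Y - Z) - (v - Z) * (X - -X)) := by
      simp only [cr, PiLp.sub_apply]
      rw [x4, y4, x5, y5, ← hu', ← hv']
      ring
    rw [this]
    have p1 : 0 < (u + X) * (Y - Z) - (v - Z) * (X - -X) := by linarith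
    have p2 : 0 < (u' + X) * (Y - Z) - (v' - Z) * (X - -X) := by linarith
    have p3 : 0 < u' + X := by linarith
    have p4 : 0 < X - u := by linarith
    positivity
  have k1' := pos_of_mul_pos_right k1 hw.le
  have k2' := pos_of_mul_pos_right k2 hw.le
  have k3' := pos_of_mul_pos_right k3 hw.le
  have k4' := pos_of_mul_pos_right k4 hw.le
  have hm : ∀ i : Fin 6, i ≠ 1 → mix q q' i = q i := by
    intro i hi
    fin_cases i <;> first | rfl | exact absurd rfl hi
  have hm' : ∀ i : Fin 6, i ≠ 4 → mix q q' i = q' i := by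
    intro i hi
    fin_cases i
    · exact h0'.symm
    · rfl
    · exact h2.symm
    · exact h3.symm
    · exact absurd rfl hi
    · exact h5'.symm
  intro i j l hij hjl
  by_cases n4 : i ≠ 4 ∧ j ≠ 4 ∧ l ≠ 4
  · rw [hm' i n4.1, hm' j n4.2.1, hm' l n4.2.2]
    exact (sq' i j l hij hjl).le
  by_cases n1 : i ≠ 1 ∧ j ≠ 1 ∧ l ≠ 1
  · rw [hm i n1.1, hm j n1.2.1, hm l n1.2.2]
    exact (sq i j l hij hjl).le
  have hcase : (i = 0 ∧ j = 1 ∧ l = 4) ∨ (i = 1 ∧ j = 2 ∧ l = 4) ∨ (i = 1 ∧ j = 3 ∧ l = 4) ∨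
      (i = 1 ∧ j = 4 ∧ l = 5) := by
    revert n1 n4 hij hjl
    clear * -
    revert i j l
    decide
  rcases hcase with ⟨rfl, rfl, rfl⟩ | ⟨rfl, rfl, rfl⟩ | ⟨rfl, rfl, rfl⟩ | ⟨rfl, rfl, rfl⟩
  · exact k1'.le
  · exact k2'.le
  · exact k3'.le
  · exact k4'.le

/-- Equal right edges: equal sextuples. -/
theorem eq_of_edge (h0 : (q 3) 0 = (q 2) 0) (h1 : (q 2) 1 < (q 3) 1) (h2 : q' 2 = q 2)
    (h3 : q' 3 = q 3) : q' = q := by
  have e3 := q3 M hq
  have e4 := q4 M hq
  have e5 := q5 M hq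
  have e3' := q3 M hq'
  have e4' := q4 M hq'
  have e5' := q5 M hq'
  have h0' : q' 0 = q 0 := by
    have : - q' 0 = - q 0 := by rw [← e3', ← e3, h3]
    exact neg_injective this
  have h5' : q' 5 = q 5 := by rw [e5', e5, h2]
  have m1 := conv6_mix M hq hq' h0 h1 h2 h3
  have m2 := conv6_mix M hq' hq (by rw [h2, h3]; exact h0) (by rw [h2, h3]; exact h1) h2.symm
    h3.symm
  have b1 : ∀ k, mix q q' k ∈ K := by
    intro k
    fin_cases k
    exacts [hq.mem 0, hq'.mem 1, hq.mem 2, hq.mem 3, hq.mem 4, hq.mem 5]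
  have b2 : ∀ k, mix q' q k ∈ K := by
    intro k
    fin_cases k
    exacts [hq'.mem 0, hq.mem 1, hq'.mem 2, hq'.mem 3, hq'.mem 4, hq'.mem 5]
  have l1 := M.le _ m1 b1
  have l2 := M.le _ m2 b2
  have hsum : ar6 (mix q q') + ar6 (mix q' q) = ar6 q + ar6 q' := by
    unfold ar6
    rw [sum_six, sum_six, sum_six, sum_six]
    show (cr (q 0) (q' 1) + cr (q' 1) (q 2) + cr (q 2) (q 3) + cr (q 3) (q 4) + cr (q 4) (q 5) +
      cr (q 5) (q 0)) / 2 + (cr (q' 0) (q 1) + cr (q 1) (q' 2) + cr (q' 2) (q' 3) +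
      cr (q' 3) (q' 4) + cr (q' 4) (q' 5) + cr (q' 5) (q' 0)) / 2 = _
    rw [h0', h2, h3, h5']
    ring
  rw [hq.area, hq'.area] at hsum
  have a1 : ar6 (mix q q') = t6 := by linarith
  have s := M.sym _ m1 b1 a1 1
  have s' : q 4 = - q' 1 := s
  rw [e4] at s'
  have h1' : q' 1 = q 1 := (neg_injective s').symm
  funext k
  fin_cases k
  · exact h0'
  · exact h1'
  · exact h2
  · exact h3
  · show q' 4 = q 4
    rw [e4', e4, h1']
  · exact h5'

/-- **(U)** Two maximal sextuples with a vertical right edge of the same length, or at the same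
abscissa, are equal. -/
theorem uniq_edge (h0 : (q 3) 0 = (q 2) 0) (h1 : (q 2) 1 < (q 3) 1)
    (h0' : (q' 3) 0 = (q' 2) 0) (h1' : (q' 2) 1 < (q' 3) 1)
    (h : (q 3) 1 - (q 2) 1 = (q' 3) 1 - (q' 2) 1 ∨ (q 2) 0 = (q' 2) 0) : q' = q := by
  have hX : (q 2) 0 = (q' 2) 0 := by
    rcases h with h | h
    · rcases lt_trichotomy ((q 2) 0) ((q' 2) 0) with hlt | heq | hgt
      · have := short M hq h0 h1 (hq'.mem 2) (hq'.mem 3) h0'.symm hlt
        linarith
      · exact heq
      · have := short M hq' h0' h1' (hq.mem 2) (hq.mem 3) h0.symm hgt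
        linarith
    · exact h
  have a2 := at_edge M hq h0 h1 (hq'.mem 2) hX.symm
  have a3 := at_edge M hq h0 h1 (hq'.mem 3) (by rw [h0', hX])
  have b2 := at_edge M hq' h0' h1' (hq.mem 2) hX
  have b3 := at_edge M hq' h0' h1' (hq.mem 3) (by rw [h0, hX])
  refine eq_of_edge M hq hq' h0 h1 ?_ ?_
  · exact pl_ext hX.symm (le_antisymm b2.1 a2.1)
  · exact pl_ext (by rw [h0', h0, hX]) (le_antisymm a3.2 b3.2)

end C2305bH68.Hang
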