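import Mathlib

/-!
# Finite check of the labels at a 3-valent vertex

`cu t m`, `cw t m`: classes of the two edges at the corner `m` of a cell of type `t`.
-/

namespace C2305bH68.Lab

/-- class of the edge `u` -/
def cu (t : Bool) (m : Fin 3) : Fin 3 := if t then m + 1 else m
/-- class of the edge `w` -/
def cw (t : Bool) (m : Fin 3) : Fin 3 := if t then m else m + 1
/-- sign -/
def sg (e : Bool) : ℤ := if e then -1 else 1

/-- a contact which determines the difference of the frames -/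
def good (z : Fin 3 → ℤ) (t t' : Bool) (c c' : Fin 3) : Prop :=
  z c ≠ 0 ∧ ((t = t') ↔ (c = c'))

instance (z : Fin 3 → ℤ) (t t' : Bool) (c c' : Fin 3) : Decidable (good z t t' c c') :=
  inferInstanceAs (Decidable (z c ≠ 0 ∧ ((t = t') ↔ (c = c'))))

/-- the models of the equality patterns -/
def models : List (Fin 3 → ℤ) :=
  [![1, 2, 3], ![0, 1, 2], ![1, 0, 2], ![1, 2, 0], ![0, 1, -1], ![1, 0, -1], ![1, -1, 0],
    ![1, 1, 2], ![1, -1, 2], ![1, 2, 1], ![1, 2, -1], ![2, 1, 1], ![2, 1, -1]]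

theorem check : ∀ z ∈ models, ∀ t0 t1 t2 e0 e1 e2 : Bool, ∀ m0 m1 m2 : Fin 3,
    sg e0 * z (cw t0 m0) = sg e1 * z (cu t1 m1) →
    sg e1 * z (cw t1 m1) = sg e2 * z (cu t2 m2) →
    sg e2 * z (cw t2 m2) = sg e0 * z (cu t0 m0) →
    (good z t0 t1 (cw t0 m0) (cu t1 m1) ∧ good z t1 t2 (cw t1 m1) (cu t2 m2)) ∨
    (good z t1 t2 (cw t1 m1) (cu t2 m2) ∧ good z t2 t0 (cw t2 m2) (cu t0 m0)) ∨
    (good z t2 t0 (cw t2 m2) (cu t0 m0) ∧ good z t0 t1 (cw t0 m0) (cu t1 m1)) ∨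
    (e0 = e1 ∧ e1 = e2 ∧ m0 = m1 ∧ m1 = m2 ∧ z m0 = z (m0 + 1)) := by
  decide +kernel

end C2305bH68.Lab
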