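import Pool.Agent.W_c2305b_h89.Defs
import Pool.Agent.W_c2305b_h68.Lab1

/-!
# Labels: the real part

Three cells around a point; the edges at the point are `±` one of three vectors `g m` (types
`false`) or of their mirror images (type `true`). Then the frames agree up to one offset `σ`.
-/

namespace C2305bH68.Lab

open C2305b.Rig

/-- real sign -/
def sgR (e : Bool) : ℝ := (sg e : ℝ)
/-- sign of the second coordinate -/
def tau (t : Bool) : ℝ := if t then -1 else 1

theorem sgR_sq (e : Bool) : sgR e * sgR e = 1 := by cases e <;> simp [sgR, sg]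

theorem sgR_ne (e : Bool) : sgR e ≠ 0 := by cases e <;> simp [sgR, sg]

/-- equality pattern of `x` and of the model `z` -/
def Same (x : Fin 3 → ℝ) (z : Fin 3 → ℤ) : Prop :=
  ∀ c c', (x c = x c' ↔ z c = z c') ∧ (x c = - x c' ↔ z c = - z c')

theorem Same.ne_zero {x : Fin 3 → ℝ} {z : Fin 3 → ℤ} (h : Same x z) {c : Fin 3} (hz : z c ≠ 0) :
    x c ≠ 0 := by
  intro h0
  apply hz
  have h1 := (h c c).2.1 (by rw [h0]; simp)
  omega

theorem Same.eq_of {x : Fin 3 → ℝ} {z : Fin 3 → ℤ} (h : Same x z) {c c' : Fin 3}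
    (hz : z c = z c') : x c = x c' := (h c c').1.2 hz

theorem Same.transfer {x : Fin 3 → ℝ} {z : Fin 3 → ℤ} (h : Same x z) {e e' : Bool}
    {c c' : Fin 3} (hx : sgR e * x c = sgR e' * x c') : sg e * z c = sg e' * z c' := by
  cases e <;> cases e' <;> simp only [sgR, sg] at hx ⊢ <;> simp at hx ⊢
  · exact (h c c').1.1 hx
  · exact (h c c').2.1 hx
  · have h1 : x c = - x c' := by linarith
    have := (h c c').2.1 h1
    omega
  · exact (h c c').1.1 hx

/-- build `Same` from the nine relevant equivalences -/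
theorem same_mk {x : Fin 3 → ℝ} {z : Fin 3 → ℤ}
    (h0 : x 0 = 0 ↔ z 0 = 0) (h1 : x 1 = 0 ↔ z 1 = 0) (h2 : x 2 = 0 ↔ z 2 = 0)
    (p01 : x 0 = x 1 ↔ z 0 = z 1) (n01 : x 0 = - x 1 ↔ z 0 = - z 1)
    (p12 : x 1 = x 2 ↔ z 1 = z 2) (n12 : x 1 = - x 2 ↔ z 1 = - z 2)
    (p02 : x 0 = x 2 ↔ z 0 = z 2) (n02 : x 0 = - x 2 ↔ z 0 = - z 2) : Same x z := by
  have hz : ∀ (u : ℝ) (v : ℤ), (u = 0 ↔ v = 0) → ((u = u ↔ v = v) ∧ (u = -u ↔ v = -v)) := by
    intro u v h
    refine ⟨by simp, ?_⟩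
    constructor
    · intro hu
      have : v = 0 := h.1 (by linarith)
      omega
    · intro hv
      have : u = 0 := h.2 (by omega)
      rw [this]; simp
  have hsw : ∀ (u u' : ℝ) (v v' : ℤ), (u = u' ↔ v = v') → (u = -u' ↔ v = -v') →
      ((u' = u ↔ v' = v) ∧ (u' = -u ↔ v' = -v)) := by
    intro u u' v v' h h'
    constructor
    · rw [eq_comm, h, eq_comm]
    · constructor
      · intro hu
        have := h'.1 (by linarith)
        omega
      · intro hv
        have := h'.2 (by omega)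
        linarith
  intro c c'
  fin_cases c <;> fin_cases c'
  · exact hz _ _ h0
  · exact ⟨p01, n01⟩
  · exact ⟨p02, n02⟩
  · exact hsw _ _ _ _ p01 n01
  · exact hz _ _ h1
  · exact ⟨p12, n12⟩
  · exact hsw _ _ _ _ p02 n02
  · exact hsw _ _ _ _ p12 n12
  · exact hz _ _ h2

/-- every admissible pattern has a model -/
theorem exists_model {x : Fin 3 → ℝ} (h01 : ¬ (x 0 = 0 ∧ x 1 = 0)) (h12 : ¬ (x 1 = 0 ∧ x 2 = 0))
    (h02 : ¬ (x 0 = 0 ∧ x 2 = 0)) (hn : ¬ (|x 0| = |x 1| ∧ |x 1| = |x 2|))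
    (z0 : x 0 = 0 → x 1 ≠ x 2) (z1 : x 1 = 0 → x 0 ≠ x 2) (z2 : x 2 = 0 → x 0 ≠ x 1) :
    ∃ z ∈ models, Same x z := by
  have habs : ∀ u v : ℝ, (u = v ∨ u = -v) → |u| = |v| := by
    rintro u v (h | h)
    · rw [h]
    · rw [h, abs_neg]
  have key : ∀ z : Fin 3 → ℤ, z ∈ models →
      ((x 0 = 0 ↔ z 0 = 0) ∧ (x 1 = 0 ↔ z 1 = 0) ∧ (x 2 = 0 ↔ z 2 = 0) ∧
      (x 0 = x 1 ↔ z 0 = z 1) ∧ (x 0 = - x 1 ↔ z 0 = - z 1) ∧
      (x 1 = x 2 ↔ z 1 = z 2) ∧ (x 1 = - x 2 ↔ z 1 = - z 2) ∧
      (x 0 = x 2 ↔ z 0 = z 2) ∧ (x 0 = - x 2 ↔ z 0 = - z 2)) → ∃ z ∈ models, Same x z := by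
    rintro z hz ⟨a1, a2, a3, a4, a5, a6, a7, a8, a9⟩
    exact ⟨z, hz, same_mk a1 a2 a3 a4 a5 a6 a7 a8 a9⟩
  have T : ∀ {p q : Prop}, p → q → (p ↔ q) := fun hp hq => iff_of_true hp hq
  have F : ∀ {p q : Prop}, ¬ p → ¬ q → (p ↔ q) := fun hp hq => iff_of_false hp hq
  by_cases c0 : x 0 = 0
  · have n1 : x 1 ≠ 0 := fun h => h01 ⟨c0, h⟩
    have n2 : x 2 ≠ 0 := fun h => h02 ⟨c0, h⟩
    have n12 := z0 c0
    have q1 : x 0 ≠ x 1 := fun h => n1 (by linarith)
    have q2 : x 0 ≠ - x 1 := fun h => n1 (by linarith)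
    have q3 : x 0 ≠ x 2 := fun h => n2 (by linarith)
    have q4 : x 0 ≠ - x 2 := fun h => n2 (by linarith)
    by_cases c : x 1 = - x 2
    · exact key ![0, 1, -1] (by simp [models])
        ⟨T c0 rfl, F n1 (by decide), F n2 (by decide), F q1 (by decide), F q2 (by decide),
          F n12 (by decide), T c rfl, F q3 (by decide), F q4 (by decide)⟩
    · exact key ![0, 1, 2] (by simp [models])
        ⟨T c0 rfl, F n1 (by decide), F n2 (by decide), F q1 (by decide), F q2 (by decide),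
          F n12 (by decide), F c (by decide), F q3 (by decide), F q4 (by decide)⟩
  by_cases c1 : x 1 = 0
  · have n2 : x 2 ≠ 0 := fun h => h12 ⟨c1, h⟩
    have n02 := z1 c1
    have q1 : x 0 ≠ x 1 := fun h => c0 (by linarith)
    have q2 : x 0 ≠ - x 1 := fun h => c0 (by linarith)
    have q3 : x 1 ≠ x 2 := fun h => n2 (by linarith)
    have q4 : x 1 ≠ - x 2 := fun h => n2 (by linarith)
    by_cases c : x 0 = - x 2
    · exact key ![1, 0, -1] (by simp [models])
        ⟨F c0 (by decide), T c1 rfl, F n2 (by decide), F q1 (by decide), F q2 (by decide),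
          F q3 (by decide), F q4 (by decide), F n02 (by decide), T c rfl⟩
    · exact key ![1, 0, 2] (by simp [models])
        ⟨F c0 (by decide), T c1 rfl, F n2 (by decide), F q1 (by decide), F q2 (by decide),
          F q3 (by decide), F q4 (by decide), F n02 (by decide), F c (by decide)⟩
  by_cases c2 : x 2 = 0
  · have n01 := z2 c2
    have q1 : x 1 ≠ x 2 := fun h => c1 (by linarith)
    have q2 : x 1 ≠ - x 2 := fun h => c1 (by linarith)
    have q3 : x 0 ≠ x 2 := fun h => c0 (by linarith)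
    have q4 : x 0 ≠ - x 2 := fun h => c0 (by linarith)
    by_cases c : x 0 = - x 1
    · exact key ![1, -1, 0] (by simp [models])
        ⟨F c0 (by decide), F c1 (by decide), T c2 rfl, F n01 (by decide), T c rfl,
          F q1 (by decide), F q2 (by decide), F q3 (by decide), F q4 (by decide)⟩
    · exact key ![1, 2, 0] (by simp [models])
        ⟨F c0 (by decide), F c1 (by decide), T c2 rfl, F n01 (by decide), F c (by decide),
          F q1 (by decide), F q2 (by decide), F q3 (by decide), F q4 (by decide)⟩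
  by_cases p01 : x 0 = x 1
  · have e1 : |x 0| = |x 1| := habs _ _ (Or.inl p01)
    have m1 : x 1 ≠ x 2 := fun h => hn ⟨e1, habs _ _ (Or.inl h)⟩
    have m2 : x 1 ≠ - x 2 := fun h => hn ⟨e1, habs _ _ (Or.inr h)⟩
    have m3 : x 0 ≠ x 2 := fun h => m1 (by linarith)
    have m4 : x 0 ≠ - x 2 := fun h => m2 (by linarith)
    have m5 : x 0 ≠ - x 1 := fun h => c0 (by linarith)
    exact key ![1, 1, 2] (by simp [models])
      ⟨F c0 (by decide), F c1 (by decide), F c2 (by decide), T p01 rfl, F m5 (by decide),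
        F m1 (by decide), F m2 (by decide), F m3 (by decide), F m4 (by decide)⟩
  by_cases n01 : x 0 = - x 1
  · have e1 : |x 0| = |x 1| := habs _ _ (Or.inr n01)
    have m1 : x 1 ≠ x 2 := fun h => hn ⟨e1, habs _ _ (Or.inl h)⟩
    have m2 : x 1 ≠ - x 2 := fun h => hn ⟨e1, habs _ _ (Or.inr h)⟩
    have m3 : x 0 ≠ x 2 := fun h => m2 (by linarith)
    have m4 : x 0 ≠ - x 2 := fun h => m1 (by linarith)
    exact key ![1, -1, 2] (by simp [models])
      ⟨F c0 (by decide), F c1 (by decide), F c2 (by decide), F p01 (by decide), T n01 rfl,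
        F m1 (by decide), F m2 (by decide), F m3 (by decide), F m4 (by decide)⟩
  by_cases p12 : x 1 = x 2
  · have e1 : |x 1| = |x 2| := habs _ _ (Or.inl p12)
    have m3 : x 0 ≠ x 2 := fun h => p01 (by linarith)
    have m4 : x 0 ≠ - x 2 := fun h => n01 (by linarith)
    have m5 : x 1 ≠ - x 2 := fun h => c1 (by linarith)
    exact key ![2, 1, 1] (by simp [models])
      ⟨F c0 (by decide), F c1 (by decide), F c2 (by decide), F p01 (by decide), F n01 (by decide),
        T p12 rfl, F m5 (by decide), F m3 (by decide), F m4 (by decide)⟩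
  by_cases n12 : x 1 = - x 2
  · have m3 : x 0 ≠ x 2 := fun h => n01 (by linarith)
    have m4 : x 0 ≠ - x 2 := fun h => p01 (by linarith)
    exact key ![2, 1, -1] (by simp [models])
      ⟨F c0 (by decide), F c1 (by decide), F c2 (by decide), F p01 (by decide), F n01 (by decide),
        F p12 (by decide), T n12 rfl, F m3 (by decide), F m4 (by decide)⟩
  by_cases p02 : x 0 = x 2
  · have m5 : x 0 ≠ - x 2 := fun h => c0 (by linarith)
    exact key ![1, 2, 1] (by simp [models])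
      ⟨F c0 (by decide), F c1 (by decide), F c2 (by decide), F p01 (by decide), F n01 (by decide),
        F p12 (by decide), F n12 (by decide), T p02 rfl, F m5 (by decide)⟩
  by_cases n02 : x 0 = - x 2
  · exact key ![1, 2, -1] (by simp [models])
      ⟨F c0 (by decide), F c1 (by decide), F c2 (by decide), F p01 (by decide), F n01 (by decide),
        F p12 (by decide), F n12 (by decide), F p02 (by decide), T n02 rfl⟩
  · exact key ![1, 2, 3] (by simp [models])
      ⟨F c0 (by decide), F c1 (by decide), F c2 (by decide), F p01 (by decide), F n01 (by decide),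
        F p12 (by decide), F n12 (by decide), F p02 (by decide), F n02 (by decide)⟩

/-- a cell corner with edges `u` (next) and `w` (previous) -/
structure Cell (g : Fin 3 → Pl) (t eb : Bool) (m : Fin 3) (u w : Pl) : Prop where
  u0 : u 0 = sgR eb * g (cu t m) 0
  u1 : u 1 = sgR eb * (tau t * g (cu t m) 1)
  w0 : w 0 = sgR eb * g (cw t m) 0
  w1 : w 1 = sgR eb * (tau t * g (cw t m) 1)

theorem Cell.cr_eq {g : Fin 3 → Pl} {t eb : Bool} {m : Fin 3} {u w : Pl}
    (h : Cell g t eb m u w) : cr u w = cr (g m) (g (m + 1)) := by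
  unfold cr
  rw [h.u0, h.u1, h.w0, h.w1]
  have h1 := sgR_sq eb
  cases t
  · simp only [cu, cw, tau]
    simp
    linear_combination (g m 0 * g (m + 1) 1 - g m 1 * g (m + 1) 0) * h1
  · simp only [cu, cw, tau]
    simp
    linear_combination (g m 0 * g (m + 1) 1 - g m 1 * g (m + 1) 0) * h1

/-- the slope of a contact -/
theorem contact {g : Fin 3 → Pl} {t t' eb eb' : Bool} {m m' : Fin 3} {u w u' w' : Pl}
    (h : Cell g t eb m u w) (h' : Cell g t' eb' m' u' w') {e e' : ℝ}
    (hs : Sh e w = Sh e' u') :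
    sgR eb * g (cw t m) 0 = sgR eb' * g (cu t' m') 0 ∧
    (g (cw t m) 0 ≠ 0 → e + tau t * (g (cw t m) 1 / g (cw t m) 0)
      = e' + tau t' * (g (cu t' m') 1 / g (cu t' m') 0)) := by
  have e0 : w 0 = u' 0 := by
    have := congrArg (fun v : Pl => v 0) hs
    simpa [Sh] using this
  have e1 : e * w 0 + w 1 = e' * u' 0 + u' 1 := by
    have := congrArg (fun v : Pl => v 1) hs
    simpa [Sh] using this
  have hx : sgR eb * g (cw t m) 0 = sgR eb' * g (cu t' m') 0 := by
    rw [← h.w0, ← h'.u0]; exact e0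
  refine ⟨hx, fun hne => ?_⟩
  have hne' : g (cu t' m') 0 ≠ 0 := by
    intro h0
    rw [h0, mul_zero] at hx
    rcases mul_eq_zero.1 hx with h1 | h1
    · exact sgR_ne _ h1
    · exact hne h1
  have hX : w 0 ≠ 0 := by
    rw [h.w0]; exact mul_ne_zero (sgR_ne _) hne
  have f1 : w 1 = w 0 * (tau t * (g (cw t m) 1 / g (cw t m) 0)) := by
    rw [h.w1, h.w0]
    field_simp
  have f2 : u' 1 = u' 0 * (tau t' * (g (cu t' m') 1 / g (cu t' m') 0)) := by
    rw [h'.u1, h'.u0]
    field_simp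
  rw [f1, f2, ← e0] at e1
  have h3 : w 0 * (e + tau t * (g (cw t m) 1 / g (cw t m) 0)) =
      w 0 * (e' + tau t' * (g (cu t' m') 1 / g (cu t' m') 0)) := by linarith
  exact mul_left_cancel₀ hX h3

/-- the offset -/
noncomputable def sig (g : Fin 3 → Pl) : ℝ :=
  if |g 0 0| = |g 1 0| then g 0 1 / g 0 0 + g 1 1 / g 1 0
  else if |g 1 0| = |g 2 0| then g 1 1 / g 1 0 + g 2 1 / g 2 0
  else if |g 0 0| = |g 2 0| then g 0 1 / g 0 0 + g 2 1 / g 2 0
  else 0

theorem sig_eq {g : Fin 3 → Pl} (hn : ¬ (|g 0 0| = |g 1 0| ∧ |g 1 0| = |g 2 0|))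
    {c c' : Fin 3} (hc : c ≠ c') (h : |g c 0| = |g c' 0|) :
    g c 1 / g c 0 + g c' 1 / g c' 0 = sig g := by
  unfold sig
  fin_cases c <;> fin_cases c' <;> simp at hc h ⊢
  · exact fun hh => absurd h hh
  · have h1 : ¬ |g 0 0| = |g 1 0| := fun h1 => hn ⟨h1, by rw [← h1, h]⟩
    have h2 : ¬ |g 1 0| = |g 2 0| := fun h2 => hn ⟨by rw [h2, h], h2⟩
    rw [if_neg h1, if_neg h2, if_pos h]
  · rw [if_pos h.symm]; ring
  · have h1 : ¬ |g 0 0| = |g 1 0| := fun h1 => hn ⟨h1, h⟩
    rw [if_neg h1, if_pos h]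
  · have h1 : ¬ |g 0 0| = |g 1 0| := fun h1 => hn ⟨h1, by rw [← h1, h]⟩
    have h2 : ¬ |g 1 0| = |g 2 0| := fun h2 => hn ⟨by rw [h2, h], h2⟩
    rw [if_neg h1, if_neg h2, if_pos h.symm]; ring
  · have h1 : ¬ |g 0 0| = |g 1 0| := fun h1 => hn ⟨h1, h.symm⟩
    rw [if_neg h1, if_pos h.symm]; ring

/-- a good contact determines the difference of the frames -/
theorem good_contact {g : Fin 3 → Pl} (hn : ¬ (|g 0 0| = |g 1 0| ∧ |g 1 0| = |g 2 0|))
    {z : Fin 3 → ℤ} (hz : Same (fun m => g m 0) z)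
    {t t' eb eb' : Bool} {m m' : Fin 3} {u w u' w' : Pl}
    (h : Cell g t eb m u w) (h' : Cell g t' eb' m' u' w') {e e' : ℝ}
    (hs : Sh e w = Sh e' u') (hg : good z t t' (cw t m) (cu t' m')) :
    e - (if t then sig g else 0) = e' - (if t' then sig g else 0) := by
  obtain ⟨hz0, hiff⟩ := hg
  have hne : g (cw t m) 0 ≠ 0 := hz.ne_zero hz0
  obtain ⟨hx, hsl⟩ := contact h h' hs
  have hsl := hsl hne
  have habs : |g (cw t m) 0| = |g (cu t' m') 0| := by
    have := congrArg abs hx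
    rw [abs_mul, abs_mul] at this
    have h1 : ∀ e : Bool, |sgR e| = 1 := by intro e; cases e <;> simp [sgR, sg]
    rw [h1, h1, one_mul, one_mul] at this
    exact this
  by_cases ht : t = t'
  · have hc := hiff.1 ht
    rw [← hc, ← ht] at hsl
    rw [← ht]
    linarith
  · have hc : cw t m ≠ cu t' m' := fun hc => ht (hiff.2 hc)
    have hσ := sig_eq hn hc habs
    cases t <;> cases t'
    · exact absurd rfl ht
    · simp only [tau] at hsl
      simp at hsl ⊢
      linarith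
    · simp only [tau] at hsl
      simp at hsl ⊢
      linarith
    · exact absurd rfl ht

theorem sh_cr (e : ℝ) (u w : Pl) : cr (Sh e u) (Sh e w) = cr u w := by
  simp [cr, Sh]; ring

/-- THE LABEL THEOREM. -/
theorem labels {g : Fin 3 → Pl} (hcr : ∀ m, 0 < cr (g m) (g (m + 1)))
    (hn : ¬ (|g 0 0| = |g 1 0| ∧ |g 1 0| = |g 2 0|))
    (t : Fin 3 → Bool) (e : Fin 3 → ℝ) (u w : Fin 3 → Pl)
    (hcell : ∀ i, ∃ eb m, Cell g (t i) eb m (u i) (w i))
    (hs : ∀ i, Sh (e i) (w i) = Sh (e (i + 1)) (u (i + 1))) :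
    ∀ i j, e i - (if t i then sig g else 0) = e j - (if t j then sig g else 0) := by
  -- the three cross products
  have c01 : 0 < cr (g 0) (g 1) := hcr 0
  have c12 : 0 < cr (g 1) (g 2) := hcr 1
  have c20 : 0 < cr (g 2) (g 0) := hcr 2
  have hrel : cr (g 1) (g 2) * g 0 0 + cr (g 2) (g 0) * g 1 0 + cr (g 0) (g 1) * g 2 0 = 0 := by
    unfold cr; ring
  obtain ⟨z, hzm, hz⟩ := exists_model (x := fun m => g m 0)
    (by
      rintro ⟨h1, h2⟩
      have h1' : g 0 0 = 0 := h1
      have h2' : g 1 0 = 0 := h2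
      unfold cr at c01
      rw [h1', h2'] at c01; simp at c01)
    (by
      rintro ⟨h1, h2⟩
      have h1' : g 1 0 = 0 := h1
      have h2' : g 2 0 = 0 := h2
      unfold cr at c12
      rw [h1', h2'] at c12; simp at c12)
    (by
      rintro ⟨h1, h2⟩
      have h1' : g 0 0 = 0 := h1
      have h2' : g 2 0 = 0 := h2
      unfold cr at c20
      rw [h1', h2'] at c20; simp at c20)
    hn
    (by
      intro h0 h12
      have h0' : g 0 0 = 0 := h0
      have h12' : g 1 0 = g 2 0 := h12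
      rw [h0', h12'] at hrel
      have h3 : (cr (g 2) (g 0) + cr (g 0) (g 1)) * g 2 0 = 0 := by linarith
      have h4 : g 2 0 = 0 := by
        rcases mul_eq_zero.1 h3 with h5 | h5
        · linarith
        · exact h5
      unfold cr at c20
      rw [h0', h4] at c20; simp at c20)
    (by
      intro h0 h12
      have h0' : g 1 0 = 0 := h0
      have h12' : g 0 0 = g 2 0 := h12
      rw [h0', h12'] at hrel
      have h3 : (cr (g 1) (g 2) + cr (g 0) (g 1)) * g 2 0 = 0 := by linarith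
      have h4 : g 2 0 = 0 := by
        rcases mul_eq_zero.1 h3 with h5 | h5
        · linarith
        · exact h5
      unfold cr at c12
      rw [h0', h4] at c12; simp at c12)
    (by
      intro h0 h12
      have h0' : g 2 0 = 0 := h0
      have h12' : g 0 0 = g 1 0 := h12
      rw [h0', h12'] at hrel
      have h3 : (cr (g 1) (g 2) + cr (g 2) (g 0)) * g 1 0 = 0 := by linarith
      have h4 : g 1 0 = 0 := by
        rcases mul_eq_zero.1 h3 with h5 | h5
        · linarith
        · exact h5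
      unfold cr at c12
      rw [h0', h4] at c12; simp at c12)
  obtain ⟨e0, m0, C0⟩ := hcell 0
  obtain ⟨e1, m1, C1⟩ := hcell 1
  obtain ⟨e2, m2, C2⟩ := hcell 2
  have s0 : Sh (e 0) (w 0) = Sh (e 1) (u 1) := hs 0
  have s1 : Sh (e 1) (w 1) = Sh (e 2) (u 2) := hs 1
  have s2 : Sh (e 2) (w 2) = Sh (e 0) (u 0) := hs 2
  have k0 := contact C0 C1 s0
  have k1 := contact C1 C2 s1
  have k2 := contact C2 C0 s2
  have hfin : (e 0 - (if t 0 then sig g else 0) = e 1 - (if t 1 then sig g else 0)) →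
      (e 1 - (if t 1 then sig g else 0) = e 2 - (if t 2 then sig g else 0)) →
      ∀ i j, e i - (if t i then sig g else 0) = e j - (if t j then sig g else 0) := by
    intro a b i j
    fin_cases i <;> fin_cases j <;> simp only [Fin.zero_eta, Fin.mk_one, Fin.reduceFinMk]
    · exact a
    · exact a.trans b
    · exact a.symm
    · exact b
    · exact (a.trans b).symm
    · exact b.symm
  rcases check z hzm (t 0) (t 1) (t 2) e0 e1 e2 m0 m1 m2 (hz.transfer k0.1) (hz.transfer k1.1)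
    (hz.transfer k2.1) with hg | hg | hg | hg
  · have a := good_contact hn hz C0 C1 s0 hg.1
    have b := good_contact hn hz C1 C2 s1 hg.2
    exact hfin a b
  · have a := good_contact hn hz C1 C2 s1 hg.1
    have b := good_contact hn hz C2 C0 s2 hg.2
    exact hfin (b.symm.trans a.symm) a
  · have a := good_contact hn hz C2 C0 s2 hg.1
    have b := good_contact hn hz C0 C1 s0 hg.2
    exact hfin b (b.symm.trans a.symm)
  · exfalso
    obtain ⟨h1, h2, h3, h4, h5⟩ := hg
    subst h1 h2 h3 h4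
    have hx : g m0 0 = g (m0 + 1) 0 := hz.eq_of h5
    -- the x-coordinate of every ray
    have hcu : ∀ t : Bool, g (cu t m0) 0 = g m0 0 := by
      intro t; cases t
      · rfl
      · exact hx.symm
    have x0 : (Sh (e 0) (u 0)) 0 = sgR e0 * g m0 0 := by
      have : (Sh (e 0) (u 0)) 0 = u 0 0 := by simp [Sh]
      rw [this, C0.u0, hcu]
    have x1 : (Sh (e 1) (u 1)) 0 = sgR e0 * g m0 0 := by
      have : (Sh (e 1) (u 1)) 0 = u 1 0 := by simp [Sh]
      rw [this, C1.u0, hcu]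
    have x2 : (Sh (e 2) (u 2)) 0 = sgR e0 * g m0 0 := by
      have : (Sh (e 2) (u 2)) 0 = u 2 0 := by simp [Sh]
      rw [this, C2.u0, hcu]
    have r0 : cr (Sh (e 0) (u 0)) (Sh (e 1) (u 1)) = cr (g m0) (g (m0 + 1)) := by
      rw [← s0, sh_cr, C0.cr_eq]
    have r1 : cr (Sh (e 1) (u 1)) (Sh (e 2) (u 2)) = cr (g m0) (g (m0 + 1)) := by
      rw [← s1, sh_cr, C1.cr_eq]
    have r2 : cr (Sh (e 2) (u 2)) (Sh (e 0) (u 0)) = cr (g m0) (g (m0 + 1)) := by
      rw [← s2, sh_cr, C2.cr_eq]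
    have hpos := hcr m0
    set R0 := Sh (e 0) (u 0)
    set R1 := Sh (e 1) (u 1)
    set R2 := Sh (e 2) (u 2)
    unfold cr at r0 r1 r2
    rw [x0, x1] at r0
    rw [x1, x2] at r1
    rw [x2, x0] at r2
    change _ = cr _ _ at r0 r1 r2
    linarith

/-- the bound for the offset -/
theorem abs_sig_le {g : Fin 3 → Pl} {δ M : ℝ} (hδ : 0 < δ) (hM : ∀ m, |g m 1| ≤ M)
    (hcr : ∀ m, δ ≤ cr (g m) (g (m + 1))) : |sig g| ≤ 4 * M ^ 2 / δ := by
  have hM0 : 0 ≤ M := (abs_nonneg _).trans (hM 0)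
  have key : ∀ c c' : Fin 3, |g c 0| = |g c' 0| → δ ≤ |cr (g c) (g c')| →
      |g c 1 / g c 0 + g c' 1 / g c' 0| ≤ 4 * M ^ 2 / δ := by
    intro c c' h hd
    have h1 : |cr (g c) (g c')| ≤ |g c 0| * (2 * M) := by
      unfold cr
      calc |g c 0 * g c' 1 - g c 1 * g c' 0| ≤ |g c 0 * g c' 1| + |g c 1 * g c' 0| := abs_sub _ _
        _ = |g c 0| * |g c' 1| + |g c 1| * |g c 0| := by rw [abs_mul, abs_mul, h]
        _ ≤ |g c 0| * (2 * M) := by
          have a1 := hM c'
          have a2 := hM c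
          have a3 := abs_nonneg (g c 0)
          nlinarith
    have h2 : δ ≤ |g c 0| * (2 * M) := hd.trans h1
    have hx : 0 < |g c 0| := by
      by_contra h3
      have h4 : |g c 0| = 0 := le_antisymm (not_lt.1 h3) (abs_nonneg _)
      rw [h4] at h2; linarith
    have hsl : ∀ d : Fin 3, |g d 0| = |g c 0| → |g d 1 / g d 0| ≤ 2 * M ^ 2 / δ := by
      intro d hd'
      rw [abs_div, hd', div_le_div_iff₀ hx hδ]
      have a1 := hM d
      have a2 : M * δ ≤ M * (|g c 0| * (2 * M)) := mul_le_mul_of_nonneg_left h2 hM0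
      nlinarith
    have h5 := hsl c rfl
    have h6 := hsl c' h.symm
    calc |g c 1 / g c 0 + g c' 1 / g c' 0| ≤ |g c 1 / g c 0| + |g c' 1 / g c' 0| := abs_add_le _ _
      _ ≤ 2 * M ^ 2 / δ + 2 * M ^ 2 / δ := add_le_add h5 h6
      _ = 4 * M ^ 2 / δ := by ring
  have c01 : δ ≤ |cr (g 0) (g 1)| := (hcr 0).trans (le_abs_self _)
  have c12 : δ ≤ |cr (g 1) (g 2)| := (hcr 1).trans (le_abs_self _)
  have c02 : δ ≤ |cr (g 0) (g 2)| := by
    have h1 : cr (g 0) (g 2) = - cr (g 2) (g 0) := by unfold cr; ring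
    rw [h1, abs_neg]
    exact (hcr 2).trans (le_abs_self _)
  unfold sig
  split_ifs with h1 h2 h3
  · exact key 0 1 h1 c01
  · exact key 1 2 h2 c12
  · exact key 0 2 h3 c02
  · rw [abs_zero]; positivity

end C2305bH68.Lab
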