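import Pool.Agent.W_c2305b_h68.SpM
import Pool.Agent.W82_c2305b.AF8

/-!
# MP_c2305b_co, bounded eccentricity: the special cells of `plug`
-/

open MeasureTheory Set Module W82

namespace C2305bFat

open C2305b (Pl)
open C2305b.TL (cr)

open Classical in
/-- There are few special cells in `plug`. -/
theorem spM_plug {e1 : ℝ} (he : 0 < e1) : ∃ M : ℕ, ∀ (K : Set Pl) (ι : Type) [Fintype ι]
    (D : Set Pl) (P : ι → Set Pl) (h : Vio D P K) (T : Pl → Pl), Frame D P T →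
    ∀ (own : Pl × Pl → ι) (ls le : ι → Pl × Pl → ℝ) (kk : ι → Pl × Pl → ℤ) (m : ι → ℝ)
      (A6 τ : ℝ) (c : Pl → Pl) (l0 : ℝ),
    (Finset.univ.filter fun i => (C2305bAF.plug h.til h.hull own T ls le kk m A6 τ c l0 e1).Sp i).card
      ≤ M := by
  obtain ⟨M, hM⟩ := spM he
  exact ⟨M, fun K ι _ D P h T hT own ls le kk m A6 τ c l0 => hM K ι D P h T hT own⟩

/-- Good cells of `plug` have a nondegenerate hull of corners. -/
theorem nondeg_plug {α e1 μ0 : ℝ} {ι : Type} [Fintype ι] {D K : Set Pl} {P : ι → Set Pl}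
    (h : Vio D P K) (hK : IsCompact K) (hball : Metric.closedBall 0 1 ⊆ K)
    (hKα : K ⊆ Metric.closedBall 0 α) {T : Pl → Pl} (hT : Frame D P T)
    (he0 : 0 ≤ e1) (he1 : e1 ≤ 1) (he : 8 * α ^ 2 * e1 < 2) (hμ : μ0 ≤ 1)
    (own : Pl × Pl → ι)
    (hown : ∀ s ∈ h.til.sides h.hull, segment ℝ s.1 s.2 ⊆ P (own s) ∧
      cap D s.1 s.2 ⊆ P (own s)) {ls le : ι → Pl × Pl → ℝ} {kk : ι → Pl × Pl → ℤ} {m : ι → ℝ}
    {A6 τ : ℝ} {c : Pl → Pl} {l0 : ℝ} {i : ι} (hm : miss K P i ≤ μ0)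
    (hsp : ¬ (C2305bAF.plug h.til h.hull own T ls le kk m A6 τ c l0 e1).Sp i) :
    (interior (convexHull ℝ (S P i))).Nonempty :=
  nondeg_of h hK hball hKα hT he0 he1 he hμ own hown hm hsp

end C2305bFat
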