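import Pool.Agent.W_c2305b_h68.Sym3

/-!
# D2: a unique maximal symmetric hexagon is the unique maximal hexagon

`SymUniq K h` implies that every convex sextuple in `K` has area at most `S3 h0 h1 h2`, with
equality only for the rotations of the hexagon `h0, h1, h2, -h0, -h1, -h2`.
-/

open Set

namespace C2305bH68.Sym

open C2305b.Rig
open C2305b.Rig.O74 (conv6_shift ar6_shift conv6_cyc exists_smul_of_cr_zero)

/-- Two boundary points on one ray are equal. -/
theorem ray_unique {K : Set Pl} {x y n m : Pl} (hx : x ∈ K) (hy : y ∈ K)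
    (hn : ∀ z ∈ K, cr n z ≤ 1) (hm : ∀ z ∈ K, cr m z ≤ 1) (ex : cr n x = 1) (ey : cr m y = 1)
    {t : ℝ} (ht : 0 < t) (h : y = t • x) : y = x := by
  have h1 := hn y hy
  rw [h, cr_smul_right, ex, mul_one] at h1
  have h2 := hm x hx
  rw [h, cr_smul_right] at ey
  have h3 : 1 ≤ t := by nlinarith
  have h4 : t = 1 := le_antisymm h1 h3
  rw [h, h4, one_smul]

variable {K : Set Pl} {h : Fin 3 → Pl}

theorem sum_six (p : Fin 6 → Pl) : ∑ k, cr (p k) (p (k + 1)) =
    cr (p 0) (p 1) + cr (p 1) (p 2) + cr (p 2) (p 3) + cr (p 3) (p 4) + cr (p 4) (p 5) +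
      cr (p 5) (p 0) := by
  rw [Fin.sum_univ_six]; rfl

/-- The exchange at the place `0`: both triples are maximal in case of equality. -/
theorem exchange (U : SymUniq K h) {p : Fin 6 → Pl} (hp : Conv6 p) (hpK : ∀ k, p k ∈ K)
    (hA : Around p) (h0 : Q p 0) (h4 : Q p 4) :
    ∃ (ρ : Fin 6 → ℝ), (∀ k, 1 ≤ ρ k) ∧ (∀ k, ρ k • p k ∈ K) ∧
      ∑ k, cr (ρ k • p k) (ρ (k + 1) • p (k + 1)) ≤
        S3 (ρ 1 • p 1) (ρ 2 • p 2) (ρ 3 • p 3) + S3 (ρ 4 • p 4) (ρ 5 • p 5) (ρ 0 • p 0) := by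
  choose ρ hρ hmem n hn hn1 using fun k => exists_push U.comp U.conv U.nhds (hpK k)
    (hA.ne_zero hp k)
  refine ⟨ρ, hρ, hmem, ?_⟩
  have hρ0 : ∀ k, 0 < ρ k := fun k => lt_of_lt_of_le one_pos (hρ k)
  have cc : ∀ i j, cr (ρ i • p i) (ρ j • p j) = ρ i * ρ j * cr (p i) (p j) := fun i j => by
    rw [cr_smul_left, cr_smul_right]; ring
  have cpos : ∀ i j, 0 ≤ cr (p i) (p j) → 0 ≤ cr (ρ i • p i) (ρ j • p j) := fun i j hh => by
    rw [cc]
    exact mul_nonneg (mul_nonneg (hρ0 i).le (hρ0 j).le) hh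
  -- the six crosses
  have w0 : 0 ≤ cr (p 0) (p 3) := h0.nonneg
  have w4 : 0 ≤ cr (p 4) (p 1) := h4.nonneg
  have d13 : 0 ≤ cr (p 1) (p 3) := hA.diag1 hp h0
  have d40 : 0 ≤ cr (p 4) (p 0) := hA.diag2 hp h4
  have e01 : 0 ≤ cr (p 0) (p 1) := hA.edge_nonneg hp 0
  have e34 : 0 ≤ cr (p 3) (p 4) := hA.edge_nonneg hp 3
  have e12 : 0 ≤ cr (p 1) (p 2) := hA.edge_nonneg hp 1
  have e23 : 0 ≤ cr (p 2) (p 3) := hA.edge_nonneg hp 2
  have e45 : 0 ≤ cr (p 4) (p 5) := hA.edge_nonneg hp 4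
  have e50 : 0 ≤ cr (p 5) (p 0) := hA.edge_nonneg hp 5
  set P : Fin 6 → Pl := fun k => ρ k • p k with hP
  have hPK : ∀ k, P k ∈ K := hmem
  have sn : ∀ k, ∀ x ∈ K, cr (-n k) x ≤ 1 := fun k x hx => by
    have := hn k (-x) (U.sym x hx)
    rw [cr_neg_right] at this
    rw [cr_neg_left]; exact this
  have en : ∀ k, cr (-n k) (-P k) = 1 := fun k => by
    rw [cr_neg_left, cr_neg_right, neg_neg]; exact hn1 k
  -- equality of boundary points
  have eqP : ∀ i j, p j = p i → P j = P i := fun i j hij => by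
    refine ray_unique (hPK i) (hPK j) (hn i) (hn j) (hn1 i) (hn1 j)
      (t := ρ j / ρ i) (div_pos (hρ0 j) (hρ0 i)) ?_
    rw [hP]
    simp only [smul_smul, hij]
    rw [div_mul_cancel₀ _ (hρ0 i).ne']
  have eqN : ∀ i j, ∀ μ : ℝ, 0 < μ → p j = -(μ • p i) → P j = -P i := fun i j μ hμ hij => by
    refine ray_unique (U.sym _ (hPK i)) (hPK j) (sn i) (hn j) (en i) (hn1 j)
      (t := ρ j * μ / ρ i) (by have := hρ0 i; have := hρ0 j; positivity) ?_
    rw [hP]
    simp only [hij, smul_neg, smul_smul]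
    rw [div_mul_cancel₀ _ (hρ0 i).ne']
  have q0 : cr (p 0) (p 1) ≤ 0 → p 1 = p 0 := fun hh => hA.eq_of_cr hp (i := 0) hh
  have q1 : cr (p 1) (p 2) ≤ 0 → p 2 = p 1 := fun hh => hA.eq_of_cr hp (i := 1) hh
  have q2 : cr (p 2) (p 3) ≤ 0 → p 3 = p 2 := fun hh => hA.eq_of_cr hp (i := 2) hh
  have q3 : cr (p 3) (p 4) ≤ 0 → p 4 = p 3 := fun hh => hA.eq_of_cr hp (i := 3) hh
  have q4 : cr (p 4) (p 5) ≤ 0 → p 5 = p 4 := fun hh => hA.eq_of_cr hp (i := 4) hh
  have q5 : cr (p 5) (p 0) ≤ 0 → p 0 = p 5 := fun hh => hA.eq_of_cr hp (i := 5) hh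
  -- alternatives
  have alt1 : 0 < cr (-P 3) (P 1) ∨ -P 3 = P 0 ∨ P 1 = -P 4 := by
    rcases d13.lt_or_eq with hd | hd
    · left
      rw [cr_neg_left, cr_swap, neg_neg, cc]
      have := hρ0 1; have := hρ0 3
      positivity
    · obtain ⟨t, ht⟩ := exists_smul_of_cr_zero (hA.ne_zero hp 1) hd.symm
      rcases lt_trichotomy t 0 with ht0 | ht0 | ht0
      · right; left
        have e := eqN 1 3 (-t) (by linarith) (by rw [ht, neg_smul, neg_neg])
        -- `p 3 = - (..) p 1`; then `p 0 = p 1`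
        have : cr (p 0) (p 1) ≤ 0 := by
          rw [ht, cr_smul_right] at w0
          by_contra hcon
          push Not at hcon
          nlinarith
        rw [e, neg_neg]
        exact eqP 0 1 (q0 this)
      · exfalso
        rw [ht0, zero_smul] at ht
        exact hA.ne_zero hp 3 ht
      · exfalso
        have g2 : p 2 = p 1 := q1 (by
          rw [ht, cr_smul_right, cr_swap] at e23
          by_contra hcon
          push Not at hcon
          nlinarith)
        have g3 : p 3 = p 2 := q2 (by rw [g2, ht, cr_smul_right, cr_self, mul_zero])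
        have g31 : p 3 = p 1 := g3.trans g2
        rcases h4 with h5 | ⟨μ, hμ, h5⟩ | ⟨h5, h6, h7⟩
        · have h5' : 0 < cr (p 4) (p 1) := h5
          rw [g31, cr_swap] at e34
          linarith
        · have h5' : p 1 = -(μ • p 4) := h5
          have g4 : p 4 = p 3 := q3 (by
            rw [g31, h5', cr_neg_left, cr_smul_left, cr_self, mul_zero, neg_zero])
          have : (1 + μ) • p 1 = 0 := by
            have e : p 4 = p 1 := g4.trans g31
            rw [add_smul, one_smul]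
            nth_rewrite 1 [h5']
            rw [e, neg_add_cancel]
          rcases smul_eq_zero.1 this with h8 | h8
          · linarith
          · exact hA.ne_zero hp 1 h8
        · have a5 : p 5 = p 4 := h5
          have a0 : p 0 = p 4 := h6
          have a1 : p 1 = p 4 := h7
          apply hA.not_const 4
          intro k
          fin_cases k
          · exact a0
          · exact a1
          · exact g2.trans a1
          · exact g31.trans a1
          · rfl
          · exact a5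
  have alt2 : 0 < cr (P 0) (-P 4) ∨ -P 3 = P 0 ∨ P 1 = -P 4 := by
    rcases d40.lt_or_eq with hd | hd
    · left
      rw [cr_neg_right, cr_swap, neg_neg, cc]
      have := hρ0 4; have := hρ0 0
      positivity
    · obtain ⟨t, ht⟩ := exists_smul_of_cr_zero (hA.ne_zero hp 4) hd.symm
      rcases lt_trichotomy t 0 with ht0 | ht0 | ht0
      · right; right
        have e := eqN 4 0 (-t) (by linarith) (by rw [ht, neg_smul, neg_neg])
        have : cr (p 0) (p 1) ≤ 0 := by
          rw [ht, cr_smul_left]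
          exact mul_nonpos_of_nonpos_of_nonneg ht0.le w4
        rw [← e]
        exact eqP 0 1 (q0 this)
      · exfalso
        rw [ht0, zero_smul] at ht
        exact hA.ne_zero hp 0 ht
      · exfalso
        have g5 : p 5 = p 4 := q4 (by
          rw [ht, cr_smul_right, cr_swap] at e50
          by_contra hcon
          push Not at hcon
          nlinarith)
        have g0 : p 0 = p 5 := q5 (by rw [g5, ht, cr_smul_right, cr_self, mul_zero])
        have g04 : p 0 = p 4 := g0.trans g5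
        rcases h0 with h5 | ⟨μ, hμ, h5⟩ | ⟨h5, h6, h7⟩
        · have h5' : 0 < cr (p 0) (p 3) := h5
          rw [g04, cr_swap] at h5'
          linarith
        · have h5' : p 3 = -(μ • p 0) := h5
          have g4 : p 4 = p 3 := q3 (by
            rw [h5', ← g04, cr_neg_left, cr_smul_left, cr_self, mul_zero, neg_zero])
          have : (1 + μ) • p 0 = 0 := by
            have e : p 3 = p 0 := (g4.symm.trans g04.symm)
            rw [e] at h5'
            rw [add_smul, one_smul]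
            nth_rewrite 1 [h5']
            rw [neg_add_cancel]
          rcases smul_eq_zero.1 this with h8 | h8
          · linarith
          · exact hA.ne_zero hp 0 h8
        · have a1 : p 1 = p 0 := h5
          have a2 : p 2 = p 0 := h6
          have a3 : p 3 = p 0 := h7
          apply hA.not_const 0
          intro k
          fin_cases k
          · rfl
          · exact a1
          · exact a2
          · exact a3
          · exact g04.symm
          · exact g0.symm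
  have hM := monge_support (K := K) U.sym (a := -P 3) (b := P 0) (c := P 1) (d := -P 4)
    (na := -n 3) (nb := n 0) (nc := n 1) (nd := -n 4)
    (U.sym _ (hPK 3)) (hPK 0) (hPK 1) (U.sym _ (hPK 4)) (sn 3) (hn 0) (hn 1) (sn 4)
    (en 3) (hn1 0) (hn1 1) (en 4)
    (by rw [cr_neg_left, cr_swap, neg_neg]; exact cpos 0 3 w0)
    (by rw [cr_neg_left, cr_swap, neg_neg]; exact cpos 1 3 d13)
    (by rw [cr_neg_left, cr_neg_right, neg_neg]; exact cpos 3 4 e34)
    (cpos 0 1 e01)
    (by rw [cr_neg_right, cr_swap, neg_neg]; exact cpos 4 0 d40)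
    (by rw [cr_neg_right, cr_swap, neg_neg]; exact cpos 4 1 w4)
    alt1 alt2
  have hid : S3 (P 1) (P 2) (P 3) + S3 (P 4) (P 5) (P 0) - ∑ k, cr (P k) (P (k + 1)) =
      cr (P 0 - -P 3) (-P 4 - P 1) := by
    rw [sum_six]
    simp only [S3, cr, PiLp.sub_apply, PiLp.neg_apply]
    ring
  show ∑ k, cr (P k) (P (k + 1)) ≤ S3 (P 1) (P 2) (P 3) + S3 (P 4) (P 5) (P 0)
  linarith

/-- Position of two maximal triples. -/
theorem two_triples (U : SymUniq K h) {P : Fin 6 → Pl} {j l : Fin 6}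
    (hj1 : P 1 = hexOf h j) (hj2 : P 2 = hexOf h (j + 1)) (hj3 : P 3 = hexOf h (j + 2))
    (hl4 : P 4 = hexOf h l) (hl5 : P 5 = hexOf h (l + 1)) (hl0 : P 0 = hexOf h (l + 2))
    (h34 : 0 ≤ cr (P 3) (P 4)) (h01 : 0 ≤ cr (P 0) (P 1))
    (hsum : ∑ k, cr (P k) (P (k + 1)) = 2 * S3 (h 0) (h 1) (h 2)) : l = j + 3 := by
  have ha := U.pos0
  have hb := U.pos1
  have hc := U.pos2
  have ta := U.ta
  have tb := U.tb
  have tc := U.tc
  rw [sum_six, hj1, hj2, hj3, hl4, hl5, hl0, S3_eq] at hsum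
  rw [hj3, hl4] at h34
  rw [hl0, hj1] at h01
  have s10 := cr_swap (h 1) (h 0)
  have s21 := cr_swap (h 2) (h 1)
  have s20 := cr_swap (h 2) (h 0)
  fin_cases j <;> fin_cases l <;>
    first
    | rfl
    | (exfalso
       simp [hexOf, cr_neg_left, cr_neg_right, cr_self] at hsum h34 h01
       linarith)

/-- The main case with the exchange at the place `0`. -/
theorem core (U : SymUniq K h) {p : Fin 6 → Pl} (hp : Conv6 p) (hpK : ∀ k, p k ∈ K)
    (hA : Around p) (h0 : Q p 0) (h4 : Q p 4) :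
    ar6 p ≤ S3 (h 0) (h 1) (h 2) ∧
      (ar6 p = S3 (h 0) (h 1) (h 2) → ∃ m : Fin 6, ∀ k, p k = hexOf h (k + m)) := by
  obtain ⟨ρ, hρ, hmem, hle⟩ := exchange U hp hpK hA h0 h4
  have m1 := U.max _ (hmem 1) _ (hmem 2) _ (hmem 3)
  have m2 := U.max _ (hmem 4) _ (hmem 5) _ (hmem 0)
  have hterm : ∀ k, cr (p k) (p (k + 1)) ≤ cr (ρ k • p k) (ρ (k + 1) • p (k + 1)) := by
    intro k
    rw [cr_smul_left, cr_smul_right]
    have h1 := hA.edge_nonneg hp k
    have h2 : 1 ≤ ρ k * ρ (k + 1) := one_le_mul_of_one_le_of_one_le (hρ k) (hρ (k + 1))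
    nlinarith
  have hsum : ∑ k, cr (p k) (p (k + 1)) ≤ ∑ k, cr (ρ k • p k) (ρ (k + 1) • p (k + 1)) :=
    Finset.sum_le_sum fun k _ => hterm k
  constructor
  · rw [ar6]
    linarith
  · intro heq
    have heq' : ∑ k, cr (p k) (p (k + 1)) = 2 * S3 (h 0) (h 1) (h 2) := by
      rw [ar6] at heq
      linarith
    have hS : ∑ k, cr (ρ k • p k) (ρ (k + 1) • p (k + 1)) = 2 * S3 (h 0) (h 1) (h 2) := by
      linarith
    obtain ⟨j, hj1, hj2, hj3⟩ := U.uniq _ (hmem 1) _ (hmem 2) _ (hmem 3) (by linarith)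
    obtain ⟨l, hl4, hl5, hl0⟩ := U.uniq _ (hmem 4) _ (hmem 5) _ (hmem 0) (by linarith)
    have hpos : ∀ i j, 0 ≤ cr (p i) (p j) → 0 ≤ cr (ρ i • p i) (ρ j • p j) := fun i j hh => by
      rw [cr_smul_left, cr_smul_right]
      exact mul_nonneg (zero_le_one.trans (hρ i)) (mul_nonneg (zero_le_one.trans (hρ j)) hh)
    have hl := two_triples U (P := fun k => ρ k • p k) hj1 hj2 hj3 hl4 hl5 hl0
      (hpos 3 4 (hA.edge_nonneg hp 3)) (hpos 0 1 (hA.edge_nonneg hp 0)) hS
    subst hl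
    have hP : ∀ k, ρ k • p k = hexOf h (k + (j + 5)) := by
      intro k
      fin_cases k
      · have e : (0 : Fin 6) + (j + 5) = j + 3 + 2 := by clear * -; revert j; decide
        show ρ 0 • p 0 = hexOf h (0 + (j + 5))
        rw [hl0, e]
      · have e : (1 : Fin 6) + (j + 5) = j := by clear * -; revert j; decide
        show ρ 1 • p 1 = hexOf h (1 + (j + 5))
        rw [hj1, e]
      · have e : (2 : Fin 6) + (j + 5) = j + 1 := by clear * -; revert j; decide
        show ρ 2 • p 2 = hexOf h (2 + (j + 5))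
        rw [hj2, e]
      · have e : (3 : Fin 6) + (j + 5) = j + 2 := by clear * -; revert j; decide
        show ρ 3 • p 3 = hexOf h (3 + (j + 5))
        rw [hj3, e]
      · have e : (4 : Fin 6) + (j + 5) = j + 3 := by clear * -; revert j; decide
        show ρ 4 • p 4 = hexOf h (4 + (j + 5))
        rw [hl4, e]
      · have e : (5 : Fin 6) + (j + 5) = j + 3 + 1 := by clear * -; revert j; decide
        show ρ 5 • p 5 = hexOf h (5 + (j + 5))
        rw [hl5, e]
    refine ⟨j + 5, fun k => ?_⟩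
    -- all factors are one
    have hall : ∀ k ∈ Finset.univ, cr (p k) (p (k + 1)) =
        cr (ρ k • p k) (ρ (k + 1) • p (k + 1)) :=
      (Finset.sum_eq_sum_iff_of_le fun k _ => hterm k).1 (heq'.trans hS.symm)
    have hk := hall k (Finset.mem_univ k)
    have hcpos : 0 < cr (ρ k • p k) (ρ (k + 1) • p (k + 1)) := by
      rw [hP k, hP (k + 1)]
      have := U.hex1 (k + (j + 5))
      have e : k + (j + 5) + 1 = k + 1 + (j + 5) := add_right_comm _ _ _
      rwa [e] at this
    rw [← hk] at hcpos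
    rw [cr_smul_left, cr_smul_right] at hk
    have h2 : ρ k * ρ (k + 1) = 1 := by
      have h3 : (ρ k * ρ (k + 1) - 1) * cr (p k) (p (k + 1)) = 0 := by linarith
      rcases mul_eq_zero.1 h3 with h4 | h4
      · linarith
      · exact absurd h4 hcpos.ne'
    have h1 : ρ k = 1 := by
      have a1 := hρ k
      have a2 := hρ (k + 1)
      nlinarith
    rw [← hP k, h1, one_smul]

theorem Q_shift {p : Fin 6 → Pl} (m j : Fin 6) (hQ : Q p (j + m)) : Q (fun k => p (k + m)) j := by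
  unfold Q at *
  have e1 : j + 1 + m = j + m + 1 := add_right_comm _ _ _
  have e2 : j + 2 + m = j + m + 2 := add_right_comm _ _ _
  have e3 : j + 3 + m = j + m + 3 := add_right_comm _ _ _
  simp only [e1, e2, e3]
  exact hQ

/-- **D2, inequality and uniqueness.** -/
theorem SymUniq.ar6_le (U : SymUniq K h) {p : Fin 6 → Pl} (hp : Conv6 p) (hpK : ∀ k, p k ∈ K) :
    ar6 p ≤ S3 (h 0) (h 1) (h 2) ∧
      (ar6 p = S3 (h 0) (h 1) (h 2) → ∃ m : Fin 6, ∀ k, p k = hexOf h (k + m)) := by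
  by_cases hA : Around p
  · obtain ⟨k0, hk, hk4⟩ := hA.exists_place hp
    have h1 := core U (conv6_shift hp k0) (fun k => hpK (k + k0)) (hA.shift k0)
      (Q_shift k0 0 (by rwa [zero_add])) (Q_shift k0 4 (by rwa [add_comm]))
    rw [ar6_shift] at h1
    refine ⟨h1.1, fun heq => ?_⟩
    obtain ⟨m, hm⟩ := h1.2 heq
    refine ⟨m - k0, fun k => ?_⟩
    have := hm (k - k0)
    simp only [sub_add_cancel] at this
    rw [this]
    congr 1
    rw [sub_add_eq_add_sub, add_sub_assoc]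
  · unfold Around at hA
    push Not at hA
    obtain ⟨n, hn, hh⟩ := hA
    have := U.ar6_lt_of_half hp hpK hn hh
    exact ⟨this.le, fun heq => absurd heq this.ne⟩

theorem hexOf_mem (U : SymUniq K h) (k : Fin 6) : hexOf h k ∈ K := by
  fin_cases k
  · exact U.mem 0
  · exact U.mem 1
  · exact U.mem 2
  · exact U.sym _ (U.mem 0)
  · exact U.sym _ (U.mem 1)
  · exact U.sym _ (U.mem 2)

theorem ar6_hexOf (h : Fin 3 → Pl) : ar6 (hexOf h) = S3 (h 0) (h 1) (h 2) := by
  rw [ar6, sum_six]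
  show (cr (h 0) (h 1) + cr (h 1) (h 2) + cr (h 2) (-h 0) + cr (-h 0) (-h 1) +
    cr (-h 1) (-h 2) + cr (-h 2) (h 0)) / 2 = _
  simp only [S3, cr, PiLp.neg_apply]
  ring

theorem conv6_hexOf (U : SymUniq K h) : Conv6 (hexOf h) := by
  have ha := U.pos0
  have hb := U.pos1
  have hc := U.pos2
  have ta := U.ta
  have tb := U.tb
  have tc := U.tc
  have s10 := cr_swap (h 1) (h 0)
  have s21 := cr_swap (h 2) (h 1)
  have s20 := cr_swap (h 2) (h 0)
  intro i j k hij hjk
  fin_cases i <;> fin_cases j <;>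
    first
    | (exfalso; revert hij; decide)
    | (fin_cases k <;>
        first
        | (exfalso; revert hjk; decide)
        | (simp [hexOf, cr_sub_left, cr_sub_right, cr_add_left, cr_add_right, cr_neg_left,
             cr_neg_right, cr_self]
           linarith))

theorem strict_hexOf (U : SymUniq K h) (k : Fin 6) :
    0 < cr (edge (hexOf h) k) (edge (hexOf h) (k + 1)) := by
  have ha := U.pos0
  have hb := U.pos1
  have hc := U.pos2
  have ta := U.ta
  have tb := U.tb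
  have tc := U.tc
  have s10 := cr_swap (h 1) (h 0)
  have s21 := cr_swap (h 2) (h 1)
  have s20 := cr_swap (h 2) (h 0)
  fin_cases k
  · show 0 < cr (h 1 - h 0) (h 2 - h 1)
    simp only [cr_sub_left, cr_sub_right, cr_self]; linarith
  · show 0 < cr (h 2 - h 1) (-h 0 - h 2)
    simp only [cr_sub_left, cr_sub_right, cr_neg_right, cr_self]; linarith
  · show 0 < cr (-h 0 - h 2) (-h 1 - -h 0)
    simp only [cr_sub_left, cr_sub_right, cr_neg_right, cr_neg_left, cr_self]; linarith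
  · show 0 < cr (-h 1 - -h 0) (-h 2 - -h 1)
    simp only [cr_sub_left, cr_sub_right, cr_neg_right, cr_neg_left, cr_self]; linarith
  · show 0 < cr (-h 2 - -h 1) (h 0 - -h 2)
    simp only [cr_sub_left, cr_sub_right, cr_neg_right, cr_neg_left, cr_self]; linarith
  · show 0 < cr (h 0 - -h 2) (h 1 - h 0)
    simp only [cr_sub_left, cr_sub_right, cr_neg_left, cr_self]; linarith

/-- **D2.** -/
theorem uniqHex_of_symUniq (U : SymUniq K h)
    (hnce : ∀ k, cr (edge (hexOf h) (k + 1) - edge (hexOf h) k)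
      (edge (hexOf h) (k + 2) - edge (hexOf h) (k + 1)) ≠ 0) :
    UniqHex K (hexOf h) (S3 (h 0) (h 1) (h 2)) where
  sym := U.sym
  conv := conv6_hexOf U
  mem := hexOf_mem U
  area := ar6_hexOf h
  le := fun _ hq hqK => (U.ar6_le hq hqK).1
  uniq := fun _ hp hpK heq => (U.ar6_le hp hpK).2 heq
  strict := strict_hexOf U
  nce := hnce

/-- The condition on the ends in terms of the three cross products: none of them is a quarter of
the area. -/
theorem uniqHex_of_symUniq' (U : SymUniq K h)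
    (n0 : 4 * cr (h 0) (h 1) ≠ S3 (h 0) (h 1) (h 2)) (n1 : 4 * cr (h 1) (h 2) ≠ S3 (h 0) (h 1) (h 2))
    (n2 : 4 * cr (h 0) (h 2) ≠ S3 (h 0) (h 1) (h 2)) :
    UniqHex K (hexOf h) (S3 (h 0) (h 1) (h 2)) := by
  refine uniqHex_of_symUniq U fun k => ?_
  have e0 : cr ((h 2 - h 1) - (h 1 - h 0)) ((-h 0 - h 2) - (h 2 - h 1)) =
      4 * cr (h 1) (h 2) - S3 (h 0) (h 1) (h 2) := by
    simp only [S3, cr, PiLp.sub_apply, PiLp.neg_apply]; ring
  have e1 : cr ((-h 0 - h 2) - (h 2 - h 1)) ((-h 1 - -h 0) - (-h 0 - h 2)) =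
      4 * cr (h 0) (h 2) - S3 (h 0) (h 1) (h 2) := by
    simp only [S3, cr, PiLp.sub_apply, PiLp.neg_apply]; ring
  have e2 : cr ((-h 1 - -h 0) - (-h 0 - h 2)) ((-h 2 - -h 1) - (-h 1 - -h 0)) =
      4 * cr (h 0) (h 1) - S3 (h 0) (h 1) (h 2) := by
    simp only [S3, cr, PiLp.sub_apply, PiLp.neg_apply]; ring
  have e3 : cr ((-h 2 - -h 1) - (-h 1 - -h 0)) ((h 0 - -h 2) - (-h 2 - -h 1)) =
      4 * cr (h 1) (h 2) - S3 (h 0) (h 1) (h 2) := by
    simp only [S3, cr, PiLp.sub_apply, PiLp.neg_apply]; ring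
  have e4 : cr ((h 0 - -h 2) - (-h 2 - -h 1)) ((h 1 - h 0) - (h 0 - -h 2)) =
      4 * cr (h 0) (h 2) - S3 (h 0) (h 1) (h 2) := by
    simp only [S3, cr, PiLp.sub_apply, PiLp.neg_apply]; ring
  have e5 : cr ((h 1 - h 0) - (h 0 - -h 2)) ((h 2 - h 1) - (h 1 - h 0)) =
      4 * cr (h 0) (h 1) - S3 (h 0) (h 1) (h 2) := by
    simp only [S3, cr, PiLp.sub_apply, PiLp.neg_apply]; ring
  fin_cases k
  · show cr ((h 2 - h 1) - (h 1 - h 0)) ((-h 0 - h 2) - (h 2 - h 1)) ≠ 0
    rw [e0]; exact sub_ne_zero.2 n1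
  · show cr ((-h 0 - h 2) - (h 2 - h 1)) ((-h 1 - -h 0) - (-h 0 - h 2)) ≠ 0
    rw [e1]; exact sub_ne_zero.2 n2
  · show cr ((-h 1 - -h 0) - (-h 0 - h 2)) ((-h 2 - -h 1) - (-h 1 - -h 0)) ≠ 0
    rw [e2]; exact sub_ne_zero.2 n0
  · show cr ((-h 2 - -h 1) - (-h 1 - -h 0)) ((h 0 - -h 2) - (-h 2 - -h 1)) ≠ 0
    rw [e3]; exact sub_ne_zero.2 n1
  · show cr ((h 0 - -h 2) - (-h 2 - -h 1)) ((h 1 - h 0) - (h 0 - -h 2)) ≠ 0
    rw [e4]; exact sub_ne_zero.2 n2
  · show cr ((h 1 - h 0) - (h 0 - -h 2)) ((h 2 - h 1) - (h 1 - h 0)) ≠ 0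
    rw [e5]; exact sub_ne_zero.2 n0

end C2305bH68.Sym
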