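import Pool.Agent.W_c2305b_h68.SymDef
import Pool.Agent.W_c2305b_h68.Tri
import Pool.Agent.W_c2305b_h73.Natural

/-!
# Sextuples in a half plane through the centre are small (D2, first part)
-/

open MeasureTheory Set

namespace C2305bH68.Sym

open C2305b.Rig

variable {K : Set Pl} {h : Fin 3 → Pl}

theorem S3_eq (x y z : Pl) : S3 x y z = cr x y + cr y z + cr x z := rfl

namespace SymUniq

variable (U : SymUniq K h)

include U

theorem pos0 : 0 < cr (h 0) (h 1) := by have := U.tb; have := U.tc; linarith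
theorem pos1 : 0 < cr (h 1) (h 2) := by have := U.ta; have := U.tc; linarith
theorem pos2 : 0 < cr (h 0) (h 2) := by have := U.ta; have := U.tb; linarith

theorem T_pos : 0 < S3 (h 0) (h 1) (h 2) := by
  have h0 := U.pos0; have h1 := U.pos1; have h2 := U.pos2
  rw [S3_eq]; linarith

/-- Consecutive vertices. -/
theorem hex1 (j : Fin 6) : 0 < cr (hexOf h j) (hexOf h (j + 1)) := by
  have h0 := U.pos0; have h1 := U.pos1; have h2 := U.pos2
  fin_cases j
  · exact h0
  · exact h1
  · change 0 < cr (h 2) (-h 0)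
    rw [cr_neg_right, cr_swap, neg_neg]; exact h2
  · change 0 < cr (-h 0) (-h 1)
    rw [cr_neg_right, cr_neg_left, neg_neg]; exact h0
  · change 0 < cr (-h 1) (-h 2)
    rw [cr_neg_right, cr_neg_left, neg_neg]; exact h1
  · change 0 < cr (-h 2) (h 0)
    rw [cr_neg_left, cr_swap, neg_neg]; exact h2

theorem hex1_ne (j : Fin 6) : hexOf h j ≠ hexOf h (j + 1) := by
  intro e
  have := U.hex1 j
  rw [← e, cr_self] at this
  exact lt_irrefl _ this

/-- The maximal cross product: twice its value is below the maximal area. -/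
theorem exists_max_cr : ∃ x ∈ K, ∃ y ∈ K, (∀ u ∈ K, ∀ v ∈ K, cr u v ≤ cr x y) ∧ 0 < cr x y ∧
    2 * cr x y < S3 (h 0) (h 1) (h 2) := by
  have hcont : Continuous fun p : Pl × Pl => cr p.1 p.2 := by
    unfold cr; fun_prop
  have hne : (K ×ˢ K).Nonempty := ⟨(h 0, h 0), U.mem 0, U.mem 0⟩
  obtain ⟨⟨x, y⟩, ⟨hx, hy⟩, hmax⟩ := (U.comp.prod U.comp).exists_isMaxOn hne hcont.continuousOn
  have hm : ∀ u ∈ K, ∀ v ∈ K, cr u v ≤ cr x y := fun u hu v hv =>
    (isMaxOn_iff.1 hmax) (u, v) ⟨hu, hv⟩
  refine ⟨x, hx, y, hy, hm, lt_of_lt_of_le U.pos0 (hm _ (U.mem 0) _ (U.mem 1)), ?_⟩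
  have e : S3 x y y = 2 * cr x y := by rw [S3_eq, cr_self]; ring
  have hle := U.max x hx y hy y hy
  rw [e] at hle
  refine lt_of_le_of_ne hle fun heq => ?_
  obtain ⟨j, _, h1, h2⟩ := U.uniq x hx y hy y hy (by rw [e]; exact heq)
  have h3 := U.hex1_ne (j + 1)
  have e1 : j + 1 + 1 = j + 2 := by rw [add_assoc]; rfl
  rw [e1, ← h1, ← h2] at h3
  exact h3 rfl

/-- Volume of the body. -/
theorem volume_lt : (volume K).toReal < 2 * S3 (h 0) (h 1) (h 2) := by
  obtain ⟨x, hx, y, hy, hm, hpos, hlt⟩ := U.exists_max_cr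
  set m := cr x y with hmdef
  have hxn := U.sym x hx
  have hyn := U.sym y hy
  have e1 : cr ((-x + y) - (x + y)) ((-x - y) - (x + y)) = 4 * m := by
    simp only [cr, PiLp.sub_apply, PiLp.add_apply, PiLp.neg_apply] at hmdef ⊢
    rw [hmdef]; ring
  have e2 : cr ((-x - y) - (x + y)) ((x - y) - (x + y)) = 4 * m := by
    simp only [cr, PiLp.sub_apply, PiLp.add_apply, PiLp.neg_apply] at hmdef ⊢
    rw [hmdef]; ring
  have v1 : volume (convexHull ℝ {x + y, -x + y, -x - y}) = ENNReal.ofReal (2 * m) := by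
    have := Tri.volume_tri (a := x + y) (b := -x + y) (c := -x - y)
      (show 0 < cr ((-x + y) - (x + y)) ((-x - y) - (x + y)) by rw [e1]; linarith)
    rw [this]
    congr 1
    show cr ((-x + y) - (x + y)) ((-x - y) - (x + y)) / 2 = 2 * m
    rw [e1]; ring
  have v2 : volume (convexHull ℝ {x + y, -x - y, x - y}) = ENNReal.ofReal (2 * m) := by
    have := Tri.volume_tri (a := x + y) (b := -x - y) (c := x - y)
      (show 0 < cr ((-x - y) - (x + y)) ((x - y) - (x + y)) by rw [e2]; linarith)
    rw [this]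
    congr 1
    show cr ((-x - y) - (x + y)) ((x - y) - (x + y)) / 2 = 2 * m
    rw [e2]; ring
  have hsub : K ⊆ convexHull ℝ {x + y, -x + y, -x - y} ∪ convexHull ℝ {x + y, -x - y, x - y} := by
    intro z hz
    have a1 := hm x hx z hz
    have a2 := hm _ hxn z hz
    have a3 := hm z hz y hy
    have a4 := hm z hz _ hyn
    rw [cr_neg_left] at a2
    rw [cr_neg_right] at a4
    rcases le_total 0 (cr (x + y) z) with hc | hc
    · left
      refine (Tri.mem_tri_iff (a := x + y) (b := -x + y) (c := -x - y)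
        (show 0 < cr ((-x + y) - (x + y)) ((-x - y) - (x + y)) by rw [e1]; linarith)).2
        ⟨?_, ?_, ?_⟩
      · show 0 ≤ cr ((-x + y) - (x + y)) (z - (x + y))
        have : cr ((-x + y) - (x + y)) (z - (x + y)) = 2 * (m - cr x z) := by
          simp only [cr, PiLp.sub_apply, PiLp.add_apply, PiLp.neg_apply] at hmdef ⊢
          rw [hmdef]; ring
        rw [this]; linarith
      · show 0 ≤ cr ((-x - y) - (-x + y)) (z - (-x + y))
        have : cr ((-x - y) - (-x + y)) (z - (-x + y)) = 2 * (m + cr z y) := by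
          simp only [cr, PiLp.sub_apply, PiLp.add_apply, PiLp.neg_apply] at hmdef ⊢
          rw [hmdef]; ring
        rw [this]; linarith
      · show 0 ≤ cr ((x + y) - (-x - y)) (z - (-x - y))
        have : cr ((x + y) - (-x - y)) (z - (-x - y)) = 2 * cr (x + y) z := by
          simp only [cr, PiLp.sub_apply, PiLp.add_apply, PiLp.neg_apply]
          ring
        rw [this]; linarith
    · right
      refine (Tri.mem_tri_iff (a := x + y) (b := -x - y) (c := x - y)
        (show 0 < cr ((-x - y) - (x + y)) ((x - y) - (x + y)) by rw [e2]; linarith)).2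
        ⟨?_, ?_, ?_⟩
      · show 0 ≤ cr ((-x - y) - (x + y)) (z - (x + y))
        have : cr ((-x - y) - (x + y)) (z - (x + y)) = - 2 * cr (x + y) z := by
          simp only [cr, PiLp.sub_apply, PiLp.add_apply, PiLp.neg_apply]
          ring
        rw [this]; linarith
      · show 0 ≤ cr ((x - y) - (-x - y)) (z - (-x - y))
        have : cr ((x - y) - (-x - y)) (z - (-x - y)) = 2 * (m + cr x z) := by
          simp only [cr, PiLp.sub_apply, PiLp.add_apply, PiLp.neg_apply] at hmdef ⊢
          rw [hmdef]; ring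
        rw [this]; linarith
      · show 0 ≤ cr ((x + y) - (x - y)) (z - (x - y))
        have : cr ((x + y) - (x - y)) (z - (x - y)) = 2 * (m - cr z y) := by
          simp only [cr, PiLp.sub_apply, PiLp.add_apply, PiLp.neg_apply] at hmdef ⊢
          rw [hmdef]; ring
        rw [this]; linarith
  have hle : volume K ≤ ENNReal.ofReal (4 * m) := by
    calc volume K ≤ volume (convexHull ℝ {x + y, -x + y, -x - y} ∪
          convexHull ℝ {x + y, -x - y, x - y}) := measure_mono hsub
      _ ≤ _ := measure_union_le _ _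
      _ = ENNReal.ofReal (4 * m) := by
          rw [v1, v2, ← ENNReal.ofReal_add (by linarith) (by linarith)]
          congr 1; ring
  have := ENNReal.toReal_mono ENNReal.ofReal_ne_top hle
  rw [ENNReal.toReal_ofReal (by linarith)] at this
  linarith

/-- **Half plane case.** -/
theorem ar6_lt_of_half {p : Fin 6 → Pl} (hp : Conv6 p) (hpK : ∀ k, p k ∈ K) {n : Pl} (hn : n ≠ 0)
    (hh : ∀ k, 0 ≤ cr n (p k)) : ar6 p < S3 (h 0) (h 1) (h 2) := by
  set P := convexHull ℝ (range p) with hP
  have hPK : P ⊆ K := convexHull_min (by rintro _ ⟨k, rfl⟩; exact hpK k) U.conv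
  have hPh : P ⊆ {x : Pl | 0 ≤ cr n x} := by
    refine convexHull_min (by rintro _ ⟨k, rfl⟩; exact hh k) ?_
    intro x hx y hy s t hs ht hst
    have hx' : 0 ≤ cr n x := hx
    have hy' : 0 ≤ cr n y := hy
    show 0 ≤ cr n (s • x + t • y)
    rw [cr_add_right, cr_smul_right, cr_smul_right]
    positivity
  have hPm : MeasurableSet P := ((Set.toFinite _).isCompact_convexHull ℝ).isClosed.measurableSet
  have hneg : volume (-P) = volume P := Measure.measure_neg _ _
  have hnull : volume (P ∩ -P) = 0 := by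
    refine measure_mono_null ?_ (Tri.null_line hn 0)
    rintro x ⟨h1, h2⟩
    have h3 : 0 ≤ cr n x := hPh h1
    have h4 : 0 ≤ cr n (-x) := hPh h2
    rw [cr_neg_right] at h4
    show cr n (x - 0) = 0
    rw [sub_zero]
    linarith
  have hunion : P ∪ -P ⊆ K := by
    rintro x (hx | hx)
    · exact hPK hx
    · have := U.sym _ (hPK hx)
      rwa [neg_neg] at this
  have hfin : volume K ≠ ⊤ := U.comp.measure_lt_top.ne
  have hsum := measure_union_add_inter (μ := (volume : Measure Pl)) P (hPm.neg)
  rw [hnull, add_zero, hneg] at hsum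
  have hle : volume P + volume P ≤ volume K := by
    rw [← hsum]; exact measure_mono hunion
  have hPfin : volume P ≠ ⊤ := ne_top_of_le_ne_top hfin (measure_mono hPK)
  have hle' : (volume P).toReal + (volume P).toReal ≤ (volume K).toReal := by
    rw [← ENNReal.toReal_add hPfin hPfin]
    exact ENNReal.toReal_mono hfin hle
  have h1 := C2305b.Nat73.ar6_le_volume hp
  rw [← hP] at h1
  have h2 := U.volume_lt
  linarith

end SymUniq

end C2305bH68.Sym
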