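import Pool.Agent.W_c2305b_h68.Sym1
import Pool.Agent.W_c2305b_h74.Order

/-!
# Sextuples around the centre (D2, second part)
-/

open MeasureTheory Set

namespace C2305bH68.Sym

open C2305b.Rig
open C2305b.Rig.O74 (conv6_shift ar6_shift conv6_cyc exists_smul_of_cr_zero)

/-! ### Push out to the boundary -/

/-- Radial push out with a support functional. -/
theorem exists_push {K : Set Pl} (hc : IsCompact K) (hconv : Convex ℝ K) (h0 : K ∈ nhds 0)
    {p : Pl} (hp : p ∈ K) (hp0 : p ≠ 0) :
    ∃ ρ : ℝ, 1 ≤ ρ ∧ ρ • p ∈ K ∧ ∃ n : Pl, (∀ x ∈ K, cr n x ≤ 1) ∧ cr n (ρ • p) = 1 := by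
  have habs : Absorbent ℝ K := absorbent_nhds_zero h0
  have hb : Bornology.IsVonNBounded ℝ K :=
    (NormedSpace.isVonNBounded_iff ℝ).2 hc.isBounded
  have hg : 0 < gauge K p := (gauge_pos habs hb).2 hp0
  have hg1 : gauge K p ≤ 1 := gauge_le_one_of_mem hp
  set ρ := (gauge K p)⁻¹ with hρ
  have hρ1 : 1 ≤ ρ := by
    rw [hρ]; exact (one_le_inv₀ hg).2 hg1
  have hgρ : gauge K (ρ • p) = 1 := by
    rw [gauge_smul_of_nonneg (by positivity), smul_eq_mul, hρ, inv_mul_cancel₀ hg.ne']
  have hmem : ρ • p ∈ K := by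
    have := (gauge_le_one_iff_mem_closure hconv h0).1 hgρ.le
    rwa [hc.isClosed.closure_eq] at this
  have hnint : ρ • p ∉ interior K := fun hcon => by
    have := (gauge_lt_one_iff_mem_interior hconv h0).2 hcon
    rw [hgρ] at this
    exact lt_irrefl _ this
  obtain ⟨f, hf⟩ := geometric_hahn_banach_open_point hconv.interior isOpen_interior hnint
  have hint0 : (0 : Pl) ∈ interior K := mem_interior_iff_mem_nhds.2 h0
  have hfpos : 0 < f (ρ • p) := by
    have := hf 0 hint0
    rwa [map_zero] at this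
  have hfle : ∀ x ∈ K, f x ≤ f (ρ • p) := by
    intro x hx
    have hcl : x ∈ closure (interior K) := by
      rw [hconv.closure_interior_eq_closure_of_nonempty_interior ⟨0, hint0⟩]
      exact subset_closure hx
    have hle : closure (interior K) ⊆ {x | f x ≤ f (ρ • p)} := by
      apply closure_minimal
      · intro x hx
        exact (hf x hx).le
      · exact isClosed_le f.continuous continuous_const
    exact hle hcl
  -- the functional as a cross product
  have hfe : ∀ x : Pl, f x = f (EuclideanSpace.single 0 1) * x 0 +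
      f (EuclideanSpace.single 1 1) * x 1 := by
    intro x
    have hx : x = x 0 • EuclideanSpace.single (0 : Fin 2) (1 : ℝ) +
        x 1 • EuclideanSpace.single (1 : Fin 2) (1 : ℝ) := by
      ext k
      fin_cases k
      · simp
      · simp
    conv_lhs => rw [hx]
    rw [map_add, map_smul, map_smul, smul_eq_mul, smul_eq_mul]
    ring
  set c := (f (ρ • p))⁻¹ with hcdef
  have hcpos : 0 < c := by positivity
  refine ⟨ρ, hρ1, hmem, !₂[c * f (EuclideanSpace.single 1 1), -(c * f (EuclideanSpace.single 0 1))],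
    ?_⟩
  have key : ∀ x : Pl, cr (!₂[c * f (EuclideanSpace.single 1 1),
      -(c * f (EuclideanSpace.single 0 1))] : Pl) x = c * f x := by
    intro x
    rw [hfe x]
    simp only [cr, Matrix.cons_val_zero, Matrix.cons_val_one]
    ring
  constructor
  · intro x hx
    rw [key]
    have := mul_le_mul_of_nonneg_left (hfle x hx) hcpos.le
    rwa [hcdef, inv_mul_cancel₀ hfpos.ne'] at this
  · rw [key, hcdef, inv_mul_cancel₀ hfpos.ne']

/-! ### Positions around the centre -/

/-- No closed half plane through the centre contains the sextuple. -/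
def Around (p : Fin 6 → Pl) : Prop := ∀ n : Pl, n ≠ 0 → ∃ k, cr n (p k) < 0

theorem Around.shift {p : Fin 6 → Pl} (h : Around p) (m : Fin 6) :
    Around (fun k => p (k + m)) := by
  intro n hn
  obtain ⟨k, hk⟩ := h n hn
  refine ⟨k - m, ?_⟩
  show cr n (p (k - m + m)) < 0
  rwa [sub_add_cancel]

/-- The edge inequalities. -/
theorem conv6_edge {p : Fin 6 → Pl} (hp : Conv6 p) (i j : Fin 6) :
    0 ≤ cr (p (i + 1) - p i) (p j - p i) := by
  by_cases h1 : j = i
  · rw [h1, sub_self, cr_zero_right]
  by_cases h2 : j = i + 1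
  · rw [h2, cr_self]
  · refine conv6_cyc hp ?_
    revert h1 h2
    revert i j
    decide

/-- Consecutive crosses are nonnegative, with equality only for equal points. -/
theorem Around.edge {p : Fin 6 → Pl} (h : Around p) (hp : Conv6 p) (i : Fin 6) :
    0 < cr (p i) (p (i + 1)) ∨ p (i + 1) = p i := by
  by_contra hcon
  push Not at hcon
  obtain ⟨h1, h2⟩ := hcon
  obtain ⟨k, hk⟩ := h (p (i + 1) - p i) (sub_ne_zero.2 h2)
  have h3 := conv6_edge hp i k
  have e1 : cr (p (i + 1) - p i) (p k - p i) = cr (p (i + 1) - p i) (p k) + cr (p i) (p (i + 1)) := by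
    simp only [cr, PiLp.sub_apply]; ring
  rw [e1] at h3
  linarith

theorem Around.edge_nonneg {p : Fin 6 → Pl} (h : Around p) (hp : Conv6 p) (i : Fin 6) :
    0 ≤ cr (p i) (p (i + 1)) := by
  rcases h.edge hp i with h1 | h1
  · exact h1.le
  · rw [h1, cr_self]

theorem Around.not_const {p : Fin 6 → Pl} (h : Around p) (i : Fin 6) : ¬ ∀ k, p k = p i := by
  intro hall
  by_cases h0 : p i = 0
  · obtain ⟨k, hk⟩ := h (!₂[1, 0] : Pl) (by
      intro e
      have := congrArg (fun v : Pl => v 0) e
      simp at this)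
    rw [hall k, h0, cr_zero_right] at hk
    exact lt_irrefl _ hk
  · obtain ⟨k, hk⟩ := h (p i) h0
    rw [hall k, cr_self] at hk
    exact lt_irrefl _ hk

theorem fin6_all : ∀ i k : Fin 6, k = i ∨ k = i + 1 ∨ k = i + 1 + 1 ∨ k = i + 1 + 1 + 1 ∨
    k = i + 1 + 1 + 1 + 1 ∨ k = i + 1 + 1 + 1 + 1 + 1 := by decide

/-- No point is the centre. -/
theorem Around.ne_zero {p : Fin 6 → Pl} (h : Around p) (hp : Conv6 p) (i : Fin 6) : p i ≠ 0 := by
  intro h0
  -- the next points are all zero
  have step : ∀ j, p j = 0 → p (j + 1) = 0 := by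
    intro j hj
    rcases h.edge hp j with h1 | h1
    · rw [hj, cr_zero_left] at h1
      exact absurd h1 (lt_irrefl _)
    · rw [h1, hj]
  apply h.not_const i
  have h1 := step i h0
  have h2 := step _ h1
  have h3 := step _ h2
  have h4 := step _ h3
  have h5 := step _ h4
  intro k
  rw [h0]
  rcases fin6_all i k with rfl | rfl | rfl | rfl | rfl | rfl
  · exact h0
  · exact h1
  · exact h2
  · exact h3
  · exact h4
  · exact h5

end C2305bH68.Sym
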