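import Pool.Agent.W_c2305b_h68.Sym2

/-!
# The place of the exchange (D2, third part)
-/

open Set

namespace C2305bH68.Sym

open C2305b.Rig
open C2305b.Rig.O74 (conv6_shift ar6_shift conv6_cyc exists_smul_of_cr_zero)

/-- The half turn condition: from `p k` to `p (k + 3)` is at most half a turn. -/
def Q (p : Fin 6 → Pl) (k : Fin 6) : Prop :=
  0 < cr (p k) (p (k + 3)) ∨ (∃ μ : ℝ, 0 < μ ∧ p (k + 3) = -(μ • p k)) ∨
    (p (k + 1) = p k ∧ p (k + 2) = p k ∧ p (k + 3) = p k)

theorem Q.nonneg {p : Fin 6 → Pl} {k : Fin 6} (h : Q p k) : 0 ≤ cr (p k) (p (k + 3)) := by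
  rcases h with h | ⟨μ, _, h⟩ | ⟨_, _, h⟩
  · exact h.le
  · rw [h, cr_neg_right, cr_smul_right, cr_self, mul_zero, neg_zero]
  · rw [h, cr_self]

theorem Around.eq_of_cr {p : Fin 6 → Pl} (h : Around p) (hp : Conv6 p) {i : Fin 6}
    (h0 : cr (p i) (p (i + 1)) ≤ 0) : p (i + 1) = p i := by
  rcases h.edge hp i with h1 | h1
  · exact absurd h1 (not_lt.2 h0)
  · exact h1

theorem s12 (k : Fin 6) : k + 1 + 1 = k + 2 := by revert k; decide
theorem s23 (k : Fin 6) : k + 2 + 1 = k + 3 := by revert k; decide
theorem s34 (k : Fin 6) : k + 3 + 1 = k + 4 := by revert k; decide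
theorem s45 (k : Fin 6) : k + 4 + 1 = k + 5 := by revert k; decide
theorem s56 (k : Fin 6) : k + 5 + 1 = k := by revert k; decide
theorem s47 (k : Fin 6) : k + 4 + 3 = k + 1 := by revert k; decide
theorem s33 (k : Fin 6) : k + 3 + 3 = k := by revert k; decide
theorem s31 (k : Fin 6) : k + 3 + 2 = k + 5 := by revert k; decide

/-- The whole sextuple is not on a line. -/
theorem Around.not_line {p : Fin 6 → Pl} (h : Around p) {e q : Pl} (he : e ≠ 0)
    (hl : ∀ k, cr e (p k - q) = 0) : False := by
  have hk : ∀ k, cr e (p k) = cr e q := fun k => by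
    have := hl k
    rw [cr_sub_right] at this
    linarith
  rcases le_total 0 (cr e q) with h1 | h1
  · obtain ⟨k, hk'⟩ := h e he
    rw [hk] at hk'
    linarith
  · obtain ⟨k, hk'⟩ := h (-e) (neg_ne_zero.2 he)
    rw [cr_neg_left, hk] at hk'
    linarith

theorem cyc_a (k : Fin 6) {i j l : Fin 6} (hij : i < j) (hjl : j < l) :
    (i + k < j + k ∧ j + k < l + k) ∨ (j + k < l + k ∧ l + k < i + k) ∨
      (l + k < i + k ∧ i + k < j + k) :=
  C2305b.Rig.O74.fin6_shift k i j l hij hjl

/-- orientation of three points with indices counted from `k` -/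
theorem ori {p : Fin 6 → Pl} (hp : Conv6 p) (k : Fin 6) {i j l : Fin 6} (hij : i < j)
    (hjl : j < l) : 0 ≤ cr (p (k + j) - p (k + i)) (p (k + l) - p (k + i)) := by
  rw [add_comm k j, add_comm k i, add_comm k l]
  exact conv6_cyc hp (cyc_a k hij hjl)

/-- One of the two half turn conditions holds. -/
theorem Around.Q_or {p : Fin 6 → Pl} (h : Around p) (hp : Conv6 p) (k : Fin 6) :
    Q p k ∨ Q p (k + 3) := by
  have e0 := h.edge_nonneg hp k
  have e1 := h.edge_nonneg hp (k + 1)
  have e2 := h.edge_nonneg hp (k + 2)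
  have e3 := h.edge_nonneg hp (k + 3)
  have e4 := h.edge_nonneg hp (k + 4)
  have e5 := h.edge_nonneg hp (k + 5)
  rw [s12] at e1
  rw [s23] at e2
  rw [s34] at e3
  rw [s45] at e4
  rw [s56] at e5
  have q0 : p (k + 1) = p k ∨ 0 < cr (p k) (p (k + 1)) := (h.edge hp k).symm
  have q1 : cr (p (k + 1)) (p (k + 2)) ≤ 0 → p (k + 2) = p (k + 1) := fun hh => by
    have := h.eq_of_cr hp (i := k + 1) (by rw [s12]; exact hh)
    rwa [s12] at this
  have q2 : cr (p (k + 2)) (p (k + 3)) ≤ 0 → p (k + 3) = p (k + 2) := fun hh => by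
    have := h.eq_of_cr hp (i := k + 2) (by rw [s23]; exact hh)
    rwa [s23] at this
  have q3 : cr (p (k + 3)) (p (k + 4)) ≤ 0 → p (k + 4) = p (k + 3) := fun hh => by
    have := h.eq_of_cr hp (i := k + 3) (by rw [s34]; exact hh)
    rwa [s34] at this
  have q4 : cr (p (k + 4)) (p (k + 5)) ≤ 0 → p (k + 5) = p (k + 4) := fun hh => by
    have := h.eq_of_cr hp (i := k + 4) (by rw [s45]; exact hh)
    rwa [s45] at this
  have q5 : cr (p (k + 5)) (p k) ≤ 0 → p k = p (k + 5) := fun hh => by
    have := h.eq_of_cr hp (i := k + 5) (by rw [s56]; exact hh)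
    rwa [s56] at this
  have hz0 := h.ne_zero hp k
  have hz3 := h.ne_zero hp (k + 3)
  rcases lt_trichotomy (cr (p k) (p (k + 3))) 0 with hw | hw | hw
  · right
    left
    rw [s33, cr_swap]
    linarith
  rotate_left
  · exact Or.inl (Or.inl hw)
  obtain ⟨t, ht⟩ := exists_smul_of_cr_zero hz0 hw
  rcases lt_trichotomy t 0 with ht0 | ht0 | ht0
  · left; right; left
    exact ⟨-t, by linarith, by rw [ht, neg_smul, neg_neg]⟩
  · rw [ht0, zero_smul] at ht
    exact absurd ht hz3
  -- same direction
  have o13 := ori hp k (i := 0) (j := 1) (l := 3) (by decide) (by decide)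
  have o23 := ori hp k (i := 0) (j := 2) (l := 3) (by decide) (by decide)
  have o34 := ori hp k (i := 0) (j := 3) (l := 4) (by decide) (by decide)
  have o35 := ori hp k (i := 0) (j := 3) (l := 5) (by decide) (by decide)
  rw [add_zero] at o13 o23 o34 o35
  have r1 : cr (p (k + 1) - p k) (p (k + 3) - p k) = (1 - t) * cr (p k) (p (k + 1)) := by
    rw [ht]; simp only [cr, PiLp.sub_apply, PiLp.smul_apply, smul_eq_mul]; ring
  have r2 : cr (p (k + 2) - p k) (p (k + 3) - p k) = (1 - t) * cr (p k) (p (k + 2)) := by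
    rw [ht]; simp only [cr, PiLp.sub_apply, PiLp.smul_apply, smul_eq_mul]; ring
  have r4 : cr (p (k + 3) - p k) (p (k + 4) - p k) = (t - 1) * cr (p k) (p (k + 4)) := by
    rw [ht]; simp only [cr, PiLp.sub_apply, PiLp.smul_apply, smul_eq_mul]; ring
  have r5 : cr (p (k + 3) - p k) (p (k + 5) - p k) = (t - 1) * cr (p k) (p (k + 5)) := by
    rw [ht]; simp only [cr, PiLp.sub_apply, PiLp.smul_apply, smul_eq_mul]; ring
  rw [r1] at o13
  rw [r2] at o23
  rw [r4] at o34
  rw [r5] at o35
  rcases lt_trichotomy t 1 with ht1 | ht1 | ht1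
  · -- the points `4`, `5` collapse
    exfalso
    have f3 : 0 ≤ cr (p k) (p (k + 4)) := by
      rw [ht, cr_smul_left] at e3
      exact nonneg_of_mul_nonneg_right e3 ht0
    have f4 : cr (p k) (p (k + 4)) ≤ 0 := by
      by_contra hcon
      push Not at hcon
      nlinarith
    have g4 : p (k + 4) = p (k + 3) := q3 (by
      rw [ht, cr_smul_left]
      have : cr (p k) (p (k + 4)) = 0 := le_antisymm f4 f3
      rw [this, mul_zero])
    have f5 : 0 ≤ cr (p k) (p (k + 5)) := by
      rw [g4, ht, cr_smul_left] at e4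
      exact nonneg_of_mul_nonneg_right e4 ht0
    have f6 : cr (p k) (p (k + 5)) ≤ 0 := by
      by_contra hcon
      push Not at hcon
      nlinarith
    have g5 : p k = p (k + 5) := q5 (by rw [cr_swap]; linarith)
    have g6 : p (k + 5) = p (k + 4) := q4 (by
      rw [g4, ht, cr_smul_left]
      have : cr (p k) (p (k + 5)) = 0 := le_antisymm f6 f5
      rw [this, mul_zero])
    have g7 : (1 - t) • p k = 0 := by
      have : p k = t • p k := by
        calc p k = p (k + 5) := g5
          _ = p (k + 4) := g6
          _ = p (k + 3) := g4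
          _ = t • p k := ht
      rw [sub_smul, one_smul, sub_eq_zero]
      exact this
    rcases smul_eq_zero.1 g7 with g8 | g8
    · linarith
    · exact hz0 g8
  · -- equal points
    rw [ht1, one_smul] at ht
    by_cases h1 : p (k + 1) = p k
    · left; right; right
      have h2 : p (k + 2) = p (k + 1) := q1 (by
        rw [h1]
        rw [ht] at e2
        rw [cr_swap]
        linarith)
      exact ⟨h1, h2.trans h1, ht⟩
    · by_cases h5 : p (k + 5) = p k
      · right; right; right
        have h4 : p (k + 4) = p (k + 3) := q3 (by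
          rw [h5] at e4
          rw [ht, cr_swap]
          linarith)
        rw [s34, s31, s33]
        exact ⟨h4, h5.trans ht.symm, ht.symm⟩
      · exfalso
        have c1 : 0 < cr (p k) (p (k + 1)) := q0.resolve_left h1
        have c5 : 0 < cr (p (k + 5)) (p k) := by
          rcases e5.lt_or_eq with h6 | h6
          · exact h6
          · exact absurd (q5 h6.symm.le).symm h5
        -- the four parallelities
        have par : ∀ a b : Fin 6, (0 : Fin 6) < a → a < 3 → (3 : Fin 6) < b →
            cr (p (k + a) - p k) (p (k + b) - p k) = 0 := by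
          intro a b ha ha3 hb
          have o1 := ori hp k (i := 0) (j := a) (l := b) ha (ha3.trans hb)
          have o2 := ori hp k (i := a) (j := 3) (l := b) ha3 hb
          rw [add_zero] at o1
          rw [ht] at o2
          have e6 : cr (p k - p (k + a)) (p (k + b) - p (k + a)) =
              - cr (p (k + a) - p k) (p (k + b) - p k) := by
            simp only [cr, PiLp.sub_apply]; ring
          rw [e6] at o2
          linarith
        have p14 := par 1 4 (by decide) (by decide) (by decide)
        have p15 := par 1 5 (by decide) (by decide) (by decide)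
        have p24 := par 2 4 (by decide) (by decide) (by decide)
        have p25 := par 2 5 (by decide) (by decide) (by decide)
        have hne5 : p (k + 5) - p k ≠ 0 := sub_ne_zero.2 h5
        have hne1 : p (k + 1) - p k ≠ 0 := sub_ne_zero.2 h1
        refine h.not_line hne1 (q := p k) fun l => ?_
        -- `p (k + 5) - p k` is a multiple of `p (k + 1) - p k`
        obtain ⟨s, hs⟩ := exists_smul_of_cr_zero hne1 p15
        have hs0 : s ≠ 0 := by
          rintro rfl
          rw [zero_smul] at hs
          exact hne5 hs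
        have hl : l = k ∨ l = k + 1 ∨ l = k + 2 ∨ l = k + 3 ∨ l = k + 4 ∨ l = k + 5 := by
          have := fin6_all k l
          rw [s12, s23, s34, s45] at this
          exact this
        rcases hl with rfl | rfl | rfl | rfl | rfl | rfl
        · rw [sub_self, cr_zero_right]
        · rw [cr_self]
        · have : cr (p (k + 2) - p k) (s • (p (k + 1) - p k)) = 0 := by rw [← hs]; exact p25
          rw [cr_smul_right] at this
          rcases mul_eq_zero.1 this with h7 | h7
          · exact absurd h7 hs0
          · rw [cr_swap, h7, neg_zero]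
        · rw [ht, sub_self, cr_zero_right]
        · exact p14
        · exact p15
  · -- the points `1`, `2` collapse
    exfalso
    have f1 : cr (p k) (p (k + 1)) ≤ 0 := by
      by_contra hcon
      push Not at hcon
      nlinarith
    have g1 : p (k + 1) = p k := by
      rcases q0 with h1 | h1
      · exact h1
      · linarith
    have f2 : cr (p k) (p (k + 2)) ≤ 0 := by
      by_contra hcon
      push Not at hcon
      nlinarith
    have g2 : p (k + 2) = p (k + 1) := q1 (by rw [g1]; exact f2)
    have g3 : p (k + 3) = p (k + 2) := q2 (by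
      rw [g2, g1, ht, cr_smul_right, cr_self, mul_zero])
    have g7 : (t - 1) • p k = 0 := by
      have : t • p k = p k := by
        calc t • p k = p (k + 3) := ht.symm
          _ = p (k + 2) := g3
          _ = p (k + 1) := g2
          _ = p k := g1
      rw [sub_smul, one_smul, sub_eq_zero]
      exact this
    rcases smul_eq_zero.1 g7 with g8 | g8
    · linarith
    · exact hz0 g8

/-- The place of the exchange. -/
theorem Around.exists_place {p : Fin 6 → Pl} (h : Around p) (hp : Conv6 p) :
    ∃ k, Q p k ∧ Q p (k + 4) := by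
  by_contra hcon
  push Not at hcon
  have step : ∀ k, Q p k → Q p (k + 1) := by
    intro k hk
    have h1 := hcon k hk
    rcases h.Q_or hp (k + 4) with h2 | h2
    · exact absurd h2 h1
    · rwa [s47] at h2
  have hall : ∀ k, Q p k → ∀ l, Q p l := by
    intro k hk l
    have h1 := step k hk
    have h2 := step _ h1
    have h3 := step _ h2
    have h4 := step _ h3
    have h5 := step _ h4
    rcases fin6_all k l with rfl | rfl | rfl | rfl | rfl | rfl
    · exact hk
    · exact h1
    · exact h2
    · exact h3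
    · exact h4
    · exact h5
  rcases h.Q_or hp 0 with h1 | h1
  · exact hcon 0 h1 (hall 0 h1 _)
  · exact hcon _ h1 (hall _ h1 _)

/-- First diagonal. -/
theorem Around.diag1 {p : Fin 6 → Pl} (h : Around p) (hp : Conv6 p) {k : Fin 6} (hQ : Q p k) :
    0 ≤ cr (p (k + 1)) (p (k + 3)) := by
  have e0 := h.edge_nonneg hp k
  have e1 := h.edge_nonneg hp (k + 1)
  have e2 := h.edge_nonneg hp (k + 2)
  rw [s12] at e1
  rw [s23] at e2
  rcases hQ with hw | ⟨μ, hμ, hw⟩ | ⟨h1, h2, h3⟩
  · by_contra hcon
    push Not at hcon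
    have o1 := ori hp k (i := 0) (j := 1) (l := 3) (by decide) (by decide)
    have o2 := ori hp k (i := 0) (j := 2) (l := 3) (by decide) (by decide)
    rw [add_zero] at o1 o2
    -- `D G(0) = cr p2 p3 G(p1) + cr p3 p1 G(p2)`
    have key : (cr (p (k + 1)) (p (k + 2)) + cr (p (k + 2)) (p (k + 3)) -
        cr (p (k + 1)) (p (k + 3))) * cr (p k) (p (k + 3)) =
        - (cr (p (k + 2)) (p (k + 3)) * cr (p (k + 1) - p k) (p (k + 3) - p k)) +
          cr (p (k + 1)) (p (k + 3)) * cr (p (k + 2) - p k) (p (k + 3) - p k) := by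
      simp only [cr, PiLp.sub_apply]; ring
    have p1 := mul_nonneg e2 o1
    have p2 := mul_nonneg (neg_nonneg.2 hcon.le) o2
    have p3 : 0 < (cr (p (k + 1)) (p (k + 2)) + cr (p (k + 2)) (p (k + 3)) -
        cr (p (k + 1)) (p (k + 3))) * cr (p k) (p (k + 3)) := by
      apply mul_pos _ hw
      linarith
    linarith
  · rw [hw, cr_neg_right, cr_smul_right, cr_swap]
    have := mul_nonneg hμ.le e0
    linarith
  · rw [h3, h1, cr_self]

/-- Second diagonal. -/
theorem Around.diag2 {p : Fin 6 → Pl} (h : Around p) (hp : Conv6 p) {k : Fin 6} (hQ : Q p k) :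
    0 ≤ cr (p k) (p (k + 2)) := by
  have e0 := h.edge_nonneg hp k
  have e1 := h.edge_nonneg hp (k + 1)
  have e2 := h.edge_nonneg hp (k + 2)
  rw [s12] at e1
  rw [s23] at e2
  rcases hQ with hw | ⟨μ, hμ, hw⟩ | ⟨h1, h2, h3⟩
  · by_contra hcon
    push Not at hcon
    have o1 := ori hp k (i := 0) (j := 1) (l := 3) (by decide) (by decide)
    have o2 := ori hp k (i := 0) (j := 2) (l := 3) (by decide) (by decide)
    rw [add_zero] at o1 o2
    have key : (cr (p k) (p (k + 1)) + cr (p (k + 1)) (p (k + 2)) -
        cr (p k) (p (k + 2))) * cr (p k) (p (k + 3)) =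
        cr (p k) (p (k + 2)) * cr (p (k + 1) - p k) (p (k + 3) - p k) -
          cr (p k) (p (k + 1)) * cr (p (k + 2) - p k) (p (k + 3) - p k) := by
      simp only [cr, PiLp.sub_apply]; ring
    have p1 := mul_nonneg e0 o2
    have p2 := mul_nonneg (neg_nonneg.2 hcon.le) o1
    have p3 : 0 < (cr (p k) (p (k + 1)) + cr (p (k + 1)) (p (k + 2)) -
        cr (p k) (p (k + 2))) * cr (p k) (p (k + 3)) := by
      apply mul_pos _ hw
      linarith
    linarith
  · rw [hw, cr_neg_right, cr_smul_right, cr_swap] at e2
    have : 0 ≤ μ * cr (p k) (p (k + 2)) := by linarith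
    exact nonneg_of_mul_nonneg_right this hμ
  · rw [h2, cr_self]

end C2305bH68.Sym
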