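import Pool.Agent.W_c2305b_h68.Monge

/-!
# Unique maximal symmetric hexagon: the interface between D2 and D3
-/

namespace C2305bH68.Sym

open C2305b.Rig

/-- Area of the symmetric hexagon `x, y, z, -x, -y, -z`. -/
def S3 (x y z : Pl) : ℝ := cr x y + cr y z + cr x z

/-- The symmetric hexagon of a triple. -/
def hexOf (h : Fin 3 → Pl) : Fin 6 → Pl := ![h 0, h 1, h 2, -h 0, -h 1, -h 2]

/-- `K` is a symmetric convex body, `h` is the unique maximal triple of `S3` on `K` up to the six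
rotations of the hexagon, and the hexagon has strict corners. -/
structure SymUniq (K : Set Pl) (h : Fin 3 → Pl) : Prop where
  comp : IsCompact K
  conv : Convex ℝ K
  nhds : K ∈ nhds 0
  sym : ∀ x ∈ K, -x ∈ K
  mem : ∀ i, h i ∈ K
  ta : cr (h 0) (h 1) < cr (h 1) (h 2) + cr (h 0) (h 2)
  tb : cr (h 1) (h 2) < cr (h 0) (h 1) + cr (h 0) (h 2)
  tc : cr (h 0) (h 2) < cr (h 0) (h 1) + cr (h 1) (h 2)
  max : ∀ x ∈ K, ∀ y ∈ K, ∀ z ∈ K, S3 x y z ≤ S3 (h 0) (h 1) (h 2)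
  uniq : ∀ x ∈ K, ∀ y ∈ K, ∀ z ∈ K, S3 x y z = S3 (h 0) (h 1) (h 2) →
    ∃ j : Fin 6, x = hexOf h j ∧ y = hexOf h (j + 1) ∧ z = hexOf h (j + 2)

end C2305bH68.Sym
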